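import Pool.Graph.R_pool_sql_team_seeded_64922ed1.X259.U.U30

/-!
# The trace of the projector on a coset
-/

set_option autoImplicit false
set_option linter.unusedSectionVars false
set_option linter.unusedDecidableInType false
set_option linter.unusedFintypeInType false

namespace Pool.Agent.H25.HG

open Matrix Finset Module MeasureTheory Pool.Agent.H204R3.SP Pool.Agent.H204R3.GP
  Pool.Agent.W516 Pool.Agent.X259.T Pool.Agent.X259.U
open scoped ComplexOrder

noncomputable section

variable {R : Type} [Fintype R] [DecidableEq R] {Q : Type} [DecidableEq Q]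
  {cls : R → Q} {inv : R → R} {jj : R → ℂ} {B C : ∀ κ : Type, Submodule ℂ ((κ → R) → ℂ)}

/-- The projector on the tensors of the family. -/
def PR (B : ∀ κ : Type, Submodule ℂ ((κ → R) → ℂ)) (κ : Type) [Fintype κ] :
    Matrix (κ → R) (κ → R) ℂ :=
  letI : MeasurableSpace (stabG (tens B)) := borel _
  haveI : BorelSpace (stabG (tens B)) := ⟨rfl⟩
  av κ (inc (stabG (tens B)))

lemma PR_idem (B : ∀ κ : Type, Submodule ℂ ((κ → R) → ℂ)) (κ : Type) [Fintype κ] [DecidableEq κ] :
    PR B κ * PR B κ = PR B κ := by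
  let _ : MeasurableSpace (stabG (tens B)) := borel _
  have _ : BorelSpace (stabG (tens B)) := ⟨rfl⟩
  exact av_idem (inc_cont _)

lemma PR_herm (B : ∀ κ : Type, Submodule ℂ ((κ → R) → ℂ)) (κ : Type) [Fintype κ] [DecidableEq κ] :
    (PR B κ)ᴴ = PR B κ := by
  let _ : MeasurableSpace (stabG (tens B)) := borel _
  have _ : BorelSpace (stabG (tens B)) := ⟨rfl⟩
  exact av_herm (inc_cont _) fun g => Matrix.mem_unitaryGroup_iff.1 g.1.2

lemma PR_inv (B : ∀ κ : Type, Submodule ℂ ((κ → R) → ℂ)) (κ : Type) [Fintype κ] [DecidableEq κ]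
    {g : Matrix.unitaryGroup R ℂ} (hg : g ∈ stabG (tens B)) :
    kr κ (g : Matrix R R ℂ) * PR B κ = PR B κ := by
  let _ : MeasurableSpace (stabG (tens B)) := borel _
  have _ : BorelSpace (stabG (tens B)) := ⟨rfl⟩
  exact av_inv (inc_cont _) ⟨g, hg⟩

lemma PR_trace (hB : Bas cls inv jj) (hBf : Fam cls inv jj B) (κ : Type) [Fintype κ]
    [DecidableEq κ] : (PR B κ).trace = (finrank ℂ (B κ) : ℂ) := by
  let _ : MeasurableSpace (stabG (tens B)) := borel _
  have _ : BorelSpace (stabG (tens B)) := ⟨rfl⟩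
  exact trace_av hB hBf

lemma PR_mul (hle : ∀ κ : Type, C κ ≤ B κ) (κ : Type) [Fintype κ] [DecidableEq κ] :
    PR C κ * PR B κ = PR C κ := by
  have hsub : stabG (tens B) ≤ stabG (tens C) := fun g hg s hs => hg s (hle _ hs)
  let _ : MeasurableSpace (stabG (tens B)) := borel _
  have _ : BorelSpace (stabG (tens B)) := ⟨rfl⟩
  let _ : MeasurableSpace (stabG (tens C)) := borel _
  have _ : BorelSpace (stabG (tens C)) := ⟨rfl⟩
  have hr : Continuous (inc (stabG (tens B))) := inc_cont _
  have hr' : Continuous (inc (stabG (tens C))) := inc_cont _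
  have hBC : PR B κ * PR C κ = PR C κ := by
    refine Matrix.toLin'.injective (LinearMap.ext fun F => ?_)
    rw [Matrix.toLin'_apply, Matrix.toLin'_apply, ← Matrix.mulVec_mulVec]
    exact av_fix hr _ fun g => av_mem hr' F ⟨g.1, hsub g.2⟩
  have h1 := congrArg Matrix.conjTranspose hBC
  rwa [Matrix.conjTranspose_mul, PR_herm, PR_herm] at h1

/-- The value of a unitary operator. -/
lemma re_le {κ : Type} [Fintype κ] [DecidableEq κ] {g : Matrix R R ℂ} (hg : gᴴ * g = 1)
    (F : (κ → R) → ℂ) : (ip (kr κ g *ᵥ F) F).re ≤ (ip F F).re := by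
  have h1 := ip_self_re (kr κ g *ᵥ F + (-1 : ℂ) • F)
  have h2 : ∀ a b c : (κ → R) → ℂ, ip a (b + c) = ip a b + ip a c := by
    intro a b c
    simp only [ip, Pi.add_apply, star_add, mul_add, Finset.sum_add_distrib]
  have h2' : ∀ a b : (κ → R) → ℂ, ip a ((-1 : ℂ) • b) = -ip a b := by
    intro a b
    simp only [ip, Pi.smul_apply, smul_eq_mul, star_neg, neg_mul, one_mul,
      mul_neg, Finset.sum_neg_distrib]
  have h3 : ip (kr κ g *ᵥ F) (kr κ g *ᵥ F) = ip F F := by
    rw [ip_kr, Matrix.mulVec_mulVec, ← kr_mul, hg, kr_one, Matrix.one_mulVec]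
  rw [ip_add_left, h2, h2, h2', h2', h3, ip_smul_left, ip_smul_left,
    ← ip_star (kr κ g *ᵥ F) F] at h1
  have h4 : (star (ip (kr κ g *ᵥ F) F)).re = (ip (kr κ g *ᵥ F) F).re := rfl
  simp only [Complex.add_re, Complex.neg_re, neg_mul, one_mul, h4] at h1
  linarith

/-- The value of a hermitian idempotent. -/
lemma trace_le' {κ : Type} [Fintype κ] [DecidableEq κ] {E : Matrix (κ → R) (κ → R) ℂ}
    (hE : E * E = E) (hEh : Eᴴ = E) {g : Matrix R R ℂ} (hg : gᴴ * g = 1) :
    ((kr κ g * E).trace).re ≤ (E.trace).re := by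
  have h1 : ∀ A : Matrix (κ → R) (κ → R) ℂ, (A * E).trace =
      ∑ I, ip (A *ᵥ fun J => E J I) (fun J => E J I) := by
    intro A
    have h2 : (A * E).trace = (E * (A * E)).trace := by
      rw [Matrix.trace_mul_comm E, mul_assoc, hE]
    rw [h2, Matrix.trace]
    refine Finset.sum_congr rfl fun I _ => ?_
    rw [Matrix.diag_apply, Matrix.mul_apply, ip]
    refine Finset.sum_congr rfl fun J _ => ?_
    rw [mul_comm]
    congr 1
    have h3 := congrFun (congrFun hEh I) J
    rw [Matrix.conjTranspose_apply] at h3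
    rw [h3]
  have h2 : E.trace = ∑ I, ip (fun J => E J I) (fun J => E J I) := by
    have h3 := h1 1
    rw [one_mul] at h3
    rw [h3]
    exact Finset.sum_congr rfl fun I _ => by rw [Matrix.one_mulVec]
  rw [h1, h2, Complex.re_sum, Complex.re_sum]
  exact Finset.sum_le_sum fun I _ => re_le hg _

/-- The trace on a coset. -/
def ph (B : ∀ κ : Type, Submodule ℂ ((κ → R) → ℂ)) (m : ℕ) (g : Matrix R R ℂ) : ℝ :=
  ((kr (Fin (2 * m)) g * PR B (Fin (2 * m))).trace).re

lemma ph_le (hB : Bas cls inv jj) (hBf : Fam cls inv jj B) (m : ℕ) {g : Matrix R R ℂ}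
    (hg : gᴴ * g = 1) : ph B m g ≤ finrank ℂ (B (Fin (2 * m))) := by
  have h1 := trace_le' (PR_idem B (Fin (2 * m))) (PR_herm B _) hg
  rw [PR_trace hB hBf, Complex.natCast_re] at h1
  exact h1

lemma ph_eq (hB : Bas cls inv jj) (hBf : Fam cls inv jj B) (m : ℕ) {g : Matrix.unitaryGroup R ℂ}
    (hg : g ∈ stabG (tens B)) : ph B m (g : Matrix R R ℂ) = finrank ℂ (B (Fin (2 * m))) := by
  rw [ph, PR_inv B _ hg, PR_trace hB hBf, Complex.natCast_re]

/-- The trace on a coset is an integral. -/
lemma tr_int (m : ℕ) (q : Matrix R R ℂ) [MeasurableSpace (stabG (tens B))]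
    [BorelSpace (stabG (tens B))] :
    (kr (Fin (2 * m)) q * PR B (Fin (2 * m))).trace =
      ∫ g, (q * inc (stabG (tens B)) g).trace ^ (2 * m) ∂(hm (stabG (tens B))) := by
  have hbor : (inferInstance : MeasurableSpace (stabG (tens B))) = borel _ :=
    BorelSpace.measurable_eq
  have hr : Continuous (inc (stabG (tens B))) := inc_cont _
  have hPR : PR B (Fin (2 * m)) = av (Fin (2 * m)) (inc (stabG (tens B))) := by
    subst hbor
    rfl
  rw [hPR, Matrix.trace]
  simp only [Matrix.diag_apply, Matrix.mul_apply]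
  have h1 : ∀ g, (q * inc (stabG (tens B)) g).trace ^ (2 * m) =
      ∑ I, ∑ L, kr (Fin (2 * m)) q I L * kr (Fin (2 * m)) (inc (stabG (tens B)) g) L I := by
    intro g
    have h2 := kr_trace (κ := Fin (2 * m)) (q * inc (stabG (tens B)) g)
    rw [Fintype.card_fin] at h2
    rw [← h2, kr_mul, Matrix.trace]
    simp only [Matrix.diag_apply, Matrix.mul_apply]
  simp only [h1]
  rw [integral_finsetSum]
  · refine Finset.sum_congr rfl fun I _ => ?_
    rw [integral_finsetSum]
    · exact Finset.sum_congr rfl fun L _ => (integral_const_mul _ _).symm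
    · exact fun L _ => (integrable_of_continuous (kr_cont hr L I)).const_mul _
  · exact fun I _ => integrable_of_continuous (continuous_finsetSum _ fun L _ =>
      continuous_const.mul (kr_cont hr L I))

end

end Pool.Agent.H25.HG
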