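import Pool.Agent.H25.HG.A9

/-!
# The Casimir form and the forms of degree two determine the Lie algebra
-/

set_option autoImplicit false
set_option linter.unusedSectionVars false
set_option linter.unusedDecidableInType false
set_option linter.unusedFintypeInType false

namespace Pool.Agent.H25.HG

open Matrix Finset Module Pool.Agent.H204R3.SP
  Pool.Agent.H204R3.GP Pool.Agent.W516 Pool.Agent.X259.T Pool.Agent.X259.U
open scoped ComplexOrder

noncomputable section

variable {W : Type} [AddCommGroup W] [Module ℚ W] {R : Type} [Fintype R] [DecidableEq R]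
  {T : Type} [AddCommGroup T] [Module ℂ T] {Q : Type} [DecidableEq Q]
  {per : W →+ T} {ω₀ : W →ₗ[ℚ] W →ₗ[ℚ] ℚ} {b : Basis R ℚ W} {b' : Basis R ℝ T} {cls : R → Q}
  {inv : R → R} {jj : R → ℂ} {S S' : Matrix R R ℂ} (hf : Frame per ω₀ b b' cls inv jj S S')
  {B C : ∀ m : ℕ, Submodule ℚ (RF W m)}

include hf in
/-- The determination of the Lie algebra, from the rational forms. -/
lemma lieDetC_of {N : ℕ}
    (hdet : ∀ Z : Module.End ℚ W, (∀ m, 2 * m ≤ N → ∀ ψ ∈ C m, Kills Z ψ) →
      ∀ m, ∀ ψ ∈ B m, Kills Z ψ) : LieDetC (Fm S b B) (Fm S b C) N := by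
  intro A hA
  have h1 : A ∈ LL (Fm S b B) := by
    refine mem_LL_of hf fun m ψ hψ => ?_
    refine (dk_iff b _ _).2 fun lam => ?_
    refine hdet _ (fun m' hm' ψ' hψ' => ?_) m ψ hψ
    refine (dk_gen hf A ψ').1 ?_ lam
    have h2 := hA (m' * 2) (by omega) _ (gen_mem (S := S) (b := b)
      (finProdFinEquiv : Fin m' × Fin 2 ≃ Fin (m' * 2)) hψ')
    rw [dk_ri] at h2
    funext I
    have h3 := congrFun h2
      (fun k => I ((finProdFinEquiv : Fin m' × Fin 2 ≃ Fin (m' * 2)).symm k))
    simp only [ri, Equiv.symm_apply_apply, Pi.zero_apply] at h3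
    exact h3
  exact h1

include hf in
/-- The Casimir form and the forms of degree two determine the Lie algebra. -/
theorem mem_LB_of [FiniteDimensional ℚ W] {N : Matrix R R ℂ} (hBN : DefBy b B N)
    (hBf : Fam cls inv jj (Fm S b B))
    (hpol : ∀ ψ : RF W 1, (∀ v, ψ v = ω₀ (v (0, 0)) (v (0, 1))) → ψ ∈ B 1)
    (hZ0 : ∀ P : Module.End ℚ W, InComm B P → (∀ P', InComm B P' → P * P' = P' * P) →
      (∀ u v, ω₀ (P u) v = -ω₀ u (P v)) → P ∈ LB B) {Z : Module.End ℚ W}
    (h1 : ∀ ψ ∈ B 1, Kills Z ψ)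
    (h2 : Kills Z (KC2.casimir (LB B) (LB_traceNondeg hf hBf) ω₀)) : Z ∈ LB B := by
  have hsk : ∀ u v, ω₀ (Z u) v = -ω₀ u (Z v) := by
    intro u v
    have h3 := (DR.kills_one2 ω₀ Z).1 (h1 _ (hpol (DR.one2 ω₀) fun v => DR.one2_apply ω₀ v)) u v
    linarith [h3]
  obtain ⟨Y, hY, hcom⟩ := KC2.mem_of_kills_casimir (LB B) (LB_traceNondeg hf hBf) ω₀
    (fun X hX Y hY => LB_bracket (b := b) hX hY) (fun u hu => om_nd hf hu)
    (fun u v => by rw [hsk]; exact neg_add_cancel _) h2
  have hskY : ∀ u v, ω₀ (Y u) v = -ω₀ u (Y v) := LB_skew hpol hY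
  have h3 : Z - Y ∈ LB B := by
    refine hZ0 _ (fun X hX => hcom X hX) (fun P' hP' => ?_) fun u v => ?_
    · have h4 : (DR.one2 (ω₀.comp P') : RF W 1) ∈ B 1 := by
        refine mem_B_of_kills hBN fun X hX => ?_
        refine (DR.kills_one2 _ _).2 fun u v => ?_
        have h5 := LB_skew hpol hX (P' u) v
        have h6 : P' (X u) = X (P' u) := congrArg (fun f : Module.End ℚ W => f u) (hP' X hX).symm
        rw [LinearMap.comp_apply, LinearMap.comp_apply, h6, h5]
        exact neg_add_cancel _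
      have h5 := (DR.kills_one2 (ω₀.comp P') Z).1 (h1 _ h4)
      have h6 := hP' Y hY
      have h7 : Z * P' = P' * Z := by
        refine LinearMap.ext fun u => ?_
        rw [← sub_eq_zero]
        refine om_nd hf fun v => ?_
        have h8 := h5 u v
        simp only [LinearMap.comp_apply] at h8
        have h9 := hsk (P' u) v
        rw [Module.End.mul_apply, Module.End.mul_apply, map_sub, LinearMap.sub_apply]
        linarith
      rw [sub_mul, mul_sub, h6, h7]
    · rw [LinearMap.sub_apply, LinearMap.sub_apply, map_sub, map_sub, LinearMap.sub_apply, hsk,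
        hskY]
      ring
  have h4 : Z = Y + (Z - Y) := by abel
  rw [h4]
  exact Submodule.add_mem _ hY h3

end

end Pool.Agent.H25.HG
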