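import Pool.Agent.H25.HG.A10

/-!
# The Casimir class
-/

set_option autoImplicit false
set_option linter.unusedSectionVars false
set_option linter.unusedDecidableInType false
set_option linter.unusedFintypeInType false

namespace Pool.Agent.H25.HG

open Matrix Finset Module Pool.Agent.H204R3.SP
  Pool.Agent.H204R3.GP Pool.Agent.W516 Pool.Agent.X259.T Pool.Agent.X259.U
open scoped ComplexOrder

noncomputable section

variable {V : Type} [AddCommGroup V] [Module ℚ V] {n : ℕ}
  {e : Basis (Fin n) ℚ V} {Q : V →ₗ[ℚ] V →ₗ[ℚ] ℚ} {ε : Module.End ℚ V}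
  {P P' : Matrix (Fin n) (Fin n) ℂ} {k : Fin n → ℤ} (hd : HD e Q ε P P' k)
  {ι : Type} [Fintype ι] [DecidableEq ι] {γ γ' : ι → V}
  (hγ : ∀ v : V, v = ∑ i, Q v (γ' i) • γ i)

lemma dbl_alt (x y : V × V) : dbl Q x y = -dbl Q y x := by
  rw [dbl_apply, dbl_apply]
  ring

lemma dbl_inj (s : Bool) (u v : V) : dbl Q (inj s u) (inj s v) = 0 := by
  rcases s with _ | _
  · rw [inj_false, inj_false, dbl_apply, map_zero, map_zero, sub_zero]
  · rw [inj_true, inj_true, dbl_apply, map_zero, LinearMap.zero_apply, LinearMap.zero_apply,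
      sub_zero]

include hd hγ in
/-- The elements of the Lie algebra are diagonal. -/
lemma LB_diag {X : Module.End ℚ (V × V)} (hX : X ∈ LB (Lift (Ann e (wt P P' k)))) (s : Bool)
    (u : V) : ∃ u', X (inj s u) = inj s u' := by
  have h1 : ∀ w, X (p1 w) = p1 (X w) := fun w =>
    congrArg (fun f : Module.End ℚ (V × V) => f w) (p1_incomm hd hγ X hX)
  rcases s with _ | _
  · refine ⟨(X (u, 0)).1, ?_⟩
    have h2 := h1 (u, 0)
    rw [inj_false, inj_false]
    exact h2
  · refine ⟨(X (0, u)).2, ?_⟩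
    have h2 := h1 (0, u)
    have h3 : (p1 : Module.End ℚ (V × V)) (0, u) = 0 := rfl
    rw [h3, map_zero] at h2
    have h4 : (X (0, u)).1 = 0 := congrArg Prod.fst h2.symm
    rw [inj_true, inj_true]
    exact Prod.ext h4 rfl

/-- The pattern of the Casimir class. -/
def t0 : Fin 2 × Fin 2 → Bool := fun p => decide (p.2 = 1)

/-- The Casimir form on `V × V`. -/
def casW (hnt : KC2.TraceNondeg (LB (Lift (Ann e (wt P P' k))))) [FiniteDimensional ℚ V]
    (Q : V →ₗ[ℚ] V →ₗ[ℚ] ℚ) : RF (V × V) 2 :=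
  KC2.casimir (LB (Lift (Ann e (wt P P' k)))) hnt (dbl Q)

variable [FiniteDimensional ℚ V]

include hd hγ in
/-- The components of the Casimir form. -/
theorem cas_lift (hnt : KC2.TraceNondeg (LB (Lift (Ann e (wt P P' k)))))
    {C : ∀ m : ℕ, Submodule ℚ (RF V m)}
    (hperm : ∀ (m : ℕ) (σ : Equiv.Perm (Fin m × Fin 2)), ∀ ψ ∈ C m, ψ.domDomCongr σ ∈ C m)
    (hc : cpt (casW hnt Q) t0 ∈ C 2) : casW hnt Q ∈ Lift C 2 := by
  have hcl := lift_closed (ann_closed' hd hγ)
  have hskew : ∀ X ∈ LB (Lift (Ann e (wt P P' k))), ∀ x y, dbl Q (X x) y = dbl Q (X y) x := by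
    intro X hX x y
    rw [LB_skew hcl.pol hX, dbl_alt x, neg_neg]
  set EE := KC2.EE (LB (Lift (Ann e (wt P P' k)))) hnt (dbl Q) with hEE
  have hmem : ∀ x y, EE x y ∈ LB (Lift (Ann e (wt P P' k))) := fun x y => KC2.EE_mem ..
  have hsymm : ∀ x y, EE x y = EE y x := by
    intro x y
    refine KC2.ext_trace _ hnt (hmem x y) (hmem y x) fun X hX => ?_
    rw [hEE, KC2.EE_trace _ _ _ _ _ hX, KC2.EE_trace _ _ _ _ _ hX, hskew X hX]
  have hzero : ∀ s u v, EE (inj s u) (inj s v) = 0 := by
    intro s u v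
    refine KC2.ext_trace _ hnt (hmem _ _) (Submodule.zero_mem _) fun X hX => ?_
    obtain ⟨u', hu'⟩ := LB_diag hd hγ hX s u
    rw [hEE, KC2.EE_trace _ _ _ _ _ hX, hu', dbl_inj, zero_mul, map_zero]
  have hF : ∀ w : Fin 2 × Fin 2 → V × V, casW hnt Q w =
      dbl Q (EE (w (0, 0)) (w (0, 1)) (w (1, 0))) (w (1, 1)) := fun w =>
    KC2.casimir_apply _ hnt (dbl Q) w
  intro t
  have h0 : ∀ v : Fin 2 × Fin 2 → V, cpt (casW hnt Q) t v =
      dbl Q (EE (inj (t (0, 0)) (v (0, 0))) (inj (t (0, 1)) (v (0, 1)))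
        (inj (t (1, 0)) (v (1, 0)))) (inj (t (1, 1)) (v (1, 1))) := fun v => by
    rw [cpt_apply, hF]
  have h0' : ∀ v : Fin 2 × Fin 2 → V, cpt (casW hnt Q) t0 v =
      dbl Q (EE (inj false (v (0, 0))) (inj true (v (0, 1)))
        (inj false (v (1, 0)))) (inj true (v (1, 1))) := fun v => by
    rw [cpt_apply, hF]
    rfl
  by_cases h1 : t (0, 0) = t (0, 1)
  · have h2 : cpt (casW hnt Q) t = 0 := by
      refine MultilinearMap.ext fun v => ?_
      rw [h0, h1, hzero]
      simp
    rw [h2]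
    exact Submodule.zero_mem _
  by_cases h2 : t (1, 0) = t (1, 1)
  · have h3 : cpt (casW hnt Q) t = 0 := by
      refine MultilinearMap.ext fun v => ?_
      obtain ⟨u', hu'⟩ := LB_diag hd hγ (hmem (inj (t (0, 0)) (v (0, 0)))
        (inj (t (0, 1)) (v (0, 1)))) (t (1, 0)) (v (1, 0))
      rw [h0, hu', h2, dbl_inj]
      rfl
    rw [h3]
    exact Submodule.zero_mem _
  let σ : Equiv.Perm (Fin 2 × Fin 2) :=
    (if t (0, 0) = true then Equiv.swap (0, 0) (0, 1) else 1) *
      (if t (1, 0) = true then Equiv.swap (1, 0) (1, 1) else 1)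
  have h3 : cpt (casW hnt Q) t = (cpt (casW hnt Q) t0).domDomCongr σ := by
    refine MultilinearMap.ext fun v => ?_
    rw [h0, MultilinearMap.domDomCongr_apply, h0']
    rcases h4 : t (0, 0) with _ | _ <;> rcases h5 : t (1, 0) with _ | _
    · have h6 : t (0, 1) = true := by
        rw [h4] at h1
        simpa using Ne.symm h1
      have h7 : t (1, 1) = true := by
        rw [h5] at h2
        simpa using Ne.symm h2
      have hσ : σ = 1 := by simp [σ, h4, h5]
      rw [h6, h7, hσ]
      rfl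
    · have h6 : t (0, 1) = true := by
        rw [h4] at h1
        simpa using Ne.symm h1
      have h7 : t (1, 1) = false := by
        rw [h5] at h2
        simpa using Ne.symm h2
      have hσ : σ = Equiv.swap (1, 0) (1, 1) := by simp [σ, h4, h5]
      rw [h6, h7, hσ, hskew _ (hmem _ _)]
      rfl
    · have h6 : t (0, 1) = false := by
        rw [h4] at h1
        simpa using Ne.symm h1
      have h7 : t (1, 1) = true := by
        rw [h5] at h2
        simpa using Ne.symm h2
      have hσ : σ = Equiv.swap (0, 0) (0, 1) := by simp [σ, h4, h5]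
      rw [h6, h7, hσ, hsymm]
      rfl
    · have h6 : t (0, 1) = false := by
        rw [h4] at h1
        simpa using Ne.symm h1
      have h7 : t (1, 1) = false := by
        rw [h5] at h2
        simpa using Ne.symm h2
      have hσ : σ = Equiv.swap (0, 0) (0, 1) * Equiv.swap (1, 0) (1, 1) := by simp [σ, h4, h5]
      rw [h6, h7, hσ, hsymm, hskew _ (hmem _ _)]
      rfl
  rw [h3]
  exact hperm _ _ _ hc

end

end Pool.Agent.H25.HG
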