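import Pool.Agent.H25.HG.A11

/-!
# The dimension of the real span of the group
-/

set_option autoImplicit false
set_option linter.unusedSectionVars false
set_option linter.unusedDecidableInType false
set_option linter.unusedFintypeInType false

namespace Pool.Agent.H25.HG

open Matrix Finset Module Pool.Agent.H204R3.SP
  Pool.Agent.H204R3.GP Pool.Agent.W516 Pool.Agent.X259.T Pool.Agent.X259.U
open scoped ComplexOrder

noncomputable section

section real

variable {R : Type} [Fintype R] [DecidableEq R]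

/-- The real span of a group of matrices. -/
def RS (G : Subgroup (Matrix.unitaryGroup R ℂ)) : Submodule ℝ (Matrix R R ℂ) :=
  Submodule.span ℝ {M | ∃ g ∈ G, M = ((g : Matrix.unitaryGroup R ℂ) : Matrix R R ℂ)}

lemma RS_mem {G : Subgroup (Matrix.unitaryGroup R ℂ)} {g : Matrix.unitaryGroup R ℂ} (hg : g ∈ G) :
    (g : Matrix R R ℂ) ∈ RS G := Submodule.subset_span ⟨g, hg, rfl⟩

lemma RS_star {G : Subgroup (Matrix.unitaryGroup R ℂ)} {M : Matrix R R ℂ} (hM : M ∈ RS G) :
    Mᴴ ∈ RS G := by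
  induction hM using Submodule.span_induction with
  | mem M h =>
    obtain ⟨g, hg, rfl⟩ := h
    exact RS_mem (G.inv_mem hg)
  | zero => rw [Matrix.conjTranspose_zero]; exact Submodule.zero_mem _
  | add a c _ _ ha hc => rw [Matrix.conjTranspose_add]; exact Submodule.add_mem _ ha hc
  | smul c a _ ha =>
    rw [Matrix.conjTranspose_smul]
    exact Submodule.smul_mem _ _ ha

lemma RS_trace {G : Subgroup (Matrix.unitaryGroup R ℂ)}
    (htr : ∀ g ∈ G, ((g : Matrix R R ℂ).trace).im = 0) {M N : Matrix R R ℂ} (hM : M ∈ RS G)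
    (hN : N ∈ RS G) : ((M * N).trace).im = 0 := by
  induction hM using Submodule.span_induction with
  | mem M h =>
    obtain ⟨g, hg, rfl⟩ := h
    induction hN using Submodule.span_induction with
    | mem N h =>
      obtain ⟨h, hh, rfl⟩ := h
      exact htr (g * h) (G.mul_mem hg hh)
    | zero => rw [mul_zero, Matrix.trace_zero]; rfl
    | add a c _ _ ha hc => rw [mul_add, Matrix.trace_add, Complex.add_im, ha, hc, add_zero]
    | smul c a _ ha =>
      rw [Matrix.mul_smul, Matrix.trace_smul, Complex.real_smul, Complex.im_ofReal_mul, ha,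
        mul_zero]
  | zero => rw [zero_mul, Matrix.trace_zero]; rfl
  | add a c _ _ ha hc => rw [add_mul, Matrix.trace_add, Complex.add_im, ha, hc, add_zero]
  | smul c a _ ha =>
    rw [Matrix.smul_mul, Matrix.trace_smul, Complex.real_smul, Complex.im_ofReal_mul, ha,
      mul_zero]

/-- Two elements of the real span with a complex relation vanish. -/
lemma RS_zero {G : Subgroup (Matrix.unitaryGroup R ℂ)}
    (htr : ∀ g ∈ G, ((g : Matrix R R ℂ).trace).im = 0) {x y : Matrix R R ℂ} (hx : x ∈ RS G)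
    (hy : y ∈ RS G) (h : x + Complex.I • y = 0) : x = 0 ∧ y = 0 := by
  have h1 : x * xᴴ + Complex.I • (y * xᴴ) = 0 := by
    rw [← Matrix.smul_mul, ← add_mul, h, zero_mul]
  have h2 := congrArg (fun M => (M.trace).re) h1
  simp only [Matrix.trace_add, Matrix.trace_smul, Complex.add_re, smul_eq_mul, Complex.mul_re,
    Complex.I_re, Complex.I_im, zero_mul, one_mul, zero_sub, Matrix.trace_zero,
    Complex.zero_re] at h2
  rw [RS_trace htr hy (RS_star hx), neg_zero, add_zero] at h2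
  have h3 : (x * xᴴ).trace = 0 := Complex.ext h2 (RS_trace htr hx (RS_star hx))
  have h4 : x = 0 := Matrix.trace_mul_conjTranspose_self_eq_zero_iff.1 h3
  refine ⟨h4, ?_⟩
  rw [h4, zero_add] at h
  exact (smul_eq_zero.1 h).resolve_left Complex.I_ne_zero

/-- The real dimension of the real span is at most the complex dimension of a complex space which
contains the group. -/
theorem RS_finrank {G : Subgroup (Matrix.unitaryGroup R ℂ)}
    (htr : ∀ g ∈ G, ((g : Matrix R R ℂ).trace).im = 0) (L : Submodule ℂ (Matrix R R ℂ))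
    (hL : ∀ g ∈ G, (g : Matrix R R ℂ) ∈ L) : finrank ℝ (RS G) ≤ finrank ℂ L := by
  let v := Module.finBasis ℝ (RS G)
  have hsm : ∀ (r : ℝ) (M : Matrix R R ℂ), r • M = (r : ℂ) • M := by
    intro r M
    ext i j
    rw [Matrix.smul_apply, Matrix.smul_apply, Complex.real_smul, smul_eq_mul]
  have hin : ∀ M ∈ RS G, M ∈ L := by
    intro M hM
    induction hM using Submodule.span_induction with
    | mem M h =>
      obtain ⟨g, hg, rfl⟩ := h
      exact hL g hg
    | zero => exact Submodule.zero_mem _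
    | add a c _ _ ha hc => exact Submodule.add_mem _ ha hc
    | smul c a _ ha =>
      rw [hsm]
      exact Submodule.smul_mem _ _ ha
  let u : Fin (finrank ℝ (RS G)) → L := fun i => ⟨(v i : Matrix R R ℂ), hin _ (v i).2⟩
  have hli : LinearIndependent ℂ u := by
    rw [Fintype.linearIndependent_iff]
    intro c hc
    have h1 : ∑ i, c i • (v i : Matrix R R ℂ) = 0 := by
      have h2 := congrArg (fun x : L => (x : Matrix R R ℂ)) hc
      simp only [Submodule.coe_sum, Submodule.coe_smul] at h2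
      exact h2
    set x : RS G := ∑ i, (c i).re • v i with hx
    set y : RS G := ∑ i, (c i).im • v i with hy
    have h2 : (x : Matrix R R ℂ) + Complex.I • (y : Matrix R R ℂ) = 0 := by
      rw [← h1, hx, hy]
      simp only [Submodule.coe_sum, Submodule.coe_smul]
      rw [Finset.smul_sum, ← Finset.sum_add_distrib]
      refine Finset.sum_congr rfl fun i _ => ?_
      rw [hsm, hsm, smul_smul, ← add_smul]
      congr 1
      rw [mul_comm]
      exact Complex.re_add_im (c i)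
    obtain ⟨h3, h4⟩ := RS_zero htr x.2 y.2 h2
    have h5 : x = 0 := Subtype.ext h3
    have h6 : y = 0 := Subtype.ext h4
    have h7 := Fintype.linearIndependent_iff.1 v.linearIndependent _ h5
    have h8 := Fintype.linearIndependent_iff.1 v.linearIndependent _ h6
    intro i
    exact Complex.ext (h7 i) (h8 i)
  have h1 := hli.fintype_card_le_finrank
  rwa [Fintype.card_fin] at h1

end real

section frame

variable {V : Type} [AddCommGroup V] [Module ℚ V] {n : ℕ}
  {e : Basis (Fin n) ℚ V} {Q : V →ₗ[ℚ] V →ₗ[ℚ] ℚ}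
  {T : Type} [AddCommGroup T] [Module ℂ T] {Q' : Type} [DecidableEq Q']
  {per : V × V →+ T} {b' : Basis (Fin n ⊕ Fin n) ℝ T} {cls : Fin n ⊕ Fin n → Q'}
  {inv : Fin n ⊕ Fin n → Fin n ⊕ Fin n} {jj : Fin n ⊕ Fin n → ℂ}
  {S S' : Matrix (Fin n ⊕ Fin n) (Fin n ⊕ Fin n) ℂ}
  (hf : Frame per (dbl Q) (e2 e) b' cls inv jj S S')
  {ι : Type} [Fintype ι] [DecidableEq ι] {γ γ' : ι → V}
  {C : ∀ m : ℕ, Submodule ℚ (RF V m)}

include hf in
/-- The elements of the group commute with the endomorphisms whose form is in the family. -/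
lemma comm_of_form (hCf : Fam cls inv jj (Fm S (e2 e) (Lift C))) (Y : Module.End ℚ (V × V))
    (hY : DR.one2 ((dbl Q).comp Y) ∈ Lift C 1)
    {g : Matrix.unitaryGroup (Fin n ⊕ Fin n) ℂ} (hg : g ∈ stabG (tens (Fm S (e2 e) (Lift C)))) :
    (S' * (g : Matrix (Fin n ⊕ Fin n) (Fin n ⊕ Fin n) ℂ) * S) * mW (e2 e) Y =
      mW (e2 e) Y * (S' * (g : Matrix (Fin n ⊕ Fin n) (Fin n ⊕ Fin n) ℂ) * S) := by
  set gm : Matrix (Fin n ⊕ Fin n) (Fin n ⊕ Fin n) ℂ := (g : Matrix (Fin n ⊕ Fin n) (Fin n ⊕ Fin n) ℂ)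
    with hgm
  have h1 := form_of_mem (stab_le hCf hg)
  let e₁ : Fin 1 × Fin 2 ≃ Fin 2 := Equiv.uniqueProd (Fin 2) (Fin 1)
  have h2 := gen_mem (S := S) (b := e2 e) e₁ hY
  have h3 : ri e₁ (kr (Fin 1 × Fin 2) S *ᵥ gt (e2 e) (DR.one2 ((dbl Q).comp Y))) =
      mt (S * (mW (e2 e) Y * Om (e2 e) (dbl Q)) * Sᵀ) := by
    rw [← kr_ri]
    have h4 : ri e₁ (gt (e2 e) (DR.one2 ((dbl Q).comp Y))) =
        fun J => (mW (e2 e) Y * Om (e2 e) (dbl Q)) (J 0) (J 1) := by
      funext J
      change gt (e2 e) _ _ = _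
      rw [gt, DR.one2_apply, mW_Om]
      rfl
    rw [h4]
    funext I
    rw [kr_two]
    rfl
  rw [h3] at h2
  have h4 := hg ⟨2, _⟩ h2
  change kr (Fin 2) gm *ᵥ mt (S * (mW (e2 e) Y * Om (e2 e) (dbl Q)) * Sᵀ) =
    mt (S * (mW (e2 e) Y * Om (e2 e) (dbl Q)) * Sᵀ) at h4
  have h5 : gm * (S * (mW (e2 e) Y * Om (e2 e) (dbl Q)) * Sᵀ) * gmᵀ =
      S * (mW (e2 e) Y * Om (e2 e) (dbl Q)) * Sᵀ := by
    ext i j
    have h6 := congrFun h4 ![i, j]
    have h7 := kr_two gm (S * (mW (e2 e) Y * Om (e2 e) (dbl Q)) * Sᵀ) ![i, j]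
    have h8 : (kr (Fin 2) gm *ᵥ fun J : Fin 2 → Fin n ⊕ Fin n =>
        (S * (mW (e2 e) Y * Om (e2 e) (dbl Q)) * Sᵀ) (J 0) (J 1)) ![i, j] =
        mt (S * (mW (e2 e) Y * Om (e2 e) (dbl Q)) * Sᵀ) ![i, j] := h6
    rw [h8] at h7
    exact h7.symm
  have h6 : S * (mW (e2 e) Y * Om (e2 e) (dbl Q)) * Sᵀ = (S * mW (e2 e) Y * S') * Jm inv jj := by
    rw [← hf.form]
    calc S * (mW (e2 e) Y * Om (e2 e) (dbl Q)) * Sᵀ =
        S * mW (e2 e) Y * 1 * Om (e2 e) (dbl Q) * Sᵀ := by simp only [mul_assoc, mul_one]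
      _ = S * mW (e2 e) Y * (S' * S) * Om (e2 e) (dbl Q) * Sᵀ := by rw [hf.one']
      _ = _ := by simp only [mul_assoc]
  rw [h6] at h5
  have hgg : gmᴴ * gm = 1 := Matrix.mem_unitaryGroup_iff'.1 g.2
  have hgg' : gm * gmᴴ = 1 := Matrix.mem_unitaryGroup_iff.1 g.2
  -- `Jm gᵀ = g⁻¹ Jm`
  have h7 : Jm inv jj * gmᵀ = gmᴴ * Jm inv jj := by
    calc Jm inv jj * gmᵀ = (gmᴴ * gm) * (Jm inv jj * gmᵀ) := by rw [hgg, one_mul]
      _ = gmᴴ * (gm * Jm inv jj * gmᵀ) := by simp only [mul_assoc]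
      _ = _ := by rw [h1]
  have h8 : gm * (S * mW (e2 e) Y * S') * gmᴴ = S * mW (e2 e) Y * S' := by
    have h9 : gm * (S * mW (e2 e) Y * S') * gmᴴ * Jm inv jj =
        (S * mW (e2 e) Y * S') * Jm inv jj := by
      rw [← h5]
      calc gm * (S * mW (e2 e) Y * S') * gmᴴ * Jm inv jj =
          gm * (S * mW (e2 e) Y * S') * (gmᴴ * Jm inv jj) := by simp only [mul_assoc]
        _ = gm * (S * mW (e2 e) Y * S') * (Jm inv jj * gmᵀ) := by rw [h7]
        _ = gm * (S * mW (e2 e) Y * S' * Jm inv jj) * gmᵀ := by simp only [mul_assoc]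
    have h10 := congrArg (fun M => M * -Jm inv jj) h9
    simp only [mul_neg, neg_inj] at h10
    rw [mul_assoc _ (Jm inv jj), mul_assoc _ (Jm inv jj), Jm_sq hf.bas, mul_neg_one, mul_neg_one,
      neg_inj] at h10
    exact h10
  have h9 : gm * (S * mW (e2 e) Y * S') = (S * mW (e2 e) Y * S') * gm := by
    calc gm * (S * mW (e2 e) Y * S') = gm * (S * mW (e2 e) Y * S') * (gmᴴ * gm) := by
          rw [hgg, mul_one]
      _ = (gm * (S * mW (e2 e) Y * S') * gmᴴ) * gm := by simp only [mul_assoc]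
      _ = _ := by rw [h8]
  calc (S' * gm * S) * mW (e2 e) Y = S' * (gm * (S * mW (e2 e) Y * 1)) := by
        simp only [mul_assoc, mul_one]
    _ = S' * (gm * (S * mW (e2 e) Y * (S' * S))) := by rw [hf.one']
    _ = S' * (gm * (S * mW (e2 e) Y * S')) * S := by simp only [mul_assoc]
    _ = S' * ((S * mW (e2 e) Y * S') * gm) * S := by rw [h9]
    _ = (S' * S) * mW (e2 e) Y * (S' * gm * S) := by simp only [mul_assoc]
    _ = _ := by rw [hf.one', one_mul]

end frame

end

end Pool.Agent.H25.HG
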