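import Pool.Agent.H25.HG.A12

/-!
# The dimension of the span of the group
-/

set_option autoImplicit false
set_option linter.unusedSectionVars false
set_option linter.unusedDecidableInType false
set_option linter.unusedFintypeInType false

namespace Pool.Agent.H25.HG

open Matrix Finset Module Pool.Agent.H204R3.SP
  Pool.Agent.H204R3.GP Pool.Agent.W516 Pool.Agent.X259.T Pool.Agent.X259.U
open scoped ComplexOrder

noncomputable section

variable {V : Type} [AddCommGroup V] [Module ℚ V] {n : ℕ}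
  {e : Basis (Fin n) ℚ V} {Q : V →ₗ[ℚ] V →ₗ[ℚ] ℚ}
  {ι : Type} [Fintype ι] [DecidableEq ι] {γ γ' : ι → V}
  {C : ∀ m : ℕ, Submodule ℚ (RF V m)}

lemma form_p1 (hC : Closed Q γ γ' C) :
    DR.one2 ((dbl Q).comp (p1 : Module.End ℚ (V × V))) ∈ Lift C 1 := by
  refine one2_lift fun s t => ?_
  have hQ : DR.one2 Q ∈ C 1 := hC.pol _ fun v => DR.one2_apply Q v
  rcases s with _ | _ <;> rcases t with _ | _
  · have h1 : (((dbl Q).comp p1).comp (inj false)).compl₂ (inj false) = 0 := by
      ext u v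
      change Q u 0 - Q v 0 = 0
      rw [map_zero, map_zero, sub_zero]
    rw [h1]
    exact one2_zero
  · have h1 : (((dbl Q).comp p1).comp (inj false)).compl₂ (inj true) = Q := by
      ext u v
      change Q u v - Q 0 0 = Q u v
      rw [map_zero, sub_zero]
    rw [h1]
    exact hQ
  · have h1 : (((dbl Q).comp p1).comp (inj true)).compl₂ (inj false) = 0 := by
      ext u v
      change Q 0 0 - Q v 0 = 0
      rw [map_zero, map_zero, sub_zero]
    rw [h1]
    exact one2_zero
  · have h1 : (((dbl Q).comp p1).comp (inj true)).compl₂ (inj true) = 0 := by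
      ext u v
      change Q 0 v - Q 0 0 = 0
      rw [map_zero, map_zero, LinearMap.zero_apply, sub_zero]
    rw [h1]
    exact one2_zero

lemma form_sw (hC : Closed Q γ γ' C) :
    DR.one2 ((dbl Q).comp (sw : Module.End ℚ (V × V))) ∈ Lift C 1 := by
  refine one2_lift fun s t => ?_
  have hQ : DR.one2 Q ∈ C 1 := hC.pol _ fun v => DR.one2_apply Q v
  rcases s with _ | _ <;> rcases t with _ | _
  · have h1 : (((dbl Q).comp sw).comp (inj false)).compl₂ (inj false) = -Q.flip := by
      ext u v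
      change Q 0 0 - Q v u = -Q v u
      rw [map_zero, zero_sub]
    rw [h1]
    exact one2_neg_mem (one2_flip_mem hC hQ)
  · have h1 : (((dbl Q).comp sw).comp (inj false)).compl₂ (inj true) = 0 := by
      ext u v
      change Q 0 v - Q 0 u = 0
      rw [map_zero, LinearMap.zero_apply, LinearMap.zero_apply, sub_zero]
    rw [h1]
    exact one2_zero
  · have h1 : (((dbl Q).comp sw).comp (inj true)).compl₂ (inj false) = 0 := by
      ext u v
      change Q u 0 - Q v 0 = 0
      rw [map_zero, map_zero, sub_zero]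
    rw [h1]
    exact one2_zero
  · have h1 : (((dbl Q).comp sw).comp (inj true)).compl₂ (inj true) = Q := by
      ext u v
      change Q u v - Q 0 0 = Q u v
      rw [map_zero, sub_zero]
    rw [h1]
    exact hQ

/-- The linear map `X ↦ S (X ⊕ X) S'`. -/
def bdm (S S' : Matrix (Fin n ⊕ Fin n) (Fin n ⊕ Fin n) ℂ) :
    Matrix (Fin n) (Fin n) ℂ →ₗ[ℂ] Matrix (Fin n ⊕ Fin n) (Fin n ⊕ Fin n) ℂ where
  toFun X := S * bd X * S'
  map_add' X Y := by
    have h1 : bd (X + Y) = bd X + bd Y := by
      rw [Matrix.fromBlocks_add]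
      simp
    rw [h1, mul_add, add_mul]
  map_smul' c X := by
    have h1 : bd (c • X) = c • bd X := by
      rw [Matrix.fromBlocks_smul]
      simp
    rw [h1, Matrix.mul_smul, Matrix.smul_mul, RingHom.id_apply]

lemma mW_p1_inl (a : Fin n) (j : Fin n ⊕ Fin n) :
    mW (e2 e) (p1 : Module.End ℚ (V × V)) (Sum.inl a) j = if j = Sum.inl a then 1 else 0 := by
  have h1 : (p1 : Module.End ℚ (V × V)) (e2 e (Sum.inl a)) = e2 e (Sum.inl a) := by
    rw [e2_inl]
    rfl
  rw [mW, h1, Basis.repr_self, Finsupp.single_apply]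
  by_cases h : Sum.inl a = j
  · rw [if_pos h, if_pos h.symm, Rat.cast_one]
  · rw [if_neg h, if_neg (Ne.symm h), Rat.cast_zero]

lemma mW_p1_inr (a : Fin n) (j : Fin n ⊕ Fin n) :
    mW (e2 e) (p1 : Module.End ℚ (V × V)) (Sum.inr a) j = 0 := by
  have h1 : (p1 : Module.End ℚ (V × V)) (e2 e (Sum.inr a)) = 0 := by
    rw [e2_inr]
    rfl
  rw [mW, h1, map_zero, Finsupp.zero_apply, Rat.cast_zero]

lemma mW_sw (i j : Fin n ⊕ Fin n) :
    mW (e2 e) (sw : Module.End ℚ (V × V)) i j = if j = Sum.swap i then 1 else 0 := by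
  have h1 : (sw : Module.End ℚ (V × V)) (e2 e i) = e2 e (Sum.swap i) := by
    rcases i with a | a
    · rw [Sum.swap_inl, e2_inl, e2_inr]
      rfl
    · rw [Sum.swap_inr, e2_inl, e2_inr]
      rfl
  rw [mW, h1, Basis.repr_self, Finsupp.single_apply]
  by_cases h : Sum.swap i = j
  · rw [if_pos h, if_pos h.symm, Rat.cast_one]
  · rw [if_neg h, if_neg (Ne.symm h), Rat.cast_zero]

/-- A matrix which commutes with the projection and the swap. -/
lemma eq_bd {N : Matrix (Fin n ⊕ Fin n) (Fin n ⊕ Fin n) ℂ}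
    (h1 : N * mW (e2 e) (p1 : Module.End ℚ (V × V)) = mW (e2 e) p1 * N)
    (h2 : N * mW (e2 e) (sw : Module.End ℚ (V × V)) = mW (e2 e) sw * N) :
    N = bd N.toBlocks₁₁ := by
  have hp1 : mW (e2 e) (p1 : Module.End ℚ (V × V)) =
      Matrix.diagonal (Sum.elim (fun _ => 1) (fun _ => 0)) := by
    ext i j
    rcases i with a | a
    · rw [mW_p1_inl]
      by_cases h : j = Sum.inl a
      · rw [if_pos h, h, Matrix.diagonal_apply_eq]
        rfl
      · rw [if_neg h, Matrix.diagonal_apply_ne _ (Ne.symm h)]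
    · rw [mW_p1_inr]
      by_cases h : j = Sum.inr a
      · rw [h, Matrix.diagonal_apply_eq]
        rfl
      · rw [Matrix.diagonal_apply_ne _ (Ne.symm h)]
  have h12 : ∀ a b, N (Sum.inl a) (Sum.inr b) = 0 := by
    intro a b
    have h3 := congrFun (congrFun h1 (Sum.inl a)) (Sum.inr b)
    rw [hp1, Matrix.mul_diagonal, Matrix.diagonal_mul] at h3
    simpa using h3.symm
  have h21 : ∀ a b, N (Sum.inr a) (Sum.inl b) = 0 := by
    intro a b
    have h3 := congrFun (congrFun h1 (Sum.inr a)) (Sum.inl b)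
    rw [hp1, Matrix.mul_diagonal, Matrix.diagonal_mul] at h3
    simpa using h3
  have h22 : ∀ a b, N (Sum.inr a) (Sum.inr b) = N (Sum.inl a) (Sum.inl b) := by
    intro a b
    have h3 := congrFun (congrFun h2 (Sum.inl a)) (Sum.inr b)
    rw [Matrix.mul_apply, Matrix.mul_apply, Finset.sum_eq_single (Sum.inl b),
      Finset.sum_eq_single (Sum.inr a)] at h3
    · rw [mW_sw, mW_sw, Sum.swap_inl, Sum.swap_inl, if_pos rfl, if_pos rfl, mul_one,
        one_mul] at h3
      exact h3.symm
    · intro c _ hc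
      rw [mW_sw, Sum.swap_inl, if_neg hc, zero_mul]
    · intro h
      exact absurd (Finset.mem_univ _) h
    · intro c _ hc
      rw [mW_sw, if_neg, mul_zero]
      intro h
      apply hc
      rcases c with c | c
      · rw [Sum.swap_inl] at h
        rw [Sum.inr.inj h]
      · rw [Sum.swap_inr] at h
        exact absurd h (by simp)
    · intro h
      exact absurd (Finset.mem_univ _) h
  ext i j
  rcases i with a | a <;> rcases j with b | b
  · rfl
  · exact h12 a b
  · exact h21 a b
  · exact h22 a b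

section frame

variable {T : Type} [AddCommGroup T] [Module ℂ T] {Q' : Type} [DecidableEq Q']
  {per : V × V →+ T} {b' : Basis (Fin n ⊕ Fin n) ℝ T} {cls : Fin n ⊕ Fin n → Q'}
  {inv : Fin n ⊕ Fin n → Fin n ⊕ Fin n} {jj : Fin n ⊕ Fin n → ℂ}
  {S S' : Matrix (Fin n ⊕ Fin n) (Fin n ⊕ Fin n) ℂ}
  (hf : Frame per (dbl Q) (e2 e) b' cls inv jj S S')

include hf in
/-- The dimension of the real span of the group. -/
theorem finrank_RS (hC : Closed Q γ γ' C) (hCf : Fam cls inv jj (Fm S (e2 e) (Lift C))) :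
    finrank ℝ (RS (stabG (tens (Fm S (e2 e) (Lift C))))) ≤ n ^ 2 := by
  refine (RS_finrank (fun g hg => ?_) (LinearMap.range (bdm S S')) fun g hg => ?_).trans ?_
  · rw [← trace_real hf.bas (stab_le hCf hg)]
    exact Complex.ofReal_im _
  · have h1 := comm_of_form hf hCf _ (form_p1 hC) hg
    have h2 := comm_of_form hf hCf _ (form_sw hC) hg
    refine ⟨(S' * (g : Matrix (Fin n ⊕ Fin n) (Fin n ⊕ Fin n) ℂ) * S).toBlocks₁₁, ?_⟩
    change S * bd _ * S' = _
    rw [← eq_bd h1 h2]
    calc S * (S' * (g : Matrix (Fin n ⊕ Fin n) (Fin n ⊕ Fin n) ℂ) * S) * S' =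
        (S * S') * (g : Matrix (Fin n ⊕ Fin n) (Fin n ⊕ Fin n) ℂ) * (S * S') := by
          simp only [mul_assoc]
      _ = _ := by rw [hf.one, one_mul, mul_one]
  · refine (LinearMap.finrank_range_le (bdm S S')).trans ?_
    rw [Module.finrank_matrix]
    simp [sq]

end frame

end

end Pool.Agent.H25.HG
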