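import Pool.Agent.H25.HG.A13

/-!
# The index, in coordinates
-/

set_option autoImplicit false
set_option linter.unusedSectionVars false
set_option linter.unusedDecidableInType false
set_option linter.unusedFintypeInType false

namespace Pool.Agent.H25.HG

open Matrix Finset Module MeasureTheory Filter Topology Pool.Agent.H204R3.SP
  Pool.Agent.H204R3.GP Pool.Agent.W516 Pool.Agent.X259.T Pool.Agent.X259.U
open scoped ComplexOrder

noncomputable section

section frame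

variable {V : Type} [AddCommGroup V] [Module ℚ V] [FiniteDimensional ℚ V] {n : ℕ}
  {e : Basis (Fin n) ℚ V} {Q : V →ₗ[ℚ] V →ₗ[ℚ] ℚ}
  {ι : Type} [Fintype ι] [DecidableEq ι] {γ γ' : ι → V}
  {A C : ∀ m : ℕ, Submodule ℚ (RF V m)}
  {T : Type} [AddCommGroup T] [Module ℂ T] {Q' : Type} [DecidableEq Q']
  {per : V × V →+ T} {b' : Basis (Fin n ⊕ Fin n) ℝ T} {cls : Fin n ⊕ Fin n → Q'}
  {inv : Fin n ⊕ Fin n → Fin n ⊕ Fin n} {jj : Fin n ⊕ Fin n → ℂ}
  {S S' : Matrix (Fin n ⊕ Fin n) (Fin n ⊕ Fin n) ℂ}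
  (hf : Frame per (dbl Q) (e2 e) b' cls inv jj S S')

lemma Fm_le (hCA : ∀ m, C m ≤ A m) (κ : Type) :
    Fm S (e2 e) (Lift C) κ ≤ Fm S (e2 e) (Lift A) κ := by
  refine Submodule.span_mono ?_
  rintro F ⟨m, e, ψ, hψ, rfl⟩
  exact ⟨m, e, ψ, fun t => hCA m (hψ t), rfl⟩

lemma dim_eq (h1 : S' * S = 1)
    (hperm : ∀ (m : ℕ) (σ : Equiv.Perm (Fin m × Fin 2)), ∀ ψ ∈ Lift C m,
      ψ.domDomCongr σ ∈ Lift C m) (m : ℕ) :
    (finrank ℂ (Fm S (e2 e) (Lift C) (Fin (2 * m))) : ℝ) = 4 ^ m * finrank ℚ (C m) := by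
  rw [finrank_Fm h1 (e2 e) hperm (eqv m), finrank_lift]
  push_cast
  rw [mul_comm m 2, pow_mul]
  norm_num

include hf in
/-- The limit of the proportion, with the frame. -/
lemma tendsto_frame (hn : 1 ≤ n)
    (hAp : ∀ (m : ℕ) (σ : Equiv.Perm (Fin m × Fin 2)), ∀ ψ ∈ Lift A m,
      ψ.domDomCongr σ ∈ Lift A m)
    (hCp : ∀ (m : ℕ) (σ : Equiv.Perm (Fin m × Fin 2)), ∀ ψ ∈ Lift C m,
      ψ.domDomCongr σ ∈ Lift C m)
    (hAf : Fam cls inv jj (Fm S (e2 e) (Lift A)))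
    (hCf : Fam cls inv jj (Fm S (e2 e) (Lift C))) (hCA : ∀ m, C m ≤ A m) :
    Tendsto (fun m : ℕ => (finrank ℚ (C m) : ℝ) / finrank ℚ (A m)) atTop
      (𝓝 ((ind (Fm S (e2 e) (Lift A)) (Fm S (e2 e) (Lift C)) : ℕ) : ℝ)⁻¹) := by
  have hne : Nonempty (Fin n ⊕ Fin n) := ⟨Sum.inl ⟨0, by omega⟩⟩
  refine (ratio_tendsto' hf.bas hCf hAf (Fm_le hCA) (fun n hn F hF => odd_zero hn hF)).congr
    fun m => ?_
  rw [dim_eq hf.one' hCp, dim_eq hf.one' hAp, mul_div_mul_left]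
  positivity

include hf in
/-- If the index is one then the families are equal. -/
lemma of_ind_one
    (hCp : ∀ (m : ℕ) (σ : Equiv.Perm (Fin m × Fin 2)), ∀ ψ ∈ Lift C m,
      ψ.domDomCongr σ ∈ Lift C m)
    (hAf : Fam cls inv jj (Fm S (e2 e) (Lift A)))
    (hCf : Fam cls inv jj (Fm S (e2 e) (Lift C)))
    (h : ind (Fm S (e2 e) (Lift A)) (Fm S (e2 e) (Lift C)) = 1) (m : ℕ) : A m ≤ C m := by
  have h1 : stabG (tens (Fm S (e2 e) (Lift C))) ≤ stabG (tens (Fm S (e2 e) (Lift A))) :=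
    Subgroup.subgroupOf_eq_top.1 (Subgroup.index_eq_one.1 h)
  intro ψ hψ
  refine mem_of_lift (mem_of_Fm hf hCp ?_)
  refine tannaka hf.bas hCf _ fun g hg => ?_
  exact (mem_stab hAf).1 (h1 hg) (Fin m × Fin 2) _
    (gen_mem (S := S) (b := e2 e) (Equiv.refl (Fin m × Fin 2)) (lift_fst hψ))

include hf in
/-- The formula for the dimensions, with the frame. -/
lemma formula_frame {ι : Type} [Fintype ι] [DecidableEq ι] {γ γ' : ι → V}
    (hC : Closed Q γ γ' C) (hn : 1 ≤ n)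
    (hAp : ∀ (m : ℕ) (σ : Equiv.Perm (Fin m × Fin 2)), ∀ ψ ∈ Lift A m,
      ψ.domDomCongr σ ∈ Lift A m)
    (hAf : Fam cls inv jj (Fm S (e2 e) (Lift A)))
    (hCf : Fam cls inv jj (Fm S (e2 e) (Lift C))) (hCA : ∀ m, C m ≤ A m) {N : ℕ} (hN : 2 ≤ N)
    (hL : LieDetC (Fm S (e2 e) (Lift A)) (Fm S (e2 e) (Lift C)) N) {η : ℝ} (hη : 0 < η)
    (hη2 : η ^ 2 ≤ 2 * (1 - Real.cos (2 * Real.pi / N))) {M : ℕ} (hM : 1 + 2 / η ≤ M) :
    ind (Fm S (e2 e) (Lift A)) (Fm S (e2 e) (Lift C)) ≠ 0 ∧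
    ind (Fm S (e2 e) (Lift A)) (Fm S (e2 e) (Lift C)) ≤ M ^ (n ^ 2) ∧
    ∀ m : ℕ, (finrank ℚ (A m) : ℝ) ≤
        (ind (Fm S (e2 e) (Lift A)) (Fm S (e2 e) (Lift C)) : ℝ) * finrank ℚ (C m) ∧
      (ind (Fm S (e2 e) (Lift A)) (Fm S (e2 e) (Lift C)) : ℝ) * finrank ℚ (C m) ≤
        finrank ℚ (A m) + ((ind (Fm S (e2 e) (Lift A)) (Fm S (e2 e) (Lift C)) : ℝ) - 1) *
          (n - (1 - Real.cos (2 * Real.pi / N))) ^ (2 * m) := by
  have hne : Nonempty (Fin n ⊕ Fin n) := ⟨Sum.inl ⟨0, by omega⟩⟩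
  obtain ⟨h1, h2⟩ := index_C hN hL hη hη2 (RS (stabG (tens (Fm S (e2 e) (Lift C)))))
    fun g hg => RS_mem hg
  have hfr := finrank_RS hf hC hCf
  have h3 : (ind (Fm S (e2 e) (Lift A)) (Fm S (e2 e) (Lift C)) : ℝ) ≤ (M : ℝ) ^ (n ^ 2) := by
    have h4 : (1 : ℝ) ≤ 1 + 2 / η := by
      have : 0 < 2 / η := by positivity
      linarith
    refine h2.trans ((pow_le_pow_left₀ (by linarith) hM _).trans ?_)
    exact pow_le_pow_right₀ (h4.trans hM) hfr
  refine ⟨h1, by exact_mod_cast h3, fun m => ?_⟩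
  obtain ⟨h5, h6⟩ := formula hf.bas hCf hAf (Fm_le hCA) (fun n hn F hF => odd_zero hn hF) hN hL
    h1 m
  have hCp := (lift_closed hC).perm
  rw [dim_eq hf.one' hCp, dim_eq hf.one' hAp] at h5 h6
  have h4 : (0 : ℝ) < 4 ^ m := by positivity
  constructor
  · refine le_of_mul_le_mul_left ?_ h4
    calc (4 : ℝ) ^ m * (finrank ℚ (A m) : ℝ) ≤ _ := h5
      _ = _ := by ring
  · refine le_of_mul_le_mul_left ?_ h4
    have hcard : Fintype.card (Fin n ⊕ Fin n) = 2 * n := by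
      rw [Fintype.card_sum, Fintype.card_fin]
      ring
    rw [hcard] at h6
    have h7 : (((2 * n : ℕ) : ℝ) - 2 * (1 - Real.cos (2 * Real.pi / N))) ^ (2 * m) =
        4 ^ m * ((n : ℝ) - (1 - Real.cos (2 * Real.pi / N))) ^ (2 * m) := by
      have h8 : (4 : ℝ) ^ m = 2 ^ (2 * m) := by
        rw [pow_mul]
        norm_num
      rw [h8, ← mul_pow]
      congr 1
      push_cast
      ring
    rw [h7] at h6
    calc (4 : ℝ) ^ m * ((ind (Fm S (e2 e) (Lift A)) (Fm S (e2 e) (Lift C)) : ℝ) *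
          finrank ℚ (C m)) =
        (ind (Fm S (e2 e) (Lift A)) (Fm S (e2 e) (Lift C)) : ℝ) *
          (4 ^ m * finrank ℚ (C m)) := by ring
      _ ≤ _ := h6
      _ = _ := by ring

end frame

section coordinates

variable {V : Type} [AddCommGroup V] [Module ℚ V] [FiniteDimensional ℚ V] {n : ℕ}
  {e : Basis (Fin n) ℚ V} {Q : V →ₗ[ℚ] V →ₗ[ℚ] ℚ} {ε : Module.End ℚ V}
  {P P' : Matrix (Fin n) (Fin n) ℂ} {k : Fin n → ℤ} (hd : HD e Q ε P P' k)

include hd in
/-- Dual families. -/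
lemma exists_dual_hd : ∃ γ γ' : Fin (finrank ℚ V) → V, ∀ v : V, v = ∑ i, Q v (γ' i) • γ i := by
  have hinj : Function.Injective Q.flip := by
    rw [← LinearMap.ker_eq_bot, LinearMap.ker_eq_bot']
    intro v hv
    exact hd.nd v fun u => congrArg (fun f : V →ₗ[ℚ] ℚ => f u) hv
  have hsurj : Function.Surjective Q.flip :=
    (LinearMap.injective_iff_surjective_of_finrank_eq_finrank Subspace.dual_finrank_eq.symm).1 hinj
  let b := Module.finBasis ℚ V
  choose β' hβ' using fun i => hsurj (b.coord i)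
  refine ⟨b, β', fun w => ?_⟩
  conv_lhs => rw [← b.sum_repr w]
  refine Finset.sum_congr rfl fun i _ => ?_
  have h1 : Q w (β' i) = b.coord i w := congrArg (fun f : V →ₗ[ℚ] ℚ => f w) (hβ' i)
  rw [h1, Basis.coord_apply]

include hd in
/-- The trace form of the Lie algebra is nondegenerate. -/
lemma hnt_hd : KC2.TraceNondeg (LB (Lift (Ann e (wt P P' k)))) := by
  obtain ⟨S, S', hf⟩ := exists_frame_hd hd
  obtain ⟨γ, γ', hγ⟩ := exists_dual_hd hd
  have hβ := dual_dbl hγ hd.nd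
  have hB2 := lift_closed (ann_closed' hd hγ)
  have hsB := star_lift hd hγ (ann_closed' hd hγ) fun m => le_refl _
  exact LB_traceNondeg hf (fam' hf (fun _ _ => rfl) hβ hB2 hsB)

/-- The Casimir class. -/
def casV : RF V 2 := cpt (casW (hnt_hd hd) Q) t0

/-- The Casimir class is a Hodge class. -/
lemma casV_mem : casV hd ∈ Ann e (wt P P' k) 2 := by
  obtain ⟨S, S', hf⟩ := exists_frame_hd hd
  obtain ⟨γ, γ', hγ⟩ := exists_dual_hd hd
  have hβ := dual_dbl hγ hd.nd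
  have hB2 := lift_closed (ann_closed' hd hγ)
  have hsB := star_lift hd hγ (ann_closed' hd hγ) fun m => le_refl _
  have hBf := fam' hf (fun _ _ => rfl) hβ hB2 hsB
  have h1 := rcas_mem hf hBf hBf hB2.perm (fun _ => le_refl _) (by
    rw [ind, Subgroup.subgroupOf_self, Subgroup.index_top]
    exact one_ne_zero)
  exact h1 t0

/-- **The index**, in coordinates. -/
theorem index_hd {ι : Type} [Fintype ι] [DecidableEq ι] {γ γ' : ι → V}
    (hγ : ∀ v : V, v = ∑ i, Q v (γ' i) • γ i) (hn : 1 ≤ n)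
    {C : ∀ m : ℕ, Submodule ℚ (RF V m)} (hC : Closed Q γ γ' C)
    (hCB : ∀ m, C m ≤ Ann e (wt P P' k) m) :
    ∃ K : ℕ, Tendsto (fun m : ℕ => (finrank ℚ (C m) : ℝ) / finrank ℚ (Ann e (wt P P' k) m)) atTop
        (𝓝 (K : ℝ)⁻¹) ∧ (∀ m, 0 < finrank ℚ (Ann e (wt P P' k) m)) ∧
      (K = 1 → ∀ m, Ann e (wt P P' k) m ≤ C m) ∧
      (K ≠ 0 → casV hd ∈ C 2) ∧
      (NoSkew e Q (wt P P' k) → Ann e (wt P P' k) 1 ≤ C 1 → casV hd ∈ C 2 →
        K ≠ 0 ∧ K ≤ 3 ^ (n ^ 2) ∧ ∀ m : ℕ,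
          (finrank ℚ (Ann e (wt P P' k) m) : ℝ) ≤ K * finrank ℚ (C m) ∧
          (K : ℝ) * finrank ℚ (C m) ≤
            finrank ℚ (Ann e (wt P P' k) m) + ((K : ℝ) - 1) * ((n : ℝ) - 1) ^ (2 * m)) ∧
      (∀ w : ℕ, 1 ≤ w → (∀ x, |k x| ≤ w) →
        (∀ m, 2 * m ≤ 4 * (2 * n * (w * (2 * n))) ^ (2 * n) * (2 * n) →
          Ann e (wt P P' k) m ≤ C m) →
        K ≠ 0 ∧ K ≤ (1 + 2 * (2 * n * (w * (2 * n))) ^ (2 * n) * (2 * n)) ^ (n ^ 2)) := by
  obtain ⟨S, S', hf⟩ := exists_frame_hd hd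
  have hβ := dual_dbl hγ hd.nd
  have hB := ann_closed' hd hγ
  have hC2 := lift_closed hC
  have hB2 := lift_closed hB
  have hsC := star_lift hd hγ hC hCB
  have hsB := star_lift hd hγ hB fun m => le_refl _
  have hBN := defBy_lift e (wt P P' k)
  have hBf := fam' hf (fun _ _ => rfl) hβ hB2 hsB
  have hCf := fam' hf (fun _ _ => rfl) hβ hC2 hsC
  have hle := Fm_le (S := S) (e := e) hCB
  refine ⟨ind (Fm S (e2 e) (Lift (Ann e (wt P P' k)))) (Fm S (e2 e) (Lift C)),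
    tendsto_frame hf hn hB2.perm hC2.perm hBf hCf hCB, fun m => ?_,
    fun h => of_ind_one hf hC2.perm hBf hCf h,
    fun h => rcas_mem hf hBf hCf hC2.perm hle h t0, fun hns h1 h2 => ?_, fun w hw1 hw h1 => ?_⟩
  · have hne : Nonempty (Fin n ⊕ Fin n) := ⟨Sum.inl ⟨0, by omega⟩⟩
    have h1 := fin_pos hf.bas hBf m
    rw [dim_eq hf.one' hB2.perm] at h1
    rw [Nat.pos_iff_ne_zero]
    intro h0
    rw [h0, Nat.cast_zero, mul_zero] at h1
    exact lt_irrefl _ h1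
  · have hcas : casW (hnt_hd hd) Q ∈ Lift C 2 := cas_lift hd hγ (hnt_hd hd) hC.perm h2
    have hL : LieDetC (Fm S (e2 e) (Lift (Ann e (wt P P' k)))) (Fm S (e2 e) (Lift C)) 4 := by
      refine lieDetC_of hf fun Z hZ => ?_
      refine mem_LB_of hf hBN hBf hB2.pol (fun P hP hPz hsk => ?_) (fun ψ hψ => ?_) ?_
      · rw [center_noskew hd hγ hns hP hPz hsk]
        exact Submodule.zero_mem _
      · exact hZ 1 (by norm_num) ψ fun t => h1 (hψ t)
      · exact hZ 2 (by norm_num) _ hcas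
    have hcos : Real.cos (2 * Real.pi / ((4 : ℕ) : ℝ)) = 0 := by
      have h3 : 2 * Real.pi / ((4 : ℕ) : ℝ) = Real.pi / 2 := by
        push_cast
        ring
      rw [h3, Real.cos_pi_div_two]
    have h3 := formula_frame hf hC hn hB2.perm hBf hCf hCB (N := 4) (by norm_num) hL
      (η := Real.sqrt 2) (by positivity) (by
        rw [Real.sq_sqrt (by norm_num), hcos]
        norm_num) (M := 3) (by
        have h4 : (0 : ℝ) < Real.sqrt 2 := by positivity
        have h5 : 2 / Real.sqrt 2 ≤ 2 := by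
          rw [div_le_iff₀ h4]
          have h6 : (1 : ℝ) ≤ Real.sqrt 2 := by
            rw [Real.one_le_sqrt]
            norm_num
          linarith
        push_cast
        linarith)
    rw [hcos, sub_zero] at h3
    exact h3
  · have hcard : Fintype.card (Fin n ⊕ Fin n) = 2 * n := by
      rw [Fintype.card_sum, Fintype.card_fin]
      ring
    have hsp : SpecBound (bd (wt P P' k)) (w * (2 * n)) := by
      rw [bd_wt, ← hcard]
      refine spec_wt hd.h2 hd.h2' (k2 k) ?_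
      rintro (x | x)
      · exact hw x
      · exact hw x
    have hX1 : 1 ≤ (2 * n * (w * (2 * n))) ^ (2 * n) * (2 * n) :=
      Nat.succ_le_of_lt (by positivity)
    set N₀ := 4 * (2 * n * (w * (2 * n))) ^ (2 * n) * (2 * n) with hN₀
    have hN4 : 4 ≤ N₀ := by
      rw [hN₀]
      nlinarith
    have hLB : LieDet (Fm S (e2 e) (Lift (Ann e (wt P P' k)))) N₀ := by
      refine lieDet' hf hBN hBf hN4 fun X hX hXz hsk hkill => ?_
      refine center_all'' hf hBN hBf hB2.pol (fun Y hY hYz => comm_Nz hd hγ hY hYz)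
        (D := w * (2 * n)) (Nat.succ_le_of_lt (by positivity)) hsp (trace_bd hd) X hX hXz hsk ?_
      intro m hm' ψ hψ
      rw [hcard] at hm'
      exact hkill m hm' ψ hψ
    have hL : LieDetC (Fm S (e2 e) (Lift (Ann e (wt P P' k)))) (Fm S (e2 e) (Lift C)) N₀ := by
      intro A hA
      refine hLB A fun n' hn' F hF => ?_
      refine hA n' hn' F ?_
      induction hF using Submodule.span_induction with
      | mem F h =>
        obtain ⟨m'', e', ψ, hψ, rfl⟩ := h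
        have hc := Fintype.card_congr e'
        rw [Fintype.card_prod, Fintype.card_fin, Fintype.card_fin, Fintype.card_fin] at hc
        exact gen_mem e' fun t => h1 m'' (by omega) (hψ t)
      | zero => exact Submodule.zero_mem _
      | add a c _ _ ha hc => exact Submodule.add_mem _ ha hc
      | smul c a _ ha => exact Submodule.smul_mem _ _ ha
    have hN0 : (0 : ℝ) < N₀ := by
      have : 0 < N₀ := by omega
      exact_mod_cast this
    have hNR : (4 : ℝ) ≤ N₀ := by exact_mod_cast hN4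
    have hx0 : 0 ≤ 2 * Real.pi / N₀ := by positivity
    have hcos1 : 8 / (N₀ : ℝ) ^ 2 ≤ 1 - Real.cos (2 * Real.pi / N₀) := by
      have h1 := Real.cos_le_one_sub_mul_cos_sq (x := 2 * Real.pi / N₀) (by
        rw [abs_of_nonneg hx0, div_le_iff₀ hN0]
        have := Real.pi_pos
        nlinarith)
      have h2 : 2 / Real.pi ^ 2 * (2 * Real.pi / N₀) ^ 2 = 8 / (N₀ : ℝ) ^ 2 := by
        have := Real.pi_ne_zero
        field_simp
        ring
      rw [h2] at h1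
      linarith
    have h3 := formula_frame hf hC hn hB2.perm hBf hCf hCB (N := N₀) (by omega) hL
      (η := 4 / N₀) (by positivity) (by
        rw [div_pow]
        have h5 : (4 : ℝ) ^ 2 / (N₀ : ℝ) ^ 2 = 2 * (8 / (N₀ : ℝ) ^ 2) := by ring
        rw [h5]
        linarith) (M := 1 + 2 * (2 * n * (w * (2 * n))) ^ (2 * n) * (2 * n)) (by
        have h5 : (N₀ : ℝ) = 2 * (2 * (2 * n * (w * (2 * n))) ^ (2 * n) * (2 * n)) := by
          rw [hN₀]
          push_cast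
          ring
        have h6 : (1 : ℝ) + 2 / (4 / N₀) = 1 + N₀ / 2 := by
          field_simp
          ring
        rw [h6, h5]
        push_cast
        linarith)
    exact ⟨h3.1, h3.2.1⟩

end coordinates

end

end Pool.Agent.H25.HG
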