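import Pool.Agent.H25.HG.A14
import Pool.Graph.R_pool_sql_team_seeded_64922ed1.X259.U.U31

/-!
# The index, for the powers of a variety
-/

set_option autoImplicit false
set_option linter.unusedSectionVars false
set_option linter.unusedDecidableInType false
set_option linter.unusedFintypeInType false

namespace Pool.Agent.H25.HG

open Matrix Finset Module MeasureTheory Filter Topology Pool.Agent.H204R3.SP
  Pool.Agent.H204R3.GP Pool.Agent.W516 Pool.Agent.X259.T Pool.Agent.X259.U Pool.Agent.X259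
open scoped ComplexOrder TensorProduct

noncomputable section

variable {V : Type} [AddCommGroup V] [Module ℚ V] [FiniteDimensional ℚ V]
  {H : ℤ → ℤ → Submodule ℂ (ℂ ⊗[ℚ] V)}
  {ε : Module.End ℚ V} {P Q : LinearMap.BilinForm ℚ V} {one point : V}

/-- **The index**, for the powers of a variety. -/
theorem index_hs (hH : HS.IsHodgeStructure H ε) (hQ : HS.IsPolarization H ε Q)
    (hP : HS.IsPoincare ε P one point) {w : ℕ} (hw1 : 1 ≤ w)
    (hw : ∀ p q : ℤ, H p q ≠ ⊥ → |p - q| ≤ w)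
    (D : ∀ N : ℕ, Submodule ℚ (HS.Cls V N)) (hD : ∀ N ψ, ψ ∈ D N ↔ HS.IsHodgeClass H ψ) :
    ∃ c : HS.Cls V 4, HS.IsHodgeClass H c ∧
      ∀ A : ∀ N : ℕ, Submodule ℚ (HS.Cls V N), HS.IsCycleFamily H ε P one point A →
        bil (LinearMap.comp P ε) ∈ A 2 → bil Q ∈ A 2 →
      ∃ K : ℕ, Tendsto (fun m : ℕ => (finrank ℚ (A (2 * m)) : ℝ) / finrank ℚ (D (2 * m))) atTop
          (𝓝 (K : ℝ)⁻¹) ∧ (K = 1 ↔ ∀ N, HIn H A N) ∧
        (K ≠ 0 → c ∈ A 4) ∧
        ((∀ f : Module.End ℚ V, HS.IsHodgeEndo H f →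
            (∀ f' : Module.End ℚ V, HS.IsHodgeEndo H f' → f * f' = f' * f) →
            (∀ u v, Q (f u) v = -Q u (f v)) → f = 0) → HIn H A 2 → c ∈ A 4 →
          K ≠ 0 ∧ K ≤ 3 ^ (finrank ℚ V ^ 2) ∧ ∀ m : ℕ,
            (finrank ℚ (D (2 * m)) : ℝ) ≤ K * finrank ℚ (A (2 * m)) ∧
            (K : ℝ) * finrank ℚ (A (2 * m)) ≤
              finrank ℚ (D (2 * m)) + ((K : ℝ) - 1) * ((finrank ℚ V : ℝ) - 1) ^ (2 * m)) ∧
        (HIn H A (4 * (2 * finrank ℚ V * (w * (2 * finrank ℚ V))) ^ (2 * finrank ℚ V) *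
            (2 * finrank ℚ V)) →
          K ≠ 0 ∧ K ≤ (1 + 2 * (2 * finrank ℚ V * (w * (2 * finrank ℚ V))) ^ (2 * finrank ℚ V) *
            (2 * finrank ℚ V)) ^ (finrank ℚ V ^ 2)) := by
  have hn : 1 ≤ finrank ℚ V := by
    rw [Nat.one_le_iff_ne_zero]
    intro h0
    have h1 : Subsingleton V := Module.finrank_zero_iff.1 h0
    have h2 := hP.point
    rw [Subsingleton.elim one 0, map_zero] at h2
    exact zero_ne_one h2
  obtain ⟨vB, kk, hmem, hr⟩ := exists_adapted hH.internal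
  have hd := hd_of (Module.finBasis ℚ V) hmem hr hH hQ
  have hAnn : ∀ (m : ℕ) (ψ : RF V m), ψ ∈ Ann (Module.finBasis ℚ V)
      (wt (PM (Module.finBasis ℚ V) vB) (PM' (Module.finBasis ℚ V) vB) (kd kk)) m ↔
      rein V m ψ ∈ D (2 * m) := fun m ψ => by
    rw [hD, ← hodge_iff_ann _ hmem hr ψ, hform_iff (Module.finBasis ℚ V) hmem hr ψ]
    rfl
  have hc := (hAnn 2 _).1 (casV_mem hd)
  refine ⟨rein V 2 (casV hd), (hD 4 _).1 hc, fun A hA hεA hQA => ?_⟩
  obtain ⟨γ, γ', hγ, hC⟩ := closed_of_star hA hP hH hQ hεA hQA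
  have hsub : ∀ m, CC A m ≤ Ann (Module.finBasis ℚ V)
      (wt (PM (Module.finBasis ℚ V) vB) (PM' (Module.finBasis ℚ V) vB) (kd kk)) m :=
    fun m ψ hψ => (hAnn m ψ).2 ((hD _ _).2 (hA.hodge _ _ hψ))
  have hup : ∀ m, HIn H A (2 * m) → Ann (Module.finBasis ℚ V)
      (wt (PM (Module.finBasis ℚ V) vB) (PM' (Module.finBasis ℚ V) vB) (kd kk)) m ≤ CC A m :=
    fun m h ψ hψ => h _ ((hD _ _).1 ((hAnn m ψ).1 hψ))
  have hdA : ∀ m, finrank ℚ (CC A m) = finrank ℚ (A (2 * m)) := fun m =>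
    finrank_rein (B := A (2 * m)) (B' := CC A m) fun ψ => Iff.rfl
  have hdD : ∀ m, finrank ℚ (Ann (Module.finBasis ℚ V)
      (wt (PM (Module.finBasis ℚ V) vB) (PM' (Module.finBasis ℚ V) vB) (kd kk)) m) =
      finrank ℚ (D (2 * m)) := fun m => finrank_rein fun ψ => hAnn m ψ
  obtain ⟨K, hK1, hK0, hK2, hK3, hK4, hK5⟩ := index_hd hd hγ hn hC hsub
  simp only [hdA, hdD] at hK1 hK4 hK0
  refine ⟨K, hK1, ⟨fun h => ?_, fun h => ?_⟩, hK3, fun hns h2 hcA => ?_, fun h => ?_⟩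
  · have hall : ∀ m' : ℕ, HIn H A (2 * m') := by
      intro m' ψ hψ
      have h6 : rein V m' ((rein V m').symm ψ) = ψ := (rein V m').apply_symm_apply ψ
      have h7 : (rein V m').symm ψ ∈ CC A m' := hK2 h m' ((hAnn m' _).2 ((hD _ _).2 (by
        rw [h6]
        exact hψ)))
      have h8 : rein V m' ((rein V m').symm ψ) ∈ A (2 * m') := h7
      rwa [h6] at h8
    exact fun N => down_le hA hP hH (by omega : N ≤ 2 * N) (hall N)
  · have h1 : ∀ m : ℕ, (finrank ℚ (A (2 * m)) : ℝ) / finrank ℚ (D (2 * m)) = 1 := by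
      intro m
      have h3 : A (2 * m) = D (2 * m) := by
        refine le_antisymm (fun ψ hψ => (hD _ _).2 (hA.hodge _ _ hψ))
          fun ψ hψ => h _ ψ ((hD _ _).1 hψ)
      rw [h3]
      refine div_self ?_
      have := hK0 m
      positivity
    simp only [h1] at hK1
    have h2 := tendsto_nhds_unique hK1 tendsto_const_nhds
    have h3 : (K : ℝ) = 1 := by
      rw [← inv_inv (K : ℝ), h2, inv_one]
    exact_mod_cast h3
  · refine hK4 (fun p hp hpz hsk => ?_) (hup 1 h2) hcA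
    exact hns p ((endo_iff _ hmem hr p).2 hp)
      (fun f' hf' => hpz f' ((endo_iff _ hmem hr f').1 hf')) hsk
  · have hwk : ∀ a, |kd kk a| ≤ w := fun a => by
      refine hw _ _ fun h => ?_
      have h1 := hmem a
      rw [h, Submodule.mem_bot] at h1
      exact vB.ne_zero a h1
    exact hK5 w hw1 hwk fun m hm => hup m (down_le hA hP hH hm h)

end

end Pool.Agent.H25.HG
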