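import Pool.Agent.H25.HG.A1

/-!
# The proportion of the smaller family and the measure of the smaller group
-/

set_option autoImplicit false
set_option linter.unusedSectionVars false
set_option linter.unusedDecidableInType false
set_option linter.unusedFintypeInType false

namespace Pool.Agent.H25.HG

open Matrix Finset Module MeasureTheory Filter Topology Pool.Agent.H204R3.SP
  Pool.Agent.H204R3.GP Pool.Agent.W516 Pool.Agent.X259.T Pool.Agent.X259.U
open scoped ComplexOrder

noncomputable section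

variable {R : Type} [Fintype R] [DecidableEq R] {Q : Type} [DecidableEq Q]
  {cls : R → Q} {inv : R → R} {jj : R → ℂ} {B C : ∀ κ : Type, Submodule ℂ ((κ → R) → ℂ)}

lemma sub_stab (hle : ∀ κ : Type, C κ ≤ B κ) : stabG (tens B) ≤ stabG (tens C) :=
  fun _ hg s hs => hg s (hle _ hs)

lemma star_mul_self' (g : Matrix.unitaryGroup R ℂ) : (g : Matrix R R ℂ)ᴴ * (g : Matrix R R ℂ) = 1 :=
  Matrix.mem_unitaryGroup_iff'.1 g.2

/-- The trace on a coset is not negative. -/
lemma ph_nonneg (hB : Bas cls inv jj) (hC : Fam cls inv jj C) (hle : ∀ κ : Type, C κ ≤ B κ)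
    (m : ℕ) {q : Matrix.unitaryGroup R ℂ} (hq : q ∈ stabG (tens C)) :
    0 ≤ ph B m (q : Matrix R R ℂ) := by
  let _ : MeasurableSpace (stabG (tens B)) := borel _
  have _ : BorelSpace (stabG (tens B)) := ⟨rfl⟩
  rw [ph, tr_int]
  have h1 : ∀ g : stabG (tens B), ((q : Matrix R R ℂ) * inc (stabG (tens B)) g).trace ^ (2 * m) =
      (((((q : Matrix R R ℂ) * inc (stabG (tens B)) g).trace.re) ^ (2 * m) : ℝ) : ℂ) := by
    intro g
    have h2 := trace_real hB (stab_le hC ((stabG (tens C)).mul_mem hq (sub_stab hle g.2)))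
    have h3 : (((q * (g : Matrix.unitaryGroup R ℂ) : Matrix.unitaryGroup R ℂ)) : Matrix R R ℂ) =
        (q : Matrix R R ℂ) * inc (stabG (tens B)) g := rfl
    rw [h3] at h2
    conv_lhs => rw [← h2]
    push_cast
    rfl
  simp only [h1]
  rw [integral_complex_ofReal, Complex.ofReal_re]
  refine integral_nonneg fun g => ?_
  exact Even.pow_nonneg (even_two_mul m) _

/-- The bound of the trace on a coset. -/
lemma ph_bound (m : ℕ) {q : Matrix.unitaryGroup R ℂ} {c : ℝ}
    (hbd : ∀ g ∈ stabG (tens B), ‖((q * g : Matrix.unitaryGroup R ℂ) : Matrix R R ℂ).trace‖ ≤ c) :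
    ph B m (q : Matrix R R ℂ) ≤ c ^ (2 * m) := by
  let _ : MeasurableSpace (stabG (tens B)) := borel _
  have _ : BorelSpace (stabG (tens B)) := ⟨rfl⟩
  rw [ph, tr_int]
  refine (Complex.re_le_norm _).trans ?_
  have h1 : ∀ g : stabG (tens B), ‖((q : Matrix R R ℂ) * inc (stabG (tens B)) g).trace ^ (2 * m)‖ ≤
      c ^ (2 * m) := by
    intro g
    rw [norm_pow]
    exact pow_le_pow_left₀ (norm_nonneg _) (hbd g g.2) _
  have h2 := norm_integral_le_of_norm_le_const (μ := hm (stabG (tens B)))
    (Filter.Eventually.of_forall h1)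
  rw [probReal_univ, mul_one] at h2
  exact h2

lemma ph_expand (m : ℕ) (g : Matrix R R ℂ) : (kr (Fin (2 * m)) g * PR B (Fin (2 * m))).trace =
    ∑ I, ∑ L, kr (Fin (2 * m)) g I L * PR B (Fin (2 * m)) L I := by
  rw [Matrix.trace]
  simp only [Matrix.diag_apply, Matrix.mul_apply]

lemma tr_cont (m : ℕ) : Continuous fun g : stabG (tens C) =>
    (kr (Fin (2 * m)) (inc (stabG (tens C)) g) * PR B (Fin (2 * m))).trace := by
  let _ : MeasurableSpace (stabG (tens C)) := borel _
  have _ : BorelSpace (stabG (tens C)) := ⟨rfl⟩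
  simp only [ph_expand]
  exact continuous_finsetSum _ fun I _ => continuous_finsetSum _ fun L _ =>
    (kr_cont (inc_cont (stabG (tens C))) I L).mul continuous_const

lemma ph_cont (m : ℕ) : Continuous fun g : stabG (tens C) => ph B m (inc (stabG (tens C)) g) :=
  Complex.continuous_re.comp (tr_cont m)

/-- The mean value of the traces on the cosets. -/
lemma int_ph (hB : Bas cls inv jj) (hC : Fam cls inv jj C) (hle : ∀ κ : Type, C κ ≤ B κ) (m : ℕ)
    [MeasurableSpace (stabG (tens C))] [BorelSpace (stabG (tens C))] :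
    ∫ g, ph B m (inc (stabG (tens C)) g) ∂(hm (stabG (tens C))) =
      finrank ℂ (C (Fin (2 * m))) := by
  have hbor : (inferInstance : MeasurableSpace (stabG (tens C))) = borel _ :=
    BorelSpace.measurable_eq
  have hr : Continuous (inc (stabG (tens C))) := inc_cont _
  have hPR : PR C (Fin (2 * m)) = av (Fin (2 * m)) (inc (stabG (tens C))) := by
    subst hbor
    rfl
  have h1 : (∫ g, (kr (Fin (2 * m)) (inc (stabG (tens C)) g) * PR B (Fin (2 * m))).trace
      ∂(hm (stabG (tens C)))) = (finrank ℂ (C (Fin (2 * m))) : ℂ) := by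
    rw [← PR_trace hB hC, ← PR_mul hle, Matrix.trace]
    simp only [Matrix.diag_apply, Matrix.mul_apply, ph_expand]
    rw [integral_finsetSum]
    · refine Finset.sum_congr rfl fun I _ => ?_
      rw [integral_finsetSum]
      · refine Finset.sum_congr rfl fun L _ => ?_
        rw [integral_mul_const, hPR]
        rfl
      · exact fun L _ => (integrable_of_continuous (kr_cont hr I L)).mul_const _
    · exact fun I _ => integrable_of_continuous (continuous_finsetSum _ fun L _ =>
        (kr_cont hr I L).mul continuous_const)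
  have h2 : (∫ g, ph B m (inc (stabG (tens C)) g) ∂(hm (stabG (tens C)))) =
      (∫ g, (kr (Fin (2 * m)) (inc (stabG (tens C)) g) * PR B (Fin (2 * m))).trace
      ∂(hm (stabG (tens C)))).re := by
    have h3 := integral_re (𝕜 := ℂ) (μ := hm (stabG (tens C)))
      (integrable_of_continuous (tr_cont (B := B) (C := C) m))
    exact h3
  rw [h2, h1, Complex.natCast_re]

/-- The lower bound of the number of the tensors. -/
lemma fin_ge (hB : Bas cls inv jj) (hBf : Fam cls inv jj B) (m : ℕ) :
    (Fintype.card R : ℝ) ^ (2 * m) ≤ ((m : ℝ) + 1) ^ (Fintype.card R * Fintype.card R) *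
      finrank ℂ (B (Fin (2 * m))) := by
  let _ : MeasurableSpace (stabG (tens B)) := borel _
  have _ : BorelSpace (stabG (tens B)) := ⟨rfl⟩
  have hr : Continuous (inc (stabG (tens B))) := inc_cont _
  have hmom := moment (inc (stabG (tens B))) hr m
  have hreal : ((∫ g, ‖(inc (stabG (tens B)) g).trace‖ ^ (2 * m) ∂(hm (stabG (tens B))) : ℝ) : ℂ) =
      (finrank ℂ (B (Fin (2 * m))) : ℂ) := by
    have h1 := av_trace (κ := Fin (2 * m)) hr 1
    simp only [one_mul, Fintype.card_fin] at h1
    rw [← trace_av hB hBf, ← h1, ← integral_complex_ofReal]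
    refine integral_congr_ae (Filter.Eventually.of_forall fun g => ?_)
    simp only
    have h2 := trace_real hB (stab_le hBf g.2)
    change (((‖(inc (stabG (tens B)) g).trace‖ ^ (2 * m) : ℝ)) : ℂ) =
      (inc (stabG (tens B)) g).trace ^ (2 * m)
    have h3 : (inc (stabG (tens B)) g).trace = ((((inc (stabG (tens B)) g).trace).re : ℝ) : ℂ) :=
      h2.symm
    rw [h3, Complex.norm_real, Real.norm_eq_abs, pow_mul, sq_abs, ← pow_mul]
    push_cast
    rfl
  have hreal' : (∫ g, ‖(inc (stabG (tens B)) g).trace‖ ^ (2 * m) ∂(hm (stabG (tens B)))) =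
      (finrank ℂ (B (Fin (2 * m))) : ℝ) := by exact_mod_cast hreal
  rwa [hreal'] at hmom

lemma fin_pos [Nonempty R] (hB : Bas cls inv jj) (hBf : Fam cls inv jj B) (m : ℕ) :
    (0 : ℝ) < finrank ℂ (B (Fin (2 * m))) := by
  have h1 := fin_ge hB hBf m
  have h2 : (0 : ℝ) < (Fintype.card R : ℝ) ^ (2 * m) := by
    have : 0 < Fintype.card R := Fintype.card_pos
    positivity
  by_contra hcon
  push Not at hcon
  have h3 := mul_nonpos_of_nonneg_of_nonpos
    (by positivity : (0 : ℝ) ≤ ((m : ℝ) + 1) ^ (Fintype.card R * Fintype.card R)) hcon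
  linarith

/-- A unitary matrix whose trace has the largest real part is the identity. -/
lemma eq_one_of_trace {g : Matrix.unitaryGroup R ℂ}
    (h : (Fintype.card R : ℝ) ≤ ((g : Matrix R R ℂ).trace).re) : g = 1 := by
  obtain ⟨P, P', μ, h1, h2, hgP, hμ⟩ := exists_diag g
  have h4 : (g : Matrix R R ℂ).trace = ∑ x, μ x := by
    rw [hgP, Matrix.trace_mul_comm, ← mul_assoc, h1, one_mul, Matrix.trace_diagonal]
  have h5 : ∀ y, (μ y).re ≤ 1 := fun y => (Complex.re_le_norm _).trans (hμ y).le
  have h6 : ∑ y, (1 - (μ y).re) ≤ 0 := by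
    rw [Finset.sum_sub_distrib, Finset.sum_const, Finset.card_univ, nsmul_eq_mul, mul_one,
      ← Complex.re_sum, ← h4]
    linarith
  have h7 : ∀ y, (μ y).re = 1 := by
    have h8 := (Finset.sum_eq_zero_iff_of_nonneg (fun y _ => sub_nonneg.2 (h5 y))).1
      (le_antisymm h6 (Finset.sum_nonneg fun y _ => sub_nonneg.2 (h5 y)))
    intro y
    have := h8 y (Finset.mem_univ y)
    linarith
  have h8 : ∀ y, μ y = 1 := by
    intro y
    have h9 : Complex.normSq (μ y) = 1 := by
      rw [Complex.normSq_eq_norm_sq, hμ y, one_pow]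
    rw [Complex.normSq_apply, h7 y] at h9
    have h10 : (μ y).im * (μ y).im = 0 := by linarith
    refine Complex.ext (h7 y) ?_
    rw [Complex.one_im]
    exact mul_self_eq_zero.1 h10
  apply Subtype.ext
  rw [hgP]
  have h9 : Matrix.diagonal μ = 1 := by
    rw [← Matrix.diagonal_one]
    congr 1
    funext y
    exact h8 y
  rw [h9, mul_one, h2]
  rfl

end

end Pool.Agent.H25.HG
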