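import Pool.Agent.H25.HG.A2

/-!
# The limit of the proportion
-/

set_option autoImplicit false
set_option linter.unusedSectionVars false
set_option linter.unusedDecidableInType false
set_option linter.unusedFintypeInType false

namespace Pool.Agent.H25.HG

open Matrix Finset Module MeasureTheory Filter Topology Pool.Agent.H204R3.SP
  Pool.Agent.H204R3.GP Pool.Agent.W516 Pool.Agent.X259.T Pool.Agent.X259.U
open scoped ComplexOrder

noncomputable section

variable {R : Type} [Fintype R] [DecidableEq R] {Q : Type} [DecidableEq Q]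
  {cls : R → Q} {inv : R → R} {jj : R → ℂ} {B C : ∀ κ : Type, Submodule ℂ ((κ → R) → ℂ)}

/-- It is enough to bound the real part of the traces. -/
lemma norm_of_re (hB : Bas cls inv jj) (hC : Fam cls inv jj C) (hle : ∀ κ : Type, C κ ≤ B κ)
    (hodd : ∀ n, Odd n → ∀ F ∈ B (Fin n), F = 0) {c : ℝ} {q : Matrix.unitaryGroup R ℂ}
    (hq : q ∈ stabG (tens C)) (h : ∀ g ∈ stabG (tens B),
      (((q * g : Matrix.unitaryGroup R ℂ) : Matrix R R ℂ).trace).re ≤ c)
    (g : Matrix.unitaryGroup R ℂ) (hg : g ∈ stabG (tens B)) :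
    ‖((q * g : Matrix.unitaryGroup R ℂ) : Matrix R R ℂ).trace‖ ≤ c := by
  have h1 := h g hg
  have h2 := h (g * -1) ((stabG (tens B)).mul_mem hg (neg_one_mem hodd))
  have h3 : ((q * (g * -1) : Matrix.unitaryGroup R ℂ) : Matrix R R ℂ).trace =
      -((q * g : Matrix.unitaryGroup R ℂ) : Matrix R R ℂ).trace := by
    change ((q : Matrix R R ℂ) * ((g : Matrix R R ℂ) * (-1 : Matrix R R ℂ))).trace =
      -((q : Matrix R R ℂ) * (g : Matrix R R ℂ)).trace
    rw [mul_neg, mul_one, mul_neg, Matrix.trace_neg]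
  rw [h3, Complex.neg_re] at h2
  have hmem : q * g ∈ stabG (tens C) := (stabG (tens C)).mul_mem hq (sub_stab hle hg)
  rw [← trace_real hB (stab_le hC hmem), Complex.norm_real, Real.norm_eq_abs, abs_le]
  constructor <;> linarith

/-- The traces on a coset different from the group are bounded away from the dimension. -/
lemma exists_bound [Nonempty R] (hB : Bas cls inv jj) (hC : Fam cls inv jj C)
    (hle : ∀ κ : Type, C κ ≤ B κ) (hodd : ∀ n, Odd n → ∀ F ∈ B (Fin n), F = 0)
    {q : Matrix.unitaryGroup R ℂ} (hq : q ∈ stabG (tens C)) (hqB : q ∉ stabG (tens B)) :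
    ∃ c : ℝ, 0 < c ∧ c < Fintype.card R ∧ ∀ g ∈ stabG (tens B),
      ‖((q * g : Matrix.unitaryGroup R ℂ) : Matrix R R ℂ).trace‖ ≤ c := by
  have hd : (0 : ℝ) < Fintype.card R := by
    have : 0 < Fintype.card R := Fintype.card_pos
    exact_mod_cast this
  have hcont : Continuous fun g : stabG (tens B) =>
      (((q * (g : Matrix.unitaryGroup R ℂ) : Matrix.unitaryGroup R ℂ) : Matrix R R ℂ).trace).re := by
    have h1 : Continuous fun g : stabG (tens B) =>
        ((q * (g : Matrix.unitaryGroup R ℂ) : Matrix.unitaryGroup R ℂ) : Matrix R R ℂ) :=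
      continuous_subtype_val.comp (continuous_const.mul continuous_subtype_val)
    exact Complex.continuous_re.comp h1.matrix_trace
  obtain ⟨g₀, _, hg₀⟩ := isCompact_univ.exists_isMaxOn
    (⟨1, Set.mem_univ _⟩ : (Set.univ : Set (stabG (tens B))).Nonempty) hcont.continuousOn
  set M := (((q * (g₀ : Matrix.unitaryGroup R ℂ) : Matrix.unitaryGroup R ℂ) :
    Matrix R R ℂ).trace).re with hM
  have hMd : M < Fintype.card R := by
    by_contra hcon
    push Not at hcon
    have h1 := eq_one_of_trace (g := q * (g₀ : Matrix.unitaryGroup R ℂ)) hcon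
    apply hqB
    rw [mul_eq_one_iff_eq_inv.1 h1]
    exact (stabG (tens B)).inv_mem g₀.2
  refine ⟨max M (Fintype.card R / 2), lt_max_of_lt_right (by positivity),
    max_lt hMd (by linarith), fun g hg => ?_⟩
  refine norm_of_re hB hC hle hodd hq (fun g hg => ?_) g hg
  exact (isMaxOn_iff.1 hg₀ ⟨g, hg⟩ (Set.mem_univ _)).trans (le_max_left _ _)

/-- Exponential decay. -/
lemma decay {d c : ℝ} (hc : 0 < c) (hcd : c < d) (D : ℕ) :
    Tendsto (fun m : ℕ => ((m : ℝ) + 1) ^ D * (c ^ (2 * m) / d ^ (2 * m))) atTop (𝓝 0) := by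
  have hd : 0 < d := hc.trans hcd
  set r := (c / d) ^ 2 with hr
  have hcd1 : c / d < 1 := (div_lt_one hd).2 hcd
  have hcd0 : 0 < c / d := div_pos hc hd
  have hr1 : |r| < 1 := by
    rw [hr, abs_of_nonneg (by positivity)]
    exact pow_lt_one₀ hcd0.le hcd1 two_ne_zero
  have hr0 : 0 < r := by positivity
  have h1 := (tendsto_pow_const_mul_const_pow_of_abs_lt_one D hr1).comp (tendsto_add_atTop_nat 1)
  have h2 := h1.const_mul (r⁻¹)
  rw [mul_zero] at h2
  refine h2.congr fun m => ?_
  simp only [Function.comp]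
  have h3 : c ^ (2 * m) / d ^ (2 * m) = r ^ m := by
    rw [← div_pow, pow_mul]
  rw [h3, pow_succ]
  push_cast
  field_simp

/-- **The limit of the proportion** is the measure of the smaller group. -/
theorem ratio_tendsto [Nonempty R] (hB : Bas cls inv jj) (hC : Fam cls inv jj C)
    (hBf : Fam cls inv jj B)
    (hle : ∀ κ : Type, C κ ≤ B κ) (hodd : ∀ n, Odd n → ∀ F ∈ B (Fin n), F = 0)
    [MeasurableSpace (stabG (tens C))] [BorelSpace (stabG (tens C))] :
    Tendsto (fun m : ℕ => (finrank ℂ (C (Fin (2 * m))) : ℝ) / finrank ℂ (B (Fin (2 * m)))) atTop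
      (𝓝 ((hm (stabG (tens C))).real ((stabG (tens B)).subgroupOf (stabG (tens C)) :
        Set (stabG (tens C))))) := by
  set Hs : Set (stabG (tens C)) := ((stabG (tens B)).subgroupOf (stabG (tens C)) :
        Set (stabG (tens C))) with hHs
  have hcl : IsClosed Hs := (stab_closed (tens B)).preimage continuous_subtype_val
  have hms : MeasurableSet Hs := hcl.measurableSet
  have hd : (0 : ℝ) < Fintype.card R := by
    have : 0 < Fintype.card R := Fintype.card_pos
    exact_mod_cast this
  let F : ℕ → stabG (tens C) → ℝ := fun m g =>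
    ph B m (inc (stabG (tens C)) g) / finrank ℂ (B (Fin (2 * m)))
  have hF : ∀ m, (∫ g, F m g ∂(hm (stabG (tens C)))) =
      (finrank ℂ (C (Fin (2 * m))) : ℝ) / finrank ℂ (B (Fin (2 * m))) := by
    intro m
    change (∫ g, ph B m (inc (stabG (tens C)) g) / (finrank ℂ (B (Fin (2 * m))) : ℝ)
      ∂(hm (stabG (tens C)))) = _
    rw [integral_div, int_ph hB hC hle]
  have hlim : (∫ g, Hs.indicator (fun _ => (1 : ℝ)) g ∂(hm (stabG (tens C)))) =
      (hm (stabG (tens C))).real Hs := by
    rw [integral_indicator_const (1 : ℝ) hms, smul_eq_mul, mul_one]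
  rw [← hlim]
  simp only [← hF]
  refine tendsto_integral_of_dominated_convergence (fun _ => (1 : ℝ)) (fun m => ?_)
    (integrable_const _) (fun m => Filter.Eventually.of_forall fun g => ?_)
    (Filter.Eventually.of_forall fun g => ?_)
  · exact ((ph_cont (B := B) (C := C) m).div_const _).aestronglyMeasurable
  · have h1 := ph_nonneg hB hC hle m g.2
    have h2 := ph_le hB hBf m (star_mul_self' (g : Matrix.unitaryGroup R ℂ))
    have h3 := fin_pos hB hBf m
    change ‖ph B m ((g : Matrix.unitaryGroup R ℂ) : Matrix R R ℂ) / _‖ ≤ 1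
    rw [Real.norm_eq_abs, abs_of_nonneg (div_nonneg h1 h3.le)]
    exact (div_le_one h3).2 h2
  · by_cases hg : g ∈ Hs
    · rw [Set.indicator_of_mem hg]
      refine tendsto_const_nhds.congr fun m => ?_
      change 1 = ph B m ((g : Matrix.unitaryGroup R ℂ) : Matrix R R ℂ) / _
      have h1 : (g : Matrix.unitaryGroup R ℂ) ∈ stabG (tens B) := hg
      rw [ph_eq hB hBf m h1, div_self (fin_pos hB hBf m).ne']
    · rw [Set.indicator_of_notMem hg]
      obtain ⟨c, hc0, hcd, hc⟩ := exists_bound hB hC hle hodd g.2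
        (fun h => hg (Subgroup.mem_subgroupOf.2 h))
      refine squeeze_zero (fun m => ?_) (fun m => ?_)
        (decay hc0 hcd (Fintype.card R * Fintype.card R))
      · exact div_nonneg (ph_nonneg hB hC hle m g.2) (fin_pos hB hBf m).le
      · have h1 := ph_bound m hc
        have h2 := fin_ge hB hBf m
        have h3 := fin_pos hB hBf m
        change ph B m ((g : Matrix.unitaryGroup R ℂ) : Matrix R R ℂ) / _ ≤ _
        rw [div_le_iff₀ h3]
        refine h1.trans ?_
        have h4 : (0 : ℝ) < (Fintype.card R : ℝ) ^ (2 * m) := by positivity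
        have h5 : c ^ (2 * m) = (c ^ (2 * m) / (Fintype.card R : ℝ) ^ (2 * m)) *
            (Fintype.card R : ℝ) ^ (2 * m) := by
          field_simp
        calc c ^ (2 * m) = (c ^ (2 * m) / (Fintype.card R : ℝ) ^ (2 * m)) *
            (Fintype.card R : ℝ) ^ (2 * m) := h5
          _ ≤ (c ^ (2 * m) / (Fintype.card R : ℝ) ^ (2 * m)) *
            (((m : ℝ) + 1) ^ (Fintype.card R * Fintype.card R) *
              finrank ℂ (B (Fin (2 * m)))) :=
            mul_le_mul_of_nonneg_left h2 (by positivity)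
          _ = _ := by ring

end

end Pool.Agent.H25.HG
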