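import Mathlib

/-!
# The index and the measure of a subgroup, and packings
-/

set_option autoImplicit false

namespace Pool.Agent.H25.HG

open MeasureTheory Metric Module Set
open scoped ENNReal Pointwise

/-- A subgroup of infinite index is a null set. -/
lemma measure_zero_of_index {G : Type*} [Group G] [MeasurableSpace G] [MeasurableMul G]
    (μ : Measure G) [IsProbabilityMeasure μ] [μ.IsMulLeftInvariant] (H : Subgroup G)
    (hH : MeasurableSet (H : Set G)) (h0 : H.index = 0) : μ (H : Set G) = 0 := by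
  by_contra hne
  have hinf : Infinite (G ⧸ H) := by
    by_contra hcon
    have hfin : Finite (G ⧸ H) := not_infinite_iff_finite.1 hcon
    exact Subgroup.index_ne_zero_of_finite h0
  let f : ℕ ↪ G ⧸ H := Infinite.natEmbedding (G ⧸ H)
  let A : ℕ → Set G := fun n => (f n).out • (H : Set G)
  have hA : ∀ n, MeasurableSet (A n) := fun n => hH.const_smul _
  have hd : Pairwise (Function.onFun Disjoint A) := by
    intro n m hnm
    rw [Function.onFun, Set.disjoint_left]
    rintro x ⟨a, ha, rfl⟩ ⟨b, hb, hab⟩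
    apply hnm
    apply f.injective
    have h1 : (f n).out * a = (f m).out * b := hab.symm
    rw [← QuotientGroup.out_eq' (f n), ← QuotientGroup.out_eq' (f m), QuotientGroup.eq]
    have h2 : (f n).out⁻¹ * (f m).out = a * b⁻¹ := by
      rw [eq_mul_inv_iff_mul_eq, mul_assoc, ← h1, ← mul_assoc, inv_mul_cancel, one_mul]
    rw [h2]
    exact H.mul_mem ha (H.inv_mem hb)
  have h1 : μ (⋃ n, A n) = ∑' n, μ (A n) := measure_iUnion hd hA
  have h2 : ∀ n, μ (A n) = μ (H : Set G) := fun n => measure_smul μ _ _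
  simp only [h2] at h1
  rw [ENNReal.tsum_const_eq_top_of_ne_zero hne] at h1
  have h3 : μ (⋃ n, A n) ≤ 1 := prob_le_one
  rw [h1] at h3
  exact absurd h3 (by simp)

/-- The measure of a subgroup is the inverse of the index. -/
lemma measure_real_eq {G : Type*} [Group G] [MeasurableSpace G] [MeasurableMul G]
    (μ : Measure G) [IsProbabilityMeasure μ] [μ.IsMulLeftInvariant] (H : Subgroup G)
    (hH : MeasurableSet (H : Set G)) : μ.real (H : Set G) = (H.index : ℝ)⁻¹ := by
  by_cases h0 : H.index = 0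
  · rw [h0, Nat.cast_zero, inv_zero, Measure.real, measure_zero_of_index μ H hH h0]
    rfl
  · have hfi : H.FiniteIndex := ⟨h0⟩
    have h1 := Subgroup.index_mul_measure H hH μ
    rw [measure_univ] at h1
    have h2 := congrArg ENNReal.toReal h1
    rw [ENNReal.toReal_mul, ENNReal.toReal_natCast, ENNReal.toReal_one] at h2
    rw [Measure.real]
    exact eq_inv_of_mul_eq_one_right h2

/-- Separated points in the unit ball. -/
theorem card_le_packing {E : Type*} [NormedAddCommGroup E] [NormedSpace ℝ E]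
    [FiniteDimensional ℝ E] {ε : ℝ} (hε : 0 < ε) (s : Finset E) (hs : ∀ c ∈ s, ‖c‖ ≤ 1)
    (h : ∀ c ∈ s, ∀ d ∈ s, c ≠ d → ε ≤ ‖c - d‖) : (s.card : ℝ) ≤ (1 + 2 / ε) ^ finrank ℝ E := by
  borelize E
  let μ : Measure E := Measure.addHaar
  let δ : ℝ := ε / 2
  let ρ : ℝ := 1 + ε / 2
  have δpos : 0 < δ := by positivity
  have ρpos : 0 < ρ := by positivity
  set A := ⋃ c ∈ s, ball (c : E) δ with hA
  have D : Set.Pairwise (s : Set E) (Function.onFun Disjoint fun c => ball (c : E) δ) := by
    rintro c hc d hd hcd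
    apply ball_disjoint_ball
    rw [dist_eq_norm]
    have := h c hc d hd hcd
    change ε / 2 + ε / 2 ≤ _
    linarith
  have A_subset : A ⊆ ball (0 : E) ρ := by
    refine iUnion₂_subset fun x hx => ?_
    apply ball_subset_ball'
    rw [dist_zero_right]
    have := hs x hx
    change ε / 2 + ‖x‖ ≤ 1 + ε / 2
    linarith
  have I :
    (s.card : ℝ≥0∞) * ENNReal.ofReal (δ ^ finrank ℝ E) * μ (ball 0 1) ≤
      ENNReal.ofReal (ρ ^ finrank ℝ E) * μ (ball 0 1) :=
    calc
      (s.card : ℝ≥0∞) * ENNReal.ofReal (δ ^ finrank ℝ E) * μ (ball 0 1) = μ A := by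
        rw [hA, measure_biUnion_finset D fun c _ => measurableSet_ball]
        simp only [μ.addHaar_ball_of_pos _ δpos]
        simp only [Finset.sum_const, nsmul_eq_mul, mul_assoc]
      _ ≤ μ (ball (0 : E) ρ) := measure_mono A_subset
      _ = ENNReal.ofReal (ρ ^ finrank ℝ E) * μ (ball 0 1) := by
        simp only [μ.addHaar_ball_of_pos _ ρpos]
  have J : (s.card : ℝ≥0∞) * ENNReal.ofReal (δ ^ finrank ℝ E) ≤ ENNReal.ofReal (ρ ^ finrank ℝ E) :=
    (ENNReal.mul_le_mul_iff_left (measure_ball_pos _ _ zero_lt_one).ne' measure_ball_lt_top.ne).1 I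
  have K := ENNReal.toReal_le_of_le_ofReal (pow_nonneg ρpos.le _) J
  rw [ENNReal.toReal_mul, ENNReal.toReal_natCast, ENNReal.toReal_ofReal (by positivity)] at K
  have h1 : (1 + 2 / ε) ^ finrank ℝ E = ρ ^ finrank ℝ E / δ ^ finrank ℝ E := by
    rw [← div_pow]
    congr 1
    change 1 + 2 / ε = (1 + ε / 2) / (ε / 2)
    field_simp
    ring
  rw [h1, le_div_iff₀ (by positivity)]
  exact K

/-- The index of a subgroup whose cosets are separated. -/
theorem index_le_packing {G : Type*} [Group G] (H : Subgroup G) {E : Type*}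
    [NormedAddCommGroup E] [NormedSpace ℝ E] [FiniteDimensional ℝ E] (f : G → E)
    (hf : ∀ g, ‖f g‖ ≤ 1) {ε : ℝ} (hε : 0 < ε) (hsep : ∀ g h, g⁻¹ * h ∉ H → ε ≤ ‖f g - f h‖) :
    H.index ≠ 0 ∧ (H.index : ℝ) ≤ (1 + 2 / ε) ^ finrank ℝ E := by
  classical
  have hpos : (0 : ℝ) ≤ (1 + 2 / ε) ^ finrank ℝ E := by positivity
  have key : ∀ s : Finset (G ⧸ H), s.card ≤ ⌊(1 + 2 / ε) ^ finrank ℝ E⌋₊ := by
    intro s
    let F : G ⧸ H → E := fun x => f x.out
    have hne : ∀ x y : G ⧸ H, x ≠ y → ε ≤ ‖F x - F y‖ := by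
      intro x y hxy
      refine hsep _ _ fun hmem => hxy ?_
      rw [← QuotientGroup.out_eq' x, ← QuotientGroup.out_eq' y, QuotientGroup.eq]
      exact hmem
    have hinj : Function.Injective F := by
      intro x y hxy
      by_contra hcon
      have h1 := hne x y hcon
      rw [hxy, sub_self, norm_zero] at h1
      linarith
    have h1 := card_le_packing hε (s.image F) (by
      intro c hc
      obtain ⟨x, _, rfl⟩ := Finset.mem_image.1 hc
      exact hf _) (by
      intro c hc d hd hcd
      obtain ⟨x, _, rfl⟩ := Finset.mem_image.1 hc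
      obtain ⟨y, _, rfl⟩ := Finset.mem_image.1 hd
      exact hne x y fun h => hcd (by rw [h]))
    rw [Finset.card_image_of_injective _ hinj] at h1
    exact (Nat.le_floor_iff hpos).2 h1
  let _ : Fintype (G ⧸ H) := fintypeOfFinsetCardLe _ key
  have h1 : H.index = Fintype.card (G ⧸ H) := by
    rw [Subgroup.index, Nat.card_eq_fintype_card]
  refine ⟨?_, ?_⟩
  · rw [h1]
    exact Fintype.card_ne_zero
  · rw [h1]
    exact (Nat.le_floor_iff hpos).1 (key Finset.univ)

end Pool.Agent.H25.HG
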