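import Pool.Agent.H25.HG.A3
import Pool.Agent.H25.HG.A4

/-!
# The index of the smaller group
-/

set_option autoImplicit false
set_option linter.unusedSectionVars false
set_option linter.unusedDecidableInType false
set_option linter.unusedFintypeInType false

namespace Pool.Agent.H25.HG

open Matrix Finset Module MeasureTheory Filter Topology Pool.Agent.H204R3.SP
  Pool.Agent.H204R3.GP Pool.Agent.W516 Pool.Agent.X259.T Pool.Agent.X259.U
open scoped ComplexOrder

noncomputable section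

variable {R : Type} [Fintype R] [DecidableEq R] {Q : Type} [DecidableEq Q]
  {cls : R → Q} {inv : R → R} {jj : R → ℂ} {B C : ∀ κ : Type, Submodule ℂ ((κ → R) → ℂ)}

/-- The tensors of degree at most `N` of the family `C` determine the Lie algebra of the family
`B`. -/
def LieDetC (B C : ∀ κ : Type, Submodule ℂ ((κ → R) → ℂ)) (N : ℕ) : Prop :=
  ∀ A : Matrix R R ℂ, (∀ n ≤ N, ∀ F ∈ C (Fin n), dk (Fin n) A *ᵥ F = 0) →
    ∀ n, ∀ F ∈ B (Fin n), dk (Fin n) A *ᵥ F = 0

/-- An element whose eigenvalues are near to one and which fixes the tensors in low degree fixes all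
tensors. -/
lemma near_one_C {N : ℕ} (hN : 0 < N) (hL : LieDetC B C N) {g : Matrix R R ℂ}
    {P P' : Matrix R R ℂ}
    {μ : R → ℂ} (h1 : P' * P = 1) (h2 : P * P' = 1) (hg : g = P * Matrix.diagonal μ * P')
    (hμ : ∀ x, ‖μ x‖ = 1) (hθ : ∀ x, |(μ x).arg| < 2 * Real.pi / N)
    (hfix : ∀ n ≤ N, ∀ F ∈ C (Fin n), kr (Fin n) g *ᵥ F = F) (n : ℕ) (F : (Fin n → R) → ℂ)
    (hF : F ∈ B (Fin n)) : kr (Fin n) g *ᵥ F = F := by
  let θ : R → ℂ := fun x => ((μ x).arg : ℂ)
  have hprod : ∀ (n : ℕ) (I : Fin n → R), ∏ k, μ (I k) = Complex.exp ((∑ k, θ (I k)) * Complex.I) := by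
    intro n I
    rw [Finset.sum_mul, Complex.exp_sum]
    exact Finset.prod_congr rfl fun k _ => (exp_arg (hμ _)).symm
  have hA : ∀ n ≤ N, ∀ F ∈ C (Fin n), dk (Fin n) (P * Matrix.diagonal θ * P') *ᵥ F = 0 := by
    intro n hn F hF
    rw [dk_conj_diag h1 h2]
    have h3 : kr (Fin n) (Matrix.diagonal μ) *ᵥ (kr (Fin n) P' *ᵥ F) = kr (Fin n) P' *ᵥ F := by
      rw [← kr_conj_diag h1, ← hg, hfix n hn F hF]
    have h4 : dk (Fin n) (Matrix.diagonal θ) *ᵥ (kr (Fin n) P' *ᵥ F) = 0 := by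
      funext I
      rw [dk_diagonal_mulVec, Pi.zero_apply]
      have h5 := congrFun h3 I
      rw [kr_diagonal_mulVec] at h5
      by_cases h6 : (kr (Fin n) P' *ᵥ F) I = 0
      · rw [h6, mul_zero]
      · have h7 : ∏ k, μ (I k) = 1 := mul_right_cancel₀ h6 (by rw [h5, one_mul])
        rw [hprod] at h7
        have h8 : (∑ k, θ (I k)) = ((∑ k, (μ (I k)).arg : ℝ) : ℂ) := by
          push_cast
          rfl
        rw [Complex.exp_eq_one_iff] at h7
        obtain ⟨z, hz⟩ := h7
        rw [h8] at hz ⊢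
        have h9 : (∑ k, (μ (I k)).arg : ℝ) = z * (2 * Real.pi) := by
          have h10 : (((∑ k, (μ (I k)).arg : ℝ) : ℂ)) = ((z * (2 * Real.pi) : ℝ) : ℂ) := by
            apply mul_right_cancel₀ Complex.I_ne_zero
            rw [hz]
            push_cast
            ring
          exact_mod_cast h10
        have h11 : |(∑ k, (μ (I k)).arg : ℝ)| < 2 * Real.pi := by
          rcases Nat.eq_zero_or_pos n with h0 | h0
          · subst h0
            rw [Finset.univ_eq_empty, Finset.sum_empty, abs_zero]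
            positivity
          · have h12 : (∑ k : Fin n, |(μ (I k)).arg|) < ∑ _k : Fin n, 2 * Real.pi / N := by
              refine Finset.sum_lt_sum_of_nonempty ?_ fun k _ => hθ _
              exact ⟨⟨0, h0⟩, Finset.mem_univ _⟩
            rw [Finset.sum_const, Finset.card_univ, Fintype.card_fin, nsmul_eq_mul] at h12
            refine (Finset.abs_sum_le_sum_abs _ _).trans_lt (h12.trans_le ?_)
            have hN' : (0 : ℝ) < N := by exact_mod_cast hN
            have hn' : (n : ℝ) ≤ N := by exact_mod_cast hn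
            rw [mul_div_assoc', div_le_iff₀ hN']
            have := Real.pi_pos
            nlinarith
        have h13 : z = 0 := by
          rw [h9, abs_mul, abs_of_pos (by positivity : (0 : ℝ) < 2 * Real.pi)] at h11
          have h14 : |(z : ℝ)| < 1 := by
            have : (0 : ℝ) < 2 * Real.pi := by positivity
            by_contra hcon
            push Not at hcon
            nlinarith
          have h15 : |z| < 1 := by exact_mod_cast h14
          exact Int.abs_lt_one_iff.1 h15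
        rw [h9, h13]
        simp
    rw [h4, Matrix.mulVec_zero]
  have h3 := hL _ hA n F hF
  rw [dk_conj_diag h1 h2] at h3
  have h4 := kr_inj h1 h3
  have h5 : kr (Fin n) (Matrix.diagonal μ) *ᵥ (kr (Fin n) P' *ᵥ F) = kr (Fin n) P' *ᵥ F := by
    funext I
    rw [kr_diagonal_mulVec]
    have h6 := congrFun h4 I
    rw [dk_diagonal_mulVec, Pi.zero_apply] at h6
    rcases mul_eq_zero.1 h6 with h7 | h7
    · rw [hprod, h7, zero_mul, Complex.exp_zero, one_mul]
    · rw [h7, mul_zero]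
  rw [← kr_conj_diag h1, ← hg] at h5
  have h6 := congrArg (fun x => kr (Fin n) P *ᵥ x) h5
  simp only [Matrix.mulVec_mulVec, ← kr_mul] at h6
  rw [← mul_assoc, h2, one_mul, kr_one, Matrix.one_mulVec] at h6
  exact h6

/-- An element outside of the smaller group has an eigenvalue far from one. -/
lemma exists_far_eig {N : ℕ} (hN : 0 < N) (hL : LieDetC B C N) {g : Matrix.unitaryGroup R ℂ}
    (hgC : g ∈ stabG (tens C)) (hg : g ∉ stabG (tens B)) {P P' : Matrix R R ℂ} {μ : R → ℂ}
    (h1 : P' * P = 1) (h2 : P * P' = 1) (hgP : (g : Matrix R R ℂ) = P * Matrix.diagonal μ * P')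
    (hμ : ∀ x, ‖μ x‖ = 1) : ∃ x, 2 * Real.pi / N ≤ |(μ x).arg| := by
  by_contra hcon
  push Not at hcon
  exact hg fun s hs => near_one_C hN hL h1 h2 hgP hμ hcon (fun n _ F hF => hgC ⟨n, F⟩ hF)
    s.1 s.2 hs

/-- The gap of the real part of the trace. -/
lemma gap_C (hB : Bas cls inv jj) (hC : Fam cls inv jj C) {N : ℕ} (hN : 2 ≤ N)
    (hL : LieDetC B C N) (g : Matrix.unitaryGroup R ℂ) (hgC : g ∈ stabG (tens C))
    (hg : g ∉ stabG (tens B)) :
    ((g : Matrix R R ℂ).trace).re ≤ Fintype.card R - 2 * (1 - Real.cos (2 * Real.pi / N)) := by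
  obtain ⟨P, P', μ, h1, h2, hgP, hμ⟩ := exists_diag g
  obtain ⟨x, hx⟩ := exists_far_eig (by omega) hL hgC hg h1 h2 hgP hμ
  obtain ⟨x', hx', hxx'⟩ := exists_conj hB (stab_le hC hgC) h1 h2 hgP hμ x
  have h4 : (g : Matrix R R ℂ).trace = ∑ x, μ x := by
    rw [hgP, Matrix.trace_mul_comm, ← mul_assoc, h1, one_mul, Matrix.trace_diagonal]
  rw [h4, Complex.re_sum, ← Finset.add_sum_erase _ _ (Finset.mem_univ x),
    ← Finset.add_sum_erase _ _ (Finset.mem_erase.2 ⟨hx', Finset.mem_univ x'⟩)]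
  have h5 : ∀ y, (μ y).re ≤ 1 := fun y => (Complex.re_le_norm _).trans (hμ y).le
  have h6 : ∑ y ∈ (Finset.univ.erase x).erase x', (μ y).re ≤ Fintype.card R - 2 := by
    refine (Finset.sum_le_sum fun y _ => h5 y).trans ?_
    have hc : 2 ≤ Fintype.card R := by
      have : ({x, x'} : Finset R).card = 2 := Finset.card_pair (Ne.symm hx')
      rw [← this]
      exact Finset.card_le_univ _
    rw [Finset.sum_const, Finset.card_erase_of_mem (Finset.mem_erase.2 ⟨hx', Finset.mem_univ x'⟩),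
      Finset.card_erase_of_mem (Finset.mem_univ x), Finset.card_univ, nsmul_eq_mul, mul_one,
      Nat.sub_sub, Nat.cast_sub hc]
    norm_num
  have h7 : (μ x).re ≤ Real.cos (2 * Real.pi / N) := by
    have h8 : (μ x).re = Real.cos (μ x).arg := by
      have h9 : μ x ≠ 0 := by
        intro h
        have := hμ x
        rw [h, norm_zero] at this
        exact zero_ne_one this
      rw [Complex.cos_arg h9, hμ, div_one]
    rw [h8, ← Real.cos_abs (μ x).arg]
    refine Real.cos_le_cos_of_nonneg_of_le_pi ?_ (Complex.abs_arg_le_pi _) hx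
    positivity
  have h8 : (μ x').re = (μ x).re := by
    rw [hxx']
    rfl
  linarith

open scoped Matrix.Norms.L2Operator in
/-- The operator norm is at least the absolute value of an eigenvalue. -/
lemma eig_le_norm {A : Matrix R R ℂ} {c : ℂ} {v : R → ℂ} (hv : v ≠ 0) (h : A *ᵥ v = c • v) :
    ‖c‖ ≤ ‖A‖ := by
  have h1 := Matrix.l2_opNorm_mulVec A (WithLp.toLp 2 v)
  have h2 : (EuclideanSpace.equiv R ℂ).symm (A *ᵥ (WithLp.toLp 2 v : EuclideanSpace ℂ R)) =
      c • (WithLp.toLp 2 v : EuclideanSpace ℂ R) := by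
    change WithLp.toLp 2 (A *ᵥ v) = c • WithLp.toLp 2 v
    rw [h]
    rfl
  rw [h2, norm_smul] at h1
  have h3 : 0 < ‖(WithLp.toLp 2 v : EuclideanSpace ℂ R)‖ := by
    rw [norm_pos_iff]
    intro h0
    apply hv
    have h4 := congrArg (WithLp.ofLp) h0
    exact h4
  exact le_of_mul_le_mul_right h1 h3

open scoped Matrix.Norms.L2Operator in
/-- The cosets are separated. -/
lemma sep_C {N : ℕ} (hN : 2 ≤ N) (hL : LieDetC B C N) {ε : ℝ}
    (hε : ε ^ 2 ≤ 2 * (1 - Real.cos (2 * Real.pi / N)))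
    {g h : Matrix.unitaryGroup R ℂ} (hg : g ∈ stabG (tens C)) (hh : h ∈ stabG (tens C))
    (hgh : g⁻¹ * h ∉ stabG (tens B)) : ε ≤ ‖(g : Matrix R R ℂ) - (h : Matrix R R ℂ)‖ := by
  have hu : g⁻¹ * h ∈ stabG (tens C) :=
    (stabG (tens C)).mul_mem ((stabG (tens C)).inv_mem hg) hh
  obtain ⟨P, P', μ, h1, h2, hgP, hμ⟩ := exists_diag (g⁻¹ * h)
  obtain ⟨x, hx⟩ := exists_far_eig (by omega) hL hu hgh h1 h2 hgP hμ
  have h3 : (g : Matrix R R ℂ) - (h : Matrix R R ℂ) =
      (g : Matrix R R ℂ) * (1 - ((g⁻¹ * h : Matrix.unitaryGroup R ℂ) : Matrix R R ℂ)) := by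
    rw [mul_sub, mul_one]
    congr 1
    change (h : Matrix R R ℂ) = ((g * (g⁻¹ * h) : Matrix.unitaryGroup R ℂ) : Matrix R R ℂ)
    rw [mul_inv_cancel_left]
  have h4 : ‖(g : Matrix R R ℂ) - (h : Matrix R R ℂ)‖ =
      ‖1 - ((g⁻¹ * h : Matrix.unitaryGroup R ℂ) : Matrix R R ℂ)‖ := by
    rw [h3]
    exact CStarRing.norm_coe_unitary_mul g _
  -- the eigenvector
  have h5 : P *ᵥ (Pi.single x 1) ≠ 0 := by
    intro h0
    have h6 := congrArg (fun v => P' *ᵥ v) h0
    simp only [Matrix.mulVec_mulVec, h1, Matrix.one_mulVec, Matrix.mulVec_zero] at h6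
    have h7 := congrFun h6 x
    rw [Pi.single_eq_same] at h7
    exact one_ne_zero h7
  have h6 : (1 - ((g⁻¹ * h : Matrix.unitaryGroup R ℂ) : Matrix R R ℂ)) *ᵥ
      (P *ᵥ (Pi.single x 1)) = (1 - μ x) • (P *ᵥ (Pi.single x 1)) := by
    rw [Matrix.sub_mulVec, Matrix.one_mulVec, sub_smul, one_smul]
    congr 1
    rw [hgP, Matrix.mulVec_mulVec, mul_assoc, h1, mul_one, ← Matrix.mulVec_mulVec,
      ← Matrix.mulVec_smul]
    congr 1
    funext y
    rw [Matrix.mulVec_diagonal, Pi.smul_apply, smul_eq_mul]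
    by_cases hy : y = x
    · subst hy
      rfl
    · rw [Pi.single_eq_of_ne hy, mul_zero, mul_zero]
  have h7 := eig_le_norm h5 h6
  rw [h4]
  refine le_trans ?_ h7
  have h8 : ‖1 - μ x‖ ^ 2 = 2 * (1 - Real.cos (μ x).arg) := by
    have h9 : μ x ≠ 0 := by
      intro h
      have := hμ x
      rw [h, norm_zero] at this
      exact zero_ne_one this
    rw [Complex.cos_arg h9, hμ, div_one]
    have h10 : Complex.normSq (μ x) = 1 := by
      rw [Complex.normSq_eq_norm_sq, hμ x, one_pow]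
    rw [Complex.normSq_apply] at h10
    rw [← Complex.normSq_eq_norm_sq, Complex.normSq_apply]
    simp only [Complex.sub_re, Complex.sub_im, Complex.one_re, Complex.one_im]
    nlinarith
  have h9 : Real.cos (μ x).arg ≤ Real.cos (2 * Real.pi / N) := by
    rw [← Real.cos_abs (μ x).arg]
    refine Real.cos_le_cos_of_nonneg_of_le_pi ?_ (Complex.abs_arg_le_pi _) hx
    positivity
  refine le_of_sq_le_sq ?_ (norm_nonneg _)
  rw [h8]
  linarith

open scoped Matrix.Norms.L2Operator in
/-- The real structure of the normed space of the matrices. -/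
@[reducible] def nsp (R : Type) [Fintype R] [DecidableEq R] : NormedSpace ℝ (Matrix R R ℂ) where
  norm_smul_le r A := by
    have h1 : r • A = (r : ℂ) • A := by
      ext i j
      rw [Matrix.smul_apply, Matrix.smul_apply, Complex.real_smul, smul_eq_mul]
    rw [h1, norm_smul, Complex.norm_real]

open scoped Matrix.Norms.L2Operator in
/-- **The index.** -/
theorem index_C [Nonempty R] {N : ℕ} (hN : 2 ≤ N) (hL : LieDetC B C N) {ε : ℝ} (hε0 : 0 < ε)
    (hε : ε ^ 2 ≤ 2 * (1 - Real.cos (2 * Real.pi / N))) (L : Submodule ℝ (Matrix R R ℂ))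
    (hGL : ∀ g ∈ stabG (tens C), (g : Matrix R R ℂ) ∈ L) :
    ((stabG (tens B)).subgroupOf (stabG (tens C))).index ≠ 0 ∧
      (((stabG (tens B)).subgroupOf (stabG (tens C))).index : ℝ) ≤
        (1 + 2 / ε) ^ finrank ℝ L := by
  let _ := nsp R
  refine index_le_packing ((stabG (tens B)).subgroupOf (stabG (tens C)))
    (f := fun g : stabG (tens C) => (⟨((g : Matrix.unitaryGroup R ℂ) : Matrix R R ℂ),
      hGL g g.2⟩ : L)) (fun g => ?_) hε0 (fun g h hgh => ?_)
  · change ‖((g : Matrix.unitaryGroup R ℂ) : Matrix R R ℂ)‖ ≤ 1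
    exact (CStarRing.norm_coe_unitary _).le
  · exact sep_C hN hL hε g.2 h.2 fun h' => hgh (Subgroup.mem_subgroupOf.2 h')

end

end Pool.Agent.H25.HG
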