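import Pool.Agent.H25.HG.A5

/-!
# The formula for the dimensions, and the Casimir tensor
-/

set_option autoImplicit false
set_option linter.unusedSectionVars false
set_option linter.unusedDecidableInType false
set_option linter.unusedFintypeInType false

namespace Pool.Agent.H25.HG

open Matrix Finset Module MeasureTheory Filter Topology Pool.Agent.H204R3.SP
  Pool.Agent.H204R3.GP Pool.Agent.W516 Pool.Agent.X259.T Pool.Agent.X259.U
open scoped ComplexOrder

noncomputable section

variable {R : Type} [Fintype R] [DecidableEq R] {Q : Type} [DecidableEq Q]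
  {cls : R → Q} {inv : R → R} {jj : R → ℂ} {B C : ∀ κ : Type, Submodule ℂ ((κ → R) → ℂ)}

/-- The index of the smaller group in the larger group. -/
def ind (B C : ∀ κ : Type, Submodule ℂ ((κ → R) → ℂ)) : ℕ :=
  ((stabG (tens B)).subgroupOf (stabG (tens C))).index

lemma meas_eq [MeasurableSpace (stabG (tens C))] [BorelSpace (stabG (tens C))] :
    (hm (stabG (tens C))).real ((stabG (tens B)).subgroupOf (stabG (tens C)) :
        Set (stabG (tens C))) = ((ind B C : ℕ) : ℝ)⁻¹ := by
  have hcl : IsClosed ((stabG (tens B)).subgroupOf (stabG (tens C)) : Set (stabG (tens C))) :=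
    (stab_closed (tens B)).preimage continuous_subtype_val
  exact measure_real_eq _ _ hcl.measurableSet

/-- **The limit of the proportion** is the inverse of the index. -/
theorem ratio_tendsto' [Nonempty R] (hB : Bas cls inv jj) (hC : Fam cls inv jj C)
    (hBf : Fam cls inv jj B)
    (hle : ∀ κ : Type, C κ ≤ B κ) (hodd : ∀ n, Odd n → ∀ F ∈ B (Fin n), F = 0) :
    Tendsto (fun m : ℕ => (finrank ℂ (C (Fin (2 * m))) : ℝ) / finrank ℂ (B (Fin (2 * m)))) atTop
      (𝓝 ((ind B C : ℕ) : ℝ)⁻¹) := by
  let _ : MeasurableSpace (stabG (tens C)) := borel _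
  have _ : BorelSpace (stabG (tens C)) := ⟨rfl⟩
  have h1 := ratio_tendsto hB hC hBf hle hodd
  rwa [meas_eq] at h1

/-- **The formula for the dimensions.** -/
theorem formula (hB : Bas cls inv jj) (hC : Fam cls inv jj C) (hBf : Fam cls inv jj B)
    (hle : ∀ κ : Type, C κ ≤ B κ) (hodd : ∀ n, Odd n → ∀ F ∈ B (Fin n), F = 0) {N : ℕ}
    (hN : 2 ≤ N) (hL : LieDetC B C N) (hind : ind B C ≠ 0) (m : ℕ) :
    (finrank ℂ (B (Fin (2 * m))) : ℝ) ≤ (ind B C : ℝ) * finrank ℂ (C (Fin (2 * m))) ∧
    (ind B C : ℝ) * finrank ℂ (C (Fin (2 * m))) ≤ finrank ℂ (B (Fin (2 * m))) +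
      ((ind B C : ℝ) - 1) *
        (Fintype.card R - 2 * (1 - Real.cos (2 * Real.pi / N))) ^ (2 * m) := by
  let _ : MeasurableSpace (stabG (tens C)) := borel _
  have _ : BorelSpace (stabG (tens C)) := ⟨rfl⟩
  set c : ℝ := Fintype.card R - 2 * (1 - Real.cos (2 * Real.pi / N)) with hc
  set Hs : Set (stabG (tens C)) := ((stabG (tens B)).subgroupOf (stabG (tens C)) :
        Set (stabG (tens C))) with hHs
  have hcl : IsClosed Hs := (stab_closed (tens B)).preimage continuous_subtype_val
  have hms : MeasurableSet Hs := hcl.measurableSet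
  have hmu : (hm (stabG (tens C))).real Hs = ((ind B C : ℕ) : ℝ)⁻¹ := meas_eq
  have hmu' : (hm (stabG (tens C))).real Hsᶜ = 1 - ((ind B C : ℕ) : ℝ)⁻¹ := by
    rw [probReal_compl_eq_one_sub hms, hmu]
  have hk0 : (0 : ℝ) < ind B C := by
    have : 0 < ind B C := Nat.pos_of_ne_zero hind
    exact_mod_cast this
  set h : ℝ := (finrank ℂ (B (Fin (2 * m))) : ℝ) with hh
  have hint := int_ph (B := B) (C := C) hB hC hle m
  have hF : Integrable (fun g : stabG (tens C) => ph B m (inc (stabG (tens C)) g))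
      (hm (stabG (tens C))) :=
    (ph_cont (B := B) (C := C) m).integrable_of_hasCompactSupport
      (HasCompactSupport.of_compactSpace _)
  have hin : ∀ g ∈ Hs, ph B m (inc (stabG (tens C)) g) = h := fun g hg =>
    ph_eq hB hBf m (g := (g : Matrix.unitaryGroup R ℂ)) hg
  have hout : ∀ g ∉ Hs, ph B m (inc (stabG (tens C)) g) ≤ c ^ (2 * m) := by
    intro g hg
    refine ph_bound m (q := (g : Matrix.unitaryGroup R ℂ)) (norm_of_re hB hC hle hodd g.2
      fun g' hg' => ?_)
    refine gap_C hB hC hN hL _ ((stabG (tens C)).mul_mem g.2 (sub_stab hle hg')) fun h1 => hg ?_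
    have h2 := (stabG (tens B)).mul_mem h1 ((stabG (tens B)).inv_mem hg')
    rw [mul_inv_cancel_right] at h2
    exact h2
  have hnn : ∀ g : stabG (tens C), 0 ≤ ph B m (inc (stabG (tens C)) g) := fun g =>
    ph_nonneg hB hC hle m g.2
  have hlow : ((ind B C : ℕ) : ℝ)⁻¹ * h ≤ finrank ℂ (C (Fin (2 * m))) := by
    rw [← hint, ← hmu]
    have h1 : (hm (stabG (tens C))).real Hs * h =
        ∫ g, Hs.indicator (fun _ => h) g ∂(hm (stabG (tens C))) := by
      rw [integral_indicator_const h hms, smul_eq_mul]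
    rw [h1]
    refine integral_mono ((integrable_const h).indicator hms) hF fun g => ?_
    by_cases hg : g ∈ Hs
    · simp only [Set.indicator_of_mem hg]
      rw [hin g hg]
    · simp only [Set.indicator_of_notMem hg]
      exact hnn g
  have hupp : (finrank ℂ (C (Fin (2 * m))) : ℝ) ≤ ((ind B C : ℕ) : ℝ)⁻¹ * h +
      (1 - ((ind B C : ℕ) : ℝ)⁻¹) * c ^ (2 * m) := by
    rw [← hint, ← hmu', ← hmu]
    have h1 : (hm (stabG (tens C))).real Hs * h =
        ∫ g, Hs.indicator (fun _ => h) g ∂(hm (stabG (tens C))) := by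
      rw [integral_indicator_const h hms, smul_eq_mul]
    have h2 : (hm (stabG (tens C))).real Hsᶜ * c ^ (2 * m) =
        ∫ g, Hsᶜ.indicator (fun _ => c ^ (2 * m)) g ∂(hm (stabG (tens C))) := by
      rw [integral_indicator_const _ hms.compl, smul_eq_mul]
    rw [h1, h2, ← integral_add ((integrable_const h).indicator hms)
      ((integrable_const _).indicator hms.compl)]
    refine integral_mono hF (((integrable_const h).indicator hms).add
      ((integrable_const _).indicator hms.compl)) fun g => ?_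
    by_cases hg : g ∈ Hs
    · have hg' : g ∉ Hsᶜ := fun h => h hg
      simp only [Pi.add_apply, Set.indicator_of_mem hg, Set.indicator_of_notMem hg', add_zero]
      rw [hin g hg]
    · have hg' : g ∈ Hsᶜ := hg
      simp only [Pi.add_apply, Set.indicator_of_notMem hg, Set.indicator_of_mem hg', zero_add]
      exact hout g hg
  constructor
  · have h1 := mul_le_mul_of_nonneg_left hlow hk0.le
    rwa [← mul_assoc, mul_inv_cancel₀ hk0.ne', one_mul] at h1
  · have h1 := mul_le_mul_of_nonneg_left hupp hk0.le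
    have h2 : (ind B C : ℝ) * (((ind B C : ℕ) : ℝ)⁻¹ * h +
        (1 - ((ind B C : ℕ) : ℝ)⁻¹) * c ^ (2 * m)) = h + ((ind B C : ℝ) - 1) * c ^ (2 * m) := by
      field_simp
    rwa [h2] at h1

end

end Pool.Agent.H25.HG
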