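import Pool.Agent.H25.HG.A6

/-!
# A subgroup of finite index has the same Lie algebra
-/

set_option autoImplicit false
set_option linter.unusedSectionVars false
set_option linter.unusedDecidableInType false
set_option linter.unusedFintypeInType false

namespace Pool.Agent.H25.HG

open Matrix Finset Module MeasureTheory Filter Topology Pool.Agent.H204R3.SP
  Pool.Agent.H204R3.GP Pool.Agent.W516 Pool.Agent.X259.T Pool.Agent.X259.U
open scoped ComplexOrder

noncomputable section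

variable {R : Type} [Fintype R] [DecidableEq R] {Q : Type} [DecidableEq Q]
  {cls : R → Q} {inv : R → R} {jj : R → ℂ} {B C : ∀ κ : Type, Submodule ℂ ((κ → R) → ℂ)}

/-- Diagonalization of a skew-Hermitian matrix. -/
lemma exists_diag_skew' {H : Matrix R R ℂ} (hH : Hᴴ = -H) :
    ∃ (U : Matrix.unitaryGroup R ℂ) (θ : R → ℝ),
      H = (U : Matrix R R ℂ) * Matrix.diagonal (fun x => Complex.I * (θ x : ℂ)) *
        (U : Matrix R R ℂ)ᴴ := by
  have h1 : (Complex.I • H).IsHermitian := by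
    change (Complex.I • H)ᴴ = Complex.I • H
    rw [Matrix.conjTranspose_smul, hH]
    simp
  have h2 := h1.spectral_theorem
  rw [Unitary.conjStarAlgAut_apply] at h2
  refine ⟨h1.eigenvectorUnitary, fun x => -(h1.eigenvalues x), ?_⟩
  have h5 : H = -Complex.I • (Complex.I • H) := by
    rw [smul_smul, neg_mul, Complex.I_mul_I, neg_neg, one_smul]
  refine h5.trans ((congrArg (fun M => -Complex.I • M) h2).trans ?_)
  have h6 : Matrix.diagonal (fun x => Complex.I * ((-(h1.eigenvalues x) : ℝ) : ℂ)) =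
      -Complex.I • Matrix.diagonal (RCLike.ofReal ∘ h1.eigenvalues) := by
    ext i j
    by_cases hij : i = j
    · subst hij
      simp
    · simp [Matrix.diagonal_apply_ne _ hij]
  rw [h6, Matrix.mul_smul, Matrix.smul_mul]
  rfl

/-- The exponential of a diagonal matrix. -/
def ed (θ : R → ℝ) (t : ℝ) : Matrix R R ℂ :=
  Matrix.diagonal fun x => Complex.exp (Complex.I * (t * θ x : ℝ))

lemma ed_prod {n : ℕ} (θ : R → ℝ) (t : ℝ) (I : Fin n → R) :
    ∏ k, Complex.exp (Complex.I * (t * θ (I k) : ℝ)) =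
      Complex.exp (Complex.I * (t * ∑ k, θ (I k) : ℝ)) := by
  rw [← Complex.exp_sum]
  congr 1
  push_cast
  rw [Finset.mul_sum, Finset.mul_sum]

lemma ed_fix {P P' : Matrix R R ℂ} (h1 : P' * P = 1) (h2 : P * P' = 1) {θ : R → ℝ} {n : ℕ}
    {F : (Fin n → R) → ℂ}
    (hF : dk (Fin n) (P * Matrix.diagonal (fun x => Complex.I * (θ x : ℂ)) * P') *ᵥ F = 0) (t : ℝ) :
    kr (Fin n) (P * ed θ t * P') *ᵥ F = F := by
  rw [dk_conj_diag h1 h2] at hF
  have h4 := kr_inj h1 hF
  have h5 : kr (Fin n) (ed θ t) *ᵥ (kr (Fin n) P' *ᵥ F) = kr (Fin n) P' *ᵥ F := by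
    funext I
    rw [ed, kr_diagonal_mulVec, ed_prod]
    have h6 := congrFun h4 I
    rw [dk_diagonal_mulVec, Pi.zero_apply, ← Finset.mul_sum] at h6
    rcases mul_eq_zero.1 h6 with h7 | h7
    · have h8 := (mul_eq_zero.1 h7).resolve_left Complex.I_ne_zero
      have h9 : (∑ k, θ (I k)) = 0 := by exact_mod_cast h8
      rw [h9, mul_zero, Complex.ofReal_zero, mul_zero, Complex.exp_zero, one_mul]
    · rw [h7, mul_zero]
  rw [← kr_conj_diag h1] at h5
  have h6 := congrArg (fun x => kr (Fin n) P *ᵥ x) h5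
  simp only [Matrix.mulVec_mulVec, ← kr_mul] at h6
  rw [← mul_assoc, h2, one_mul, kr_one, Matrix.one_mulVec] at h6
  exact h6

lemma of_ed_fix {P P' : Matrix R R ℂ} (h1 : P' * P = 1) (h2 : P * P' = 1) {θ : R → ℝ} {n : ℕ}
    {F : (Fin n → R) → ℂ} (hF : ∀ t : ℝ, kr (Fin n) (P * ed θ t * P') *ᵥ F = F) :
    dk (Fin n) (P * Matrix.diagonal (fun x => Complex.I * (θ x : ℂ)) * P') *ᵥ F = 0 := by
  rw [dk_conj_diag h1 h2]
  have h4 : dk (Fin n) (Matrix.diagonal fun x => Complex.I * (θ x : ℂ)) *ᵥ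
      (kr (Fin n) P' *ᵥ F) = 0 := by
    funext I
    rw [dk_diagonal_mulVec, Pi.zero_apply]
    by_cases h6 : (kr (Fin n) P' *ᵥ F) I = 0
    · rw [h6, mul_zero]
    · have h7 : ∀ t : ℝ, Complex.exp (Complex.I * (t * ∑ k, θ (I k) : ℝ)) = 1 := by
        intro t
        have h5 := congrFun (congrArg (fun x => kr (Fin n) P' *ᵥ x) (hF t)) I
        rw [kr_conj_diag h1, ed, kr_diagonal_mulVec, ed_prod] at h5
        exact mul_right_cancel₀ h6 (by rw [h5, one_mul])
      have h8 : (∑ k, θ (I k)) = 0 := by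
        by_contra hne
        have h9 := h7 (Real.pi / ∑ k, θ (I k))
        rw [div_mul_cancel₀ _ hne, mul_comm, Complex.exp_pi_mul_I] at h9
        norm_num at h9
      rw [← Finset.mul_sum]
      have h9 : (∑ k, (θ (I k) : ℂ)) = 0 := by exact_mod_cast h8
      rw [h9, mul_zero, zero_mul]
  rw [h4, Matrix.mulVec_zero]

lemma ed_star (θ : R → ℝ) (t : ℝ) : ed θ t * (ed θ t)ᴴ = 1 := by
  rw [ed, Matrix.diagonal_conjTranspose, Matrix.diagonal_mul_diagonal, ← Matrix.diagonal_one]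
  congr 1
  funext x
  rw [Pi.star_apply]
  change Complex.exp _ * (starRingEnd ℂ) (Complex.exp _) = 1
  rw [← Complex.exp_conj, ← Complex.exp_add, map_mul, Complex.conj_I, Complex.conj_ofReal]
  rw [neg_mul, add_neg_cancel, Complex.exp_zero]

lemma ed_pow (θ : R → ℝ) (t : ℝ) (K : ℕ) : ed θ t ^ K = ed θ (K * t) := by
  rw [ed, Matrix.diagonal_pow, ed]
  congr 1
  funext x
  rw [Pi.pow_apply, ← Complex.exp_nat_mul]
  congr 1
  push_cast
  ring

/-- The unitary matrix `U exp (t A) U⁻¹`. -/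
def eu (U : Matrix.unitaryGroup R ℂ) (θ : R → ℝ) (t : ℝ) : Matrix.unitaryGroup R ℂ :=
  U * ⟨ed θ t, Matrix.mem_unitaryGroup_iff.2 (ed_star θ t)⟩ * U⁻¹

lemma eu_coe (U : Matrix.unitaryGroup R ℂ) (θ : R → ℝ) (t : ℝ) :
    (eu U θ t : Matrix R R ℂ) = (U : Matrix R R ℂ) * ed θ t * (U : Matrix R R ℂ)ᴴ := rfl

lemma eu_pow (U : Matrix.unitaryGroup R ℂ) (θ : R → ℝ) (t : ℝ) (K : ℕ) :
    eu U θ t ^ K = eu U θ (K * t) := by
  rw [eu, eu, conj_pow]
  congr 2
  apply Subtype.ext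
  change ((⟨ed θ t, _⟩ : Matrix.unitaryGroup R ℂ) : Matrix R R ℂ) ^ K = ed θ (K * t)
  exact ed_pow θ t K

/-- A subgroup of finite index contains the one-parameter groups. -/
lemma eu_mem (hind : ind B C ≠ 0) {U : Matrix.unitaryGroup R ℂ} {θ : R → ℝ}
    (h : ∀ t, eu U θ t ∈ stabG (tens C)) (t : ℝ) : eu U θ t ∈ stabG (tens B) := by
  set k := ind B C with hk
  let x : stabG (tens C) := ⟨eu U θ (t / (k.factorial : ℝ)), h _⟩
  obtain ⟨n, hn0, hnk, hn⟩ := Subgroup.exists_pow_mem_of_index_ne_zero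
    (H := (stabG (tens B)).subgroupOf (stabG (tens C))) hind x
  have h1 : eu U θ (t / (k.factorial : ℝ)) ^ n ∈ stabG (tens B) := hn
  obtain ⟨j, hj⟩ := Nat.dvd_factorial hn0 hnk
  have h2 : (eu U θ (t / (k.factorial : ℝ)) ^ n) ^ j ∈ stabG (tens B) :=
    (stabG (tens B)).pow_mem h1 j
  have hj' : k.factorial = n * j := hj
  rw [← pow_mul, ← hj', eu_pow] at h2
  have h3 : ((k.factorial : ℕ) : ℝ) * (t / (k.factorial : ℝ)) = t := by
    have : (k.factorial : ℝ) ≠ 0 := by exact_mod_cast k.factorial_ne_zero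
    field_simp
  rwa [h3] at h2

/-- The larger group normalizes the Lie algebra if the index is finite. -/
theorem LL_norm (hB : Bas cls inv jj) (hBf : Fam cls inv jj B) (hle : ∀ κ : Type, C κ ≤ B κ)
    (hind : ind B C ≠ 0) {g : Matrix.unitaryGroup R ℂ} (hg : g ∈ stabG (tens C))
    {A : Matrix R R ℂ} (hA : A ∈ LL B) : (g : Matrix R R ℂ) * A * (g : Matrix R R ℂ)ᴴ ∈ LL B := by
  have key : ∀ A ∈ LL B, Aᴴ = -A → (g : Matrix R R ℂ) * A * (g : Matrix R R ℂ)ᴴ ∈ LL B := by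
    intro A hA hsk
    obtain ⟨U, θ, hU⟩ := exists_diag_skew' hsk
    have hU1 : (U : Matrix R R ℂ)ᴴ * (U : Matrix R R ℂ) = 1 := Matrix.mem_unitaryGroup_iff'.1 U.2
    have hU2 : (U : Matrix R R ℂ) * (U : Matrix R R ℂ)ᴴ = 1 := Matrix.mem_unitaryGroup_iff.1 U.2
    have h1 : ∀ t, eu U θ t ∈ stabG (tens B) := by
      intro t s hs
      rw [eu_coe]
      refine ed_fix hU1 hU2 ?_ t
      rw [← hU]
      exact hA s.1 s.2 hs
    have h2 : ∀ t, eu (g * U) θ t ∈ stabG (tens C) := by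
      intro t
      have h3 : eu (g * U) θ t = g * eu U θ t * g⁻¹ := by
        rw [eu, eu]
        group
      rw [h3]
      exact (stabG (tens C)).mul_mem ((stabG (tens C)).mul_mem hg (sub_stab hle (h1 t)))
        ((stabG (tens C)).inv_mem hg)
    have h3 := eu_mem hind h2
    have hV1 : ((g * U : Matrix.unitaryGroup R ℂ) : Matrix R R ℂ)ᴴ *
        ((g * U : Matrix.unitaryGroup R ℂ) : Matrix R R ℂ) = 1 :=
      Matrix.mem_unitaryGroup_iff'.1 (g * U).2
    have hV2 : ((g * U : Matrix.unitaryGroup R ℂ) : Matrix R R ℂ) *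
        ((g * U : Matrix.unitaryGroup R ℂ) : Matrix R R ℂ)ᴴ = 1 :=
      Matrix.mem_unitaryGroup_iff.1 (g * U).2
    have h4 : (g : Matrix R R ℂ) * A * (g : Matrix R R ℂ)ᴴ =
        ((g * U : Matrix.unitaryGroup R ℂ) : Matrix R R ℂ) *
          Matrix.diagonal (fun x => Complex.I * (θ x : ℂ)) *
          ((g * U : Matrix.unitaryGroup R ℂ) : Matrix R R ℂ)ᴴ := by
      have h5 : ((g * U : Matrix.unitaryGroup R ℂ) : Matrix R R ℂ) =
          (g : Matrix R R ℂ) * (U : Matrix R R ℂ) := rfl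
      rw [h5, Matrix.conjTranspose_mul, hU]
      simp only [mul_assoc]
    rw [h4]
    intro n F hF
    refine of_ed_fix hV1 hV2 fun t => ?_
    rw [← eu_coe]
    exact h3 t ⟨n, F⟩ hF
  have hAs := LL_star hB hBf hA
  have h1 := key ((1 / 2 : ℂ) • (A - Aᴴ))
    (Submodule.smul_mem _ _ (Submodule.sub_mem _ hA hAs)) (by
      rw [Matrix.conjTranspose_smul, Matrix.conjTranspose_sub, Matrix.conjTranspose_conjTranspose,
        ← smul_neg, neg_sub]
      simp)
  have h2 := key ((-Complex.I / 2 : ℂ) • (A + Aᴴ))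
    (Submodule.smul_mem _ _ (Submodule.add_mem _ hA hAs)) (by
      rw [Matrix.conjTranspose_smul, Matrix.conjTranspose_add, Matrix.conjTranspose_conjTranspose,
        add_comm, ← neg_smul]
      congr 1
      simp [neg_div])
  have h3 := Submodule.add_mem _ h1 (Submodule.smul_mem _ Complex.I h2)
  have h4 : (g : Matrix R R ℂ) * ((1 / 2 : ℂ) • (A - Aᴴ)) * (g : Matrix R R ℂ)ᴴ +
      Complex.I • ((g : Matrix R R ℂ) * ((-Complex.I / 2 : ℂ) • (A + Aᴴ)) *
        (g : Matrix R R ℂ)ᴴ) = (g : Matrix R R ℂ) * A * (g : Matrix R R ℂ)ᴴ := by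
    simp only [Matrix.mul_smul, Matrix.smul_mul, smul_smul]
    have h5 : Complex.I * (-Complex.I / 2) = 1 / 2 := by
      rw [mul_div_assoc', mul_neg, Complex.I_mul_I, neg_neg]
    rw [h5, ← smul_add, mul_sub, mul_add, sub_mul, add_mul]
    rw [sub_add_add_cancel, ← two_smul ℂ, smul_smul]
    norm_num
  rwa [h4] at h3

end

end Pool.Agent.H25.HG
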