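import Pool.Agent.H25.HG.A7

/-!
# The Casimir tensor lies in the smaller family if the index is finite
-/

set_option autoImplicit false
set_option linter.unusedSectionVars false
set_option linter.unusedDecidableInType false
set_option linter.unusedFintypeInType false

namespace Pool.Agent.H25.HG

open Matrix Finset Module MeasureTheory Filter Topology Pool.Agent.H204R3.SP
  Pool.Agent.H204R3.GP Pool.Agent.W516 Pool.Agent.X259.T Pool.Agent.X259.U
open scoped ComplexOrder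

noncomputable section

variable {R : Type} [Fintype R] [DecidableEq R] {Q : Type} [DecidableEq Q]
  {cls : R → Q} {inv : R → R} {jj : R → ℂ} {B C : ∀ κ : Type, Submodule ℂ ((κ → R) → ℂ)}

theorem cas_mem_C (hB : Bas cls inv jj) (hBf : Fam cls inv jj B) (hC : Fam cls inv jj C)
    (hle : ∀ κ : Type, C κ ≤ B κ) (hind : ind B C ≠ 0) :
    co (cas hB hBf) ∈ C (Fin 2 × Fin 2) := by
  refine tannaka hB hC _ fun g hg => ?_
  have hu : (g : Matrix R R ℂ)ᴴ * (g : Matrix R R ℂ) = 1 := Matrix.mem_unitaryGroup_iff'.1 g.2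
  have hu' : (g : Matrix R R ℂ) * (g : Matrix R R ℂ)ᴴ = 1 := Matrix.mem_unitaryGroup_iff.1 g.2
  have hgi : g⁻¹ ∈ stabG (tens C) := Subgroup.inv_mem _ hg
  have hgi' : ((g⁻¹ : Matrix.unitaryGroup R ℂ) : Matrix R R ℂ) = (g : Matrix R R ℂ)ᴴ := rfl
  funext I
  have h1 := co_mul (cas hB hBf) (fun _ => (g : Matrix R R ℂ)) I
  change (krf (fun _ => (g : Matrix R R ℂ)) *ᵥ co (cas hB hBf)) I = _
  rw [← h1]
  have h2 := KC2.casimir_inv (HH B) (traceNondeg hB hBf) (om inv jj)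
    (g := Matrix.toLin' (g : Matrix R R ℂ)ᵀ) (g' := Matrix.toLin' ((g : Matrix R R ℂ)ᴴ)ᵀ)
    (χ := 1) ?_ ?_ ?_ ?_ ?_ (fun k => Pi.single (I k) 1)
  · rw [one_pow, one_mul] at h2
    exact h2
  · rw [Module.End.mul_eq_comp, ← Matrix.toLin'_mul, ← Matrix.transpose_mul, hu',
      Matrix.transpose_one, Matrix.toLin'_one]
    rfl
  · rw [Module.End.mul_eq_comp, ← Matrix.toLin'_mul, ← Matrix.transpose_mul, hu,
      Matrix.transpose_one, Matrix.toLin'_one]
    rfl
  · intro u v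
    rw [Matrix.toLin'_apply, Matrix.toLin'_apply, om_mul, one_mul,
      form_of_mem (stab_le hC hg), om_apply]
  · intro X hX
    obtain ⟨A, hA, rfl⟩ := exists_of_HH hX
    have h3 : (Matrix.toLin' (g : Matrix R R ℂ)ᵀ * Matrix.toLin' Aᵀ *
        Matrix.toLin' ((g : Matrix R R ℂ)ᴴ)ᵀ : Module.End ℂ (R → ℂ)) =
        Matrix.toLin' (((g : Matrix R R ℂ)ᴴ * A * (g : Matrix R R ℂ))ᵀ) := by
      rw [Matrix.transpose_mul, Matrix.transpose_mul, Matrix.toLin'_mul, Matrix.toLin'_mul]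
      rfl
    rw [h3]
    have h4 := LL_norm hB hBf hle hind hgi hA
    rw [hgi', Matrix.conjTranspose_conjTranspose] at h4
    exact mem_HH.2 h4
  · intro X hX
    obtain ⟨A, hA, rfl⟩ := exists_of_HH hX
    have h3 : (Matrix.toLin' ((g : Matrix R R ℂ)ᴴ)ᵀ * Matrix.toLin' Aᵀ *
        Matrix.toLin' (g : Matrix R R ℂ)ᵀ : Module.End ℂ (R → ℂ)) =
        Matrix.toLin' (((g : Matrix R R ℂ) * A * (g : Matrix R R ℂ)ᴴ)ᵀ) := by
      rw [Matrix.transpose_mul, Matrix.transpose_mul, Matrix.toLin'_mul, Matrix.toLin'_mul]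
      rfl
    rw [h3]
    exact mem_HH.2 (LL_norm hB hBf hle hind hg hA)

end

end Pool.Agent.H25.HG
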