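import Pool.Agent.H25.HG.A8

/-!
# The rational Casimir form
-/

set_option autoImplicit false
set_option linter.unusedSectionVars false
set_option linter.unusedDecidableInType false
set_option linter.unusedFintypeInType false

namespace Pool.Agent.H25.HG

open Matrix Finset Module Pool.Agent.H204R3.SP
  Pool.Agent.H204R3.GP Pool.Agent.W516 Pool.Agent.X259.T Pool.Agent.X259.U
open scoped ComplexOrder

noncomputable section

variable {W : Type} [AddCommGroup W] [Module ℚ W] {R : Type} [Fintype R] [DecidableEq R]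
  {T : Type} [AddCommGroup T] [Module ℂ T] {Q : Type} [DecidableEq Q]
  {per : W →+ T} {ω₀ : W →ₗ[ℚ] W →ₗ[ℚ] ℚ} {b : Basis R ℚ W} {b' : Basis R ℝ T} {cls : R → Q}
  {inv : R → R} {jj : R → ℂ} {S S' : Matrix R R ℂ} (hf : Frame per ω₀ b b' cls inv jj S S')
  {B C : ∀ m : ℕ, Submodule ℚ (RF W m)}

include hf in
lemma LB_traceNondeg (hBf : Fam cls inv jj (Fm S b B)) : KC2.TraceNondeg (LB B) :=
  fun X hX h => LB_nondeg hf hBf hX fun Z hZ => by
    rw [LinearMap.trace_mul_comm]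
    exact h Z hZ

include hf in
lemma formI : S' * Jm inv jj * S'ᵀ = Om b ω₀ := by
  have h1 : Sᵀ * S'ᵀ = 1 := by rw [← Matrix.transpose_mul, hf.one', Matrix.transpose_one]
  calc S' * Jm inv jj * S'ᵀ = S' * (S * Om b ω₀ * Sᵀ) * S'ᵀ := by rw [hf.form]
    _ = (S' * S) * Om b ω₀ * (Sᵀ * S'ᵀ) := by simp only [mul_assoc]
    _ = _ := by rw [hf.one', h1, one_mul, mul_one]

include hf in
lemma om_iota (A : Matrix R R ℂ) (i j : R) :
    om inv jj (Matrix.toLin' Aᵀ (S'ᵀ *ᵥ (Pi.single i 1 : R → ℂ)))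
      (S'ᵀ *ᵥ (Pi.single j 1 : R → ℂ)) = ((S' * A * S) * Om b ω₀) i j := by
  have h1 : Matrix.toLin' Aᵀ (S'ᵀ *ᵥ (Pi.single i 1 : R → ℂ)) =
      (S' * A)ᵀ *ᵥ (Pi.single i 1 : R → ℂ) := by
    rw [Matrix.toLin'_apply, Matrix.mulVec_mulVec, Matrix.transpose_mul]
  have h2 : S' * A * Jm inv jj * S'ᵀ = (S' * A * S) * Om b ω₀ := by
    rw [← formI hf]
    calc S' * A * Jm inv jj * S'ᵀ = S' * A * (S * S') * Jm inv jj * S'ᵀ := by
          rw [hf.one, mul_one]
      _ = _ := by simp only [mul_assoc]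
  rw [h1, om_mul, h2, Matrix.mulVec_single_one]
  rw [dotProduct, Finset.sum_eq_single i]
  · rw [Pi.single_eq_same, one_mul]
    rfl
  · intro k _ hk
    rw [Pi.single_eq_of_ne hk, zero_mul]
  · intro h
    exact absurd (Finset.mem_univ _) h

lemma mW_Om (E : Module.End ℚ W) (i j : R) :
    (mW b E * Om b ω₀) i j = ((ω₀ (E (b i)) (b j) : ℚ) : ℂ) := by
  rw [Matrix.mul_apply]
  conv_rhs => rw [← b.sum_repr (E (b i))]
  rw [map_sum, LinearMap.sum_apply, Rat.cast_sum]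
  refine Finset.sum_congr rfl fun k _ => ?_
  rw [map_smul, LinearMap.smul_apply, smul_eq_mul, Rat.cast_mul]
  rfl

lemma lam_Om (lam : ℂ →ₗ[ℚ] ℚ) (Y : Matrix R R ℂ) (i j : R) :
    lam ((Y * Om b ω₀) i j) = ω₀ (cmE b lam Y (b i)) (b j) := by
  apply Rat.cast_injective (α := ℂ)
  rw [← mW_Om (b := b) (ω₀ := ω₀), mW_cmE, Matrix.mul_apply, Matrix.mul_apply, map_sum,
    Rat.cast_sum]
  refine Finset.sum_congr rfl fun k _ => ?_
  simp only [Om]
  rw [lam_mul_rat, Rat.cast_mul]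

variable [FiniteDimensional ℚ W]

include hf in
/-- The elements which represent the functionals. -/
lemma EE_base (hBf : Fam cls inv jj (Fm S b B)) (i j : R) :
    KC2.EE (HH (Fm S b B)) (traceNondeg hf.bas hBf) (om inv jj)
      (S'ᵀ *ᵥ (Pi.single i 1 : R → ℂ)) (S'ᵀ *ᵥ (Pi.single j 1 : R → ℂ)) =
    Matrix.toLin' (S * mW b (KC2.EE (LB B) (LB_traceNondeg hf hBf) ω₀ (b i) (b j)) * S')ᵀ := by
  refine KC2.ext_trace (HH (Fm S b B)) (traceNondeg hf.bas hBf) (KC2.EE_mem ..)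
    (mem_HH.2 (conj_mem_LL' hf (KC2.EE_mem ..))) fun Z hZ => ?_
  rw [KC2.EE_trace _ _ _ _ _ hZ]
  obtain ⟨A, hA, rfl⟩ := exists_of_HH hZ
  set E := KC2.EE (LB B) (LB_traceNondeg hf hBf) ω₀ (b i) (b j) with hE
  have h2 : (Matrix.toLin' (S * mW b E * S')ᵀ * Matrix.toLin' Aᵀ : Module.End ℂ (R → ℂ)) =
      Matrix.toLin' ((A * (S * mW b E * S'))ᵀ) := by
    rw [Matrix.transpose_mul A, Matrix.toLin'_mul]
    rfl
  rw [h2, Matrix.trace_toLin'_eq, Matrix.trace_transpose, om_iota hf]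
  have h3 : (A * (S * mW b E * S')).trace = (mW b E * (S' * A * S)).trace := by
    calc (A * (S * mW b E * S')).trace = ((A * S * mW b E) * S').trace := by
          simp only [mul_assoc]
      _ = (S' * (A * S * mW b E)).trace := Matrix.trace_mul_comm _ _
      _ = ((S' * A * S) * mW b E).trace := by simp only [mul_assoc]
      _ = _ := Matrix.trace_mul_comm _ _
  rw [h3, ← sub_eq_zero]
  refine eq_zero_of_comp fun lam => ?_
  have h4 : cmE b lam (S' * A * S) ∈ LB B := fun m ψ hψ => kills_of_LL hf hBf hA lam m ψ hψ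
  rw [map_sub, lam_Om, lam_trace, LinearMap.trace_mul_comm, hE, KC2.EE_trace _ _ _ _ _ h4,
    sub_self]

include hf in
/-- The complex Casimir tensor is the rational Casimir form. -/
theorem cas_base (hBf : Fam cls inv jj (Fm S b B)) :
    kr (Fin 2 × Fin 2) S' *ᵥ co (cas hf.bas hBf) =
      gt b (KC2.casimir (LB B) (LB_traceNondeg hf hBf) ω₀) := by
  funext I
  have h1 := co_mul (cas hf.bas hBf) (fun _ => S') I
  change (krf (fun _ => S') *ᵥ co (cas hf.bas hBf)) I = _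
  rw [← h1, cas, KC2.casimir_apply, EE_base hf hBf, om_iota hf, gt, KC2.casimir_apply]
  have h2 : S' * (S * mW b (KC2.EE (LB B) (LB_traceNondeg hf hBf) ω₀ (b (I (0, 0)))
      (b (I (0, 1)))) * S') * S = mW b (KC2.EE (LB B) (LB_traceNondeg hf hBf) ω₀ (b (I (0, 0)))
      (b (I (0, 1)))) := by
    calc _ = (S' * S) * mW b (KC2.EE (LB B) (LB_traceNondeg hf hBf) ω₀ (b (I (0, 0)))
        (b (I (0, 1)))) * (S' * S) := by simp only [mul_assoc]
      _ = _ := by rw [hf.one', one_mul, mul_one]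
  rw [h2, mW_Om]

include hf in
/-- The rational Casimir form lies in the smaller family if the index is finite. -/
theorem rcas_mem (hBf : Fam cls inv jj (Fm S b B)) (hCf : Fam cls inv jj (Fm S b C))
    (hperm : ∀ (m : ℕ) (σ : Equiv.Perm (Fin m × Fin 2)), ∀ ψ ∈ C m, ψ.domDomCongr σ ∈ C m)
    (hle : ∀ κ : Type, Fm S b C κ ≤ Fm S b B κ) (hind : ind (Fm S b B) (Fm S b C) ≠ 0) :
    (KC2.casimir (LB B) (LB_traceNondeg hf hBf) ω₀ : RF W 2) ∈ C 2 := by
  refine mem_of_Fm hf hperm ?_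
  rw [← cas_base hf hBf, Matrix.mulVec_mulVec, ← kr_mul, hf.one, kr_one, Matrix.one_mulVec]
  exact cas_mem_C hf.bas hBf hCf hle hind

end

end Pool.Agent.H25.HG
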