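import Mathlib

/-!
# Unitary matrices and the Frobenius norm; Gaussian integrals
-/

set_option autoImplicit false
set_option linter.unusedSectionVars false
set_option linter.unusedDecidableInType false
set_option linter.unusedFintypeInType false

namespace Pool.Agent.H25.HG

open Matrix Finset Module MeasureTheory Filter Topology NormedSpace
open scoped Matrix.Norms.Frobenius

noncomputable section

variable {R : Type} [Fintype R] [DecidableEq R]

/-- The square of the norm. -/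
lemma frob_sq (A : Matrix R R ℂ) : ‖A‖ ^ 2 = ((Aᴴ * A).trace).re := by
  have h1 : ‖A‖ ^ 2 = ∑ i, ∑ j, ‖A i j‖ ^ 2 := by
    rw [Matrix.frobenius_norm_def]
    have h2 : (∑ i, ∑ j, ‖A i j‖ ^ (2 : ℝ)) = ∑ i, ∑ j, ‖A i j‖ ^ 2 := by
      refine Finset.sum_congr rfl fun i _ => Finset.sum_congr rfl fun j _ => ?_
      rw [Real.rpow_two]
    rw [h2, ← Real.sqrt_eq_rpow, Real.sq_sqrt]
    exact Finset.sum_nonneg fun i _ => Finset.sum_nonneg fun j _ => by positivity
  rw [h1, Matrix.trace, Complex.re_sum, Finset.sum_comm]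
  refine Finset.sum_congr rfl fun j _ => ?_
  rw [Matrix.diag_apply, Matrix.mul_apply, Complex.re_sum]
  refine Finset.sum_congr rfl fun i _ => ?_
  rw [Matrix.conjTranspose_apply]
  have h3 : star (A i j) * A i j = ((‖A i j‖ ^ 2 : ℝ) : ℂ) := by
    rw [← Complex.normSq_eq_norm_sq, mul_comm]
    exact Complex.mul_conj (A i j)
  rw [h3, Complex.ofReal_re]

lemma frob_unitary {g : Matrix R R ℂ} (hg : gᴴ * g = 1) (A : Matrix R R ℂ) : ‖g * A‖ = ‖A‖ := by
  have h1 : ‖g * A‖ ^ 2 = ‖A‖ ^ 2 := by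
    rw [frob_sq, frob_sq, Matrix.conjTranspose_mul]
    congr 2
    rw [mul_assoc, ← mul_assoc gᴴ, hg, one_mul]
  exact (pow_left_inj₀ (norm_nonneg _) (norm_nonneg _) two_ne_zero).1 h1

lemma frob_unitary_sq {g : Matrix R R ℂ} (hg : gᴴ * g = 1) : ‖g‖ ^ 2 = Fintype.card R := by
  rw [frob_sq, hg, Matrix.trace_one]
  simp

/-- The trace of the quotient of two unitary matrices. -/
lemma trace_eq {g h : Matrix R R ℂ} (hg : gᴴ * g = 1) (hh : hᴴ * h = 1) :
    ((gᴴ * h).trace).re = Fintype.card R - ‖g - h‖ ^ 2 / 2 := by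
  have h1 : ‖g - h‖ ^ 2 = Fintype.card R + Fintype.card R - 2 * ((gᴴ * h).trace).re := by
    rw [frob_sq, Matrix.conjTranspose_sub]
    have h2 : (gᴴ - hᴴ) * (g - h) = gᴴ * g + hᴴ * h - gᴴ * h - hᴴ * g := by noncomm_ring
    rw [h2, hg, hh]
    simp only [Matrix.trace_sub, Matrix.trace_add, Matrix.trace_one, Complex.sub_re,
      Complex.add_re, Complex.natCast_re]
    have h3 : ((hᴴ * g).trace).re = ((gᴴ * h).trace).re := by
      have h4 : (hᴴ * g).trace = star ((gᴴ * h).trace) := by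
        rw [← Matrix.trace_conjTranspose, Matrix.conjTranspose_mul,
          Matrix.conjTranspose_conjTranspose]
      rw [h4]
      rfl
    rw [h3]
    ring
  rw [h1]
  ring

/-- The parallelogram law. -/
lemma par {g h : Matrix R R ℂ} (hg : gᴴ * g = 1) (hh : hᴴ * h = 1) :
    ‖g - h‖ ^ 2 + ‖g + h‖ ^ 2 = 4 * Fintype.card R := by
  have h1 := trace_eq hg hh
  have h2 := trace_eq (g := g) (h := -h) hg (by rw [Matrix.conjTranspose_neg, neg_mul_neg, hh])
  rw [sub_neg_eq_add, mul_neg, Matrix.trace_neg, Complex.neg_re] at h2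
  linarith

/-- The Lipschitz estimates for the exponential function. -/
lemma exp_lip (R : Type) [Fintype R] [DecidableEq R] :
    ∃ r : ℝ, 0 < r ∧ ∀ A B : Matrix R R ℂ, ‖A‖ ≤ r → ‖B‖ ≤ r →
    ‖A - B‖ ≤ 2 * ‖exp A - exp B‖ ∧ ‖exp A - exp B‖ ≤ 2 * ‖A - B‖ := by
  have : CompleteSpace (Matrix R R ℂ) := FiniteDimensional.complete ℝ _
  have h1 : HasStrictFDerivAt exp (1 : Matrix R R ℂ →L[ℝ] Matrix R R ℂ) 0 :=
    hasStrictFDerivAt_exp_zero
  obtain ⟨s, hs, hap⟩ := h1.approximates_deriv_on_nhds (c := 1 / 2) (Or.inr (by norm_num))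
  obtain ⟨r, hr, hrs⟩ := Metric.mem_nhds_iff.1 hs
  refine ⟨r / 2, by positivity, fun A B hA hB => ?_⟩
  have hA' : A ∈ s := hrs (by rw [mem_ball_zero_iff]; linarith)
  have hB' : B ∈ s := hrs (by rw [mem_ball_zero_iff]; linarith)
  have h2 : ‖exp A - exp B - (A - B)‖ ≤ ((1 / 2 : NNReal) : ℝ) * ‖A - B‖ := hap A hA' B hB'
  have h4 : (((1 / 2 : NNReal)) : ℝ) = 1 / 2 := by norm_num
  rw [h4] at h2
  have h5 : ‖A - B‖ - ‖exp A - exp B‖ ≤ ‖exp A - exp B - (A - B)‖ := by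
    rw [norm_sub_rev (exp A - exp B) (A - B)]
    exact norm_sub_norm_le (A - B) (exp A - exp B)
  have h6 : ‖exp A - exp B‖ - ‖A - B‖ ≤ ‖exp A - exp B - (A - B)‖ := norm_sub_norm_le _ _
  constructor
  · linarith
  · have := norm_nonneg (A - B)
    linarith

/-- The exponential function is locally surjective. -/
lemma exp_surj {r : ℝ} (hr : 0 < r) : ∃ δ : ℝ, 0 < δ ∧ ∀ g : Matrix R R ℂ, ‖g - 1‖ < δ →
    ∃ A : Matrix R R ℂ, ‖A‖ < r ∧ exp A = g := by
  have : CompleteSpace (Matrix R R ℂ) := FiniteDimensional.complete ℝ _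
  have h1 : HasStrictFDerivAt exp
      ((ContinuousLinearEquiv.refl ℝ (Matrix R R ℂ) : Matrix R R ℂ ≃L[ℝ] Matrix R R ℂ) :
        Matrix R R ℂ →L[ℝ] Matrix R R ℂ) 0 :=
    hasStrictFDerivAt_exp_zero (𝕂 := ℝ) (𝔸 := Matrix R R ℂ)
  have h2 := h1.map_nhds_eq_of_equiv
  have h3 : Metric.ball (0 : Matrix R R ℂ) r ∈ 𝓝 (0 : Matrix R R ℂ) := Metric.ball_mem_nhds _ hr
  have h4 : exp '' (Metric.ball (0 : Matrix R R ℂ) r) ∈ 𝓝 (exp (0 : Matrix R R ℂ)) := by
    have h5 : exp '' (Metric.ball (0 : Matrix R R ℂ) r) ∈ Filter.map exp (𝓝 (0 : Matrix R R ℂ)) :=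
      Filter.image_mem_map h3
    exact h2.ge h5
  rw [exp_zero] at h4
  obtain ⟨δ, hδ, hsub⟩ := Metric.mem_nhds_iff.1 h4
  refine ⟨δ, hδ, fun g hg => ?_⟩
  obtain ⟨A, hA, hAg⟩ := hsub (by rw [Metric.mem_ball, dist_eq_norm]; exact hg)
  exact ⟨A, by rwa [mem_ball_zero_iff] at hA, hAg⟩

section gauss

variable {E : Type} [NormedAddCommGroup E] [NormedSpace ℝ E] [FiniteDimensional ℝ E]
  [MeasurableSpace E] [BorelSpace E] (ν : Measure E) [ν.IsAddHaarMeasure]

lemma gauss_int {b : ℝ} (hb : 0 < b) : Integrable (fun X : E => Real.exp (-(b * ‖X‖ ^ 2))) ν := by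
  set r : ℝ := (finrank ℝ E : ℝ) + 1 with hr
  have hr0 : 0 < r := by positivity
  have h1 : Integrable (fun X : E => Real.exp (r ^ 2 / (4 * b)) * (1 + ‖X‖) ^ (-r)) ν :=
    (integrable_one_add_norm (μ := ν) (by rw [hr]; linarith)).const_mul _
  refine h1.mono' ?_ (Eventually.of_forall fun X => ?_)
  · exact (Real.continuous_exp.comp (continuous_const.mul
      (continuous_norm.pow 2)).neg).aestronglyMeasurable
  · rw [Real.norm_eq_abs, abs_of_pos (Real.exp_pos _)]
    set t := ‖X‖ with ht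
    have ht0 : 0 ≤ t := norm_nonneg _
    have h2 : (1 + t) ^ r ≤ Real.exp (r * t) := by
      have h3 : 1 + t ≤ Real.exp t := by
        have := Real.add_one_le_exp t
        linarith
      calc (1 + t) ^ r ≤ (Real.exp t) ^ r := Real.rpow_le_rpow (by positivity) h3 hr0.le
        _ = Real.exp (r * t) := by rw [← Real.exp_mul, mul_comm]
    have h4 : 0 < (1 + t) ^ r := Real.rpow_pos_of_pos (by positivity) _
    rw [Real.rpow_neg (by positivity), ← div_eq_mul_inv, le_div_iff₀ h4]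
    calc Real.exp (-(b * t ^ 2)) * (1 + t) ^ r ≤ Real.exp (-(b * t ^ 2)) * Real.exp (r * t) :=
          mul_le_mul_of_nonneg_left h2 (Real.exp_pos _).le
      _ = Real.exp (-(b * t ^ 2) + r * t) := (Real.exp_add _ _).symm
      _ ≤ Real.exp (r ^ 2 / (4 * b)) := by
          refine Real.exp_le_exp.2 ?_
          rw [le_div_iff₀ (by positivity)]
          nlinarith [sq_nonneg (2 * b * t - r)]

/-- The Gaussian integral is positive. -/
lemma gauss_pos {b : ℝ} (hb : 0 < b) : 0 < ∫ X : E, Real.exp (-(b * ‖X‖ ^ 2)) ∂ν := by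
  rw [integral_pos_iff_support_of_nonneg (fun X => (Real.exp_pos _).le) (gauss_int ν hb)]
  have h1 : Function.support (fun X : E => Real.exp (-(b * ‖X‖ ^ 2))) = Set.univ := by
    ext X
    simp [Real.exp_ne_zero]
  rw [h1]
  exact Measure.measure_univ_pos.2 (NeZero.ne ν)

/-- The scaling of integrals. -/
lemma scale (f : E → ℝ) {m : ℕ} (hm : 0 < m) :
    Real.sqrt m ^ finrank ℝ E * ∫ X, f X ∂ν = ∫ X, f ((Real.sqrt m)⁻¹ • X) ∂ν := by
  rw [Measure.integral_comp_smul]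
  have h1 : 0 < Real.sqrt m := Real.sqrt_pos.2 (by exact_mod_cast hm)
  rw [smul_eq_mul, inv_pow, inv_inv, abs_of_pos (by positivity)]

end gauss

end

end Pool.Agent.H25.HG
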