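import Pool.Agent.H25.HG.B1

/-!
# The integral over a neighbourhood of zero in the Lie algebra
-/

set_option autoImplicit false
set_option linter.unusedSectionVars false
set_option linter.unusedDecidableInType false
set_option linter.unusedFintypeInType false

namespace Pool.Agent.H25.HG

open Matrix Finset Module MeasureTheory Filter Topology NormedSpace
open scoped Matrix.Norms.Frobenius

noncomputable section

variable {R : Type} [Fintype R] [DecidableEq R]

/-- The normalized trace of the quotient of two unitary matrices. -/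
def ww (g h : Matrix R R ℂ) : ℝ := 1 - ‖g - h‖ ^ 2 / (2 * Fintype.card R)

lemma ww_cont : Continuous fun p : Matrix R R ℂ × Matrix R R ℂ => ww p.1 p.2 :=
  continuous_const.sub (((continuous_norm.comp (continuous_fst.sub continuous_snd)).pow 2).div_const _)

lemma card_pos' [Nonempty R] : (0 : ℝ) < Fintype.card R := by
  have : 0 < Fintype.card R := Fintype.card_pos
  exact_mod_cast this

lemma one_le_card [Nonempty R] : (1 : ℝ) ≤ Fintype.card R := by
  have : 1 ≤ Fintype.card R := Fintype.card_pos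
  exact_mod_cast this

lemma ww_neg [Nonempty R] {g h : Matrix R R ℂ} (hg : gᴴ * g = 1) (hh : hᴴ * h = 1) :
    ww g (-h) = -ww g h := by
  have h1 := par hg hh
  have h2 := card_pos' (R := R)
  rw [ww, ww, sub_neg_eq_add]
  field_simp
  linarith

lemma ww_abs [Nonempty R] {g h : Matrix R R ℂ} (hg : gᴴ * g = 1) (hh : hᴴ * h = 1) :
    |ww g h| ≤ 1 := by
  have h1 := par hg hh
  have h2 := card_pos' (R := R)
  have h3 : ‖g - h‖ ^ 2 / (2 * Fintype.card R) ≤ 2 := by
    rw [div_le_iff₀ (by positivity)]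
    have := sq_nonneg ‖g + h‖
    linarith
  have h4 : 0 ≤ ‖g - h‖ ^ 2 / (2 * Fintype.card R) := by positivity
  rw [ww, abs_le]
  constructor <;> linarith

lemma ww_pow_le_one [Nonempty R] {g h : Matrix R R ℂ} (hg : gᴴ * g = 1) (hh : hᴴ * h = 1)
    (m : ℕ) : ww g h ^ (2 * m) ≤ 1 := by
  rw [pow_mul, ← sq_abs, ← pow_mul]
  exact pow_le_one₀ (abs_nonneg _) (ww_abs hg hh)

lemma ww_pow_nonneg (g h : Matrix R R ℂ) (m : ℕ) : 0 ≤ ww g h ^ (2 * m) :=
  Even.pow_nonneg (even_two_mul m) _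

/-- The exponential estimate near to one. -/
lemma ww_near {g h : Matrix R R ℂ} (h0 : 0 ≤ ww g h) (m : ℕ) :
    ww g h ^ (2 * m) ≤ Real.exp (-(m / Fintype.card R * ‖g - h‖ ^ 2)) := by
  have h1 : ww g h ≤ Real.exp (-(‖g - h‖ ^ 2 / (2 * Fintype.card R))) := by
    have := Real.add_one_le_exp (-(‖g - h‖ ^ 2 / (2 * Fintype.card R)))
    rw [ww]
    linarith
  refine (pow_le_pow_left₀ h0 h1 _).trans (le_of_eq ?_)
  rw [← Real.exp_nat_mul]
  congr 1
  push_cast
  by_cases hc : (Fintype.card R : ℝ) = 0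
  · rw [hc]
    simp
  · field_simp

lemma ww_le [Nonempty R] {g h : Matrix R R ℂ} (hg : gᴴ * g = 1) (hh : hᴴ * h = 1) (m : ℕ) :
    ww g h ^ (2 * m) ≤ Real.exp (-(m / Fintype.card R * ‖g - h‖ ^ 2)) +
      Real.exp (-(m / Fintype.card R * ‖g - -h‖ ^ 2)) := by
  rcases le_total 0 (ww g h) with h0 | h0
  · have := ww_near h0 m
    have h1 := Real.exp_pos (-(m / Fintype.card R * ‖g - -h‖ ^ 2))
    linarith
  · have h2 : 0 ≤ ww g (-h) := by
      rw [ww_neg hg hh]
      linarith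
    have h3 := ww_near h2 m
    have h4 : ww g (-h) ^ (2 * m) = ww g h ^ (2 * m) := by
      rw [ww_neg hg hh, pow_mul, neg_sq, ← pow_mul]
    rw [h4] at h3
    have h1 := Real.exp_pos (-(m / Fintype.card R * ‖g - h‖ ^ 2))
    linarith

lemma exp_unitary {A : Matrix R R ℂ} (hA : Aᴴ = -A) : (exp A)ᴴ * exp A = 1 := by
  rw [← Matrix.exp_conjTranspose, hA, ← Matrix.exp_add_of_commute _ _ (Commute.neg_left (Commute.refl A)),
    neg_add_cancel, exp_zero]

variable {E : Type} [NormedAddCommGroup E] [NormedSpace ℝ E] [FiniteDimensional ℝ E]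
  [MeasurableSpace E] [BorelSpace E] (ν : Measure E) [ν.IsAddHaarMeasure]
  (L : E →L[ℝ] Matrix R R ℂ)

/-- The weight. -/
def ch (ρ : ℝ) (X : E) : ℝ := max 0 (ρ - ‖X‖)

lemma ch_cont (ρ : ℝ) : Continuous (ch (E := E) ρ) :=
  continuous_const.max (continuous_const.sub continuous_norm)

lemma ch_nonneg (ρ : ℝ) (X : E) : 0 ≤ ch ρ X := le_max_left _ _

lemma ch_le {ρ : ℝ} (hρ : 0 < ρ) (X : E) : ch ρ X ≤ ρ := by
  rw [ch]
  refine max_le hρ.le ?_
  have := norm_nonneg X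
  linarith

lemma ch_zero {ρ : ℝ} {X : E} (h : ρ ≤ ‖X‖) : ch ρ X = 0 := by
  rw [ch]
  exact max_eq_left (by linarith)

lemma ch_ge {ρ : ℝ} {X : E} (h : ‖X‖ ≤ ρ / 2) : ρ / 2 ≤ ch ρ X := by
  rw [ch]
  refine le_trans ?_ (le_max_right _ _)
  linarith

lemma ch_int (ρ : ℝ) : Integrable (ch (E := E) ρ) ν := by
  refine (ch_cont ρ).integrable_of_hasCompactSupport ?_
  refine HasCompactSupport.of_support_subset_isCompact (isCompact_closedBall (0 : E) ρ) fun X hX => ?_
  rw [mem_closedBall_zero_iff]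
  by_contra hcon
  push Not at hcon
  exact hX (ch_zero hcon.le)

lemma ch_int_pos {ρ : ℝ} (hρ : 0 < ρ) : 0 < ∫ X, ch (E := E) ρ X ∂ν := by
  rw [integral_pos_iff_support_of_nonneg (ch_nonneg ρ) (ch_int ν ρ)]
  refine lt_of_lt_of_le (Metric.measure_ball_pos ν (0 : E) hρ) (measure_mono fun X hX => ?_)
  rw [mem_ball_zero_iff] at hX
  rw [Function.mem_support, ch]
  refine ne_of_gt (lt_of_lt_of_le ?_ (le_max_right _ _))
  linarith

/-- The exponential map. -/
def ex (X : E) : Matrix R R ℂ := exp (L X)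

lemma ex_cont : Continuous (ex L) := by
  have : CompleteSpace (Matrix R R ℂ) := FiniteDimensional.complete ℝ _
  exact exp_continuous.comp L.continuous

/-- The integral. -/
def Jm' (ρ : ℝ) (m : ℕ) (g : Matrix R R ℂ) : ℝ := ∫ X, ch ρ X * ww (ex L X) g ^ (2 * m) ∂ν

variable {ν L} (hL : ∀ X, ‖L X‖ = ‖X‖) (hsk : ∀ X, (L X)ᴴ = -L X) {ρ : ℝ} (hρ : 0 < ρ)
  (hlip : ∀ A B : Matrix R R ℂ, ‖A‖ ≤ ρ → ‖B‖ ≤ ρ →
    ‖A - B‖ ≤ 2 * ‖exp A - exp B‖ ∧ ‖exp A - exp B‖ ≤ 2 * ‖A - B‖)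

lemma integrable_cont {f : E → ℝ} (hf : Continuous f) : Integrable (fun X => ch ρ X * f X) ν := by
  refine ((ch_cont ρ).mul hf).integrable_of_hasCompactSupport ?_
  refine HasCompactSupport.of_support_subset_isCompact (isCompact_closedBall (0 : E) ρ) fun X hX => ?_
  rw [mem_closedBall_zero_iff]
  by_contra hcon
  push Not at hcon
  exact hX (by rw [Pi.mul_apply, ch_zero hcon.le, zero_mul])

include hL hlip in
lemma lip {X Y : E} (hX : ‖X‖ ≤ ρ) (hY : ‖Y‖ ≤ ρ) :
    ‖X - Y‖ ≤ 2 * ‖ex L X - ex L Y‖ ∧ ‖ex L X - ex L Y‖ ≤ 2 * ‖X - Y‖ := by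
  have h1 := hlip (L X) (L Y) (by rw [hL]; exact hX) (by rw [hL]; exact hY)
  rw [← map_sub, hL] at h1
  exact h1

include hsk in
lemma ex_unitary (X : E) : (ex L X)ᴴ * ex L X = 1 := exp_unitary (hsk X)

include hL hρ hlip in
/-- The estimate of one half of the integral. -/
lemma half_bound (g : Matrix R R ℂ) {m : ℕ} (hm : 0 < m) [Nonempty R] :
    Real.sqrt m ^ finrank ℝ E *
      ∫ X, ch ρ X * Real.exp (-(m / Fintype.card R * ‖ex L X - g‖ ^ 2)) ∂ν ≤
      ρ * ∫ X : E, Real.exp (-((16 * Fintype.card R : ℝ)⁻¹ * ‖X‖ ^ 2)) ∂ν := by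
  have hc := card_pos' (R := R)
  have hm' : (0 : ℝ) < m := by exact_mod_cast hm
  obtain ⟨Y, hY, hmin⟩ := (isCompact_closedBall (0 : E) ρ).exists_isMinOn
    ⟨0, by rw [mem_closedBall_zero_iff, norm_zero]; exact hρ.le⟩
    (f := fun X => ‖ex L X - g‖) (((ex_cont L).sub continuous_const).norm.continuousOn)
  rw [mem_closedBall_zero_iff] at hY
  have h1 : ∀ X : E, ch ρ X * Real.exp (-(m / Fintype.card R * ‖ex L X - g‖ ^ 2)) ≤
      ρ * Real.exp (-((m / (16 * Fintype.card R)) * ‖X - Y‖ ^ 2)) := by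
    intro X
    by_cases hX : ‖X‖ ≤ ρ
    · refine mul_le_mul (ch_le hρ X) ?_ (Real.exp_pos _).le hρ.le
      refine Real.exp_le_exp.2 (neg_le_neg ?_)
      have h2 : ‖ex L Y - g‖ ≤ ‖ex L X - g‖ := hmin (by rwa [mem_closedBall_zero_iff])
      have h3 := (lip hL hlip hX hY).1
      have h4 : ‖ex L X - ex L Y‖ ≤ ‖ex L X - g‖ + ‖ex L Y - g‖ := by
        have h5 : ex L X - ex L Y = (ex L X - g) - (ex L Y - g) := by abel
        rw [h5]
        exact norm_sub_le _ _
      have h5 : ‖X - Y‖ ≤ 4 * ‖ex L X - g‖ := by linarith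
      have h6 : ‖X - Y‖ ^ 2 ≤ 16 * ‖ex L X - g‖ ^ 2 := by
        have := pow_le_pow_left₀ (norm_nonneg (X - Y)) h5 2
        nlinarith
      calc (m : ℝ) / (16 * Fintype.card R) * ‖X - Y‖ ^ 2 ≤
          m / (16 * Fintype.card R) * (16 * ‖ex L X - g‖ ^ 2) :=
            mul_le_mul_of_nonneg_left h6 (by positivity)
        _ = m / Fintype.card R * ‖ex L X - g‖ ^ 2 := by
            field_simp
    · push Not at hX
      rw [ch_zero hX.le, zero_mul]
      positivity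
  have hg : Integrable (fun X : E => Real.exp (-((m / (16 * Fintype.card R)) * ‖X‖ ^ 2))) ν :=
    gauss_int ν (by positivity)
  have h2 : ∫ X, ch ρ X * Real.exp (-(m / Fintype.card R * ‖ex L X - g‖ ^ 2)) ∂ν ≤
      ∫ X, ρ * Real.exp (-((m / (16 * Fintype.card R)) * ‖X - Y‖ ^ 2)) ∂ν := by
    refine integral_mono (integrable_cont (Real.continuous_exp.comp
      (continuous_const.mul (((ex_cont L).sub continuous_const).norm.pow 2)).neg))
      ((hg.comp_sub_right Y).const_mul ρ) h1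
  have h3 : (∫ X, ρ * Real.exp (-((m / (16 * Fintype.card R)) * ‖X - Y‖ ^ 2)) ∂ν) =
      ρ * ∫ X : E, Real.exp (-((m / (16 * Fintype.card R)) * ‖X‖ ^ 2)) ∂ν := by
    rw [integral_const_mul]
    congr 1
    exact integral_sub_right_eq_self
      (fun X : E => Real.exp (-((m / (16 * Fintype.card R)) * ‖X‖ ^ 2))) Y
  have h4 := scale ν (fun X : E => Real.exp (-((m / (16 * Fintype.card R)) * ‖X‖ ^ 2))) hm
  have h5 : ∀ X : E, Real.exp (-((m / (16 * Fintype.card R)) * ‖(Real.sqrt m)⁻¹ • X‖ ^ 2)) =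
      Real.exp (-((16 * Fintype.card R : ℝ)⁻¹ * ‖X‖ ^ 2)) := by
    intro X
    congr 2
    rw [norm_smul, mul_pow, norm_inv, Real.norm_eq_abs, inv_pow, sq_abs, Real.sq_sqrt hm'.le]
    field_simp
  simp only [h5] at h4
  calc _ ≤ Real.sqrt m ^ finrank ℝ E *
      (ρ * ∫ X : E, Real.exp (-((m / (16 * Fintype.card R)) * ‖X‖ ^ 2)) ∂ν) := by
        rw [← h3]
        exact mul_le_mul_of_nonneg_left h2 (by positivity)
    _ = ρ * (Real.sqrt m ^ finrank ℝ E *
      ∫ X : E, Real.exp (-((m / (16 * Fintype.card R)) * ‖X‖ ^ 2)) ∂ν) := by ring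
    _ = _ := by rw [h4]

include hL hsk hρ hlip in
/-- **The bound.** -/
lemma J_bound [Nonempty R] {g : Matrix R R ℂ} (hg : gᴴ * g = 1) {m : ℕ} (hm : 0 < m) :
    Real.sqrt m ^ finrank ℝ E * Jm' ν L ρ m g ≤
      2 * (ρ * ∫ X : E, Real.exp (-((16 * Fintype.card R : ℝ)⁻¹ * ‖X‖ ^ 2)) ∂ν) := by
  have h1 := half_bound (ν := ν) hL hρ hlip g hm
  have h2 := half_bound (ν := ν) hL hρ hlip (-g) hm
  have hi : ∀ g' : Matrix R R ℂ,
      Integrable (fun X => ch ρ X * Real.exp (-(m / Fintype.card R * ‖ex L X - g'‖ ^ 2))) ν :=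
    fun g' => integrable_cont (Real.continuous_exp.comp
      (continuous_const.mul (((ex_cont L).sub continuous_const).norm.pow 2)).neg)
  have h3 : Jm' ν L ρ m g ≤
      (∫ X, ch ρ X * Real.exp (-(m / Fintype.card R * ‖ex L X - g‖ ^ 2)) ∂ν) +
        ∫ X, ch ρ X * Real.exp (-(m / Fintype.card R * ‖ex L X - -g‖ ^ 2)) ∂ν := by
    rw [← integral_add (hi g) (hi (-g)), Jm']
    refine integral_mono (integrable_cont ?_) ((hi g).add (hi (-g))) fun X => ?_
    · exact (ww_cont.comp ((ex_cont L).prodMk continuous_const)).pow _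
    · simp only [Pi.add_apply]
      rw [← mul_add]
      exact mul_le_mul_of_nonneg_left (ww_le (ex_unitary hsk X) hg m) (ch_nonneg _ _)
  calc _ ≤ Real.sqrt m ^ finrank ℝ E * _ := mul_le_mul_of_nonneg_left h3 (by positivity)
    _ ≤ _ := by
      rw [mul_add]
      linarith

lemma J_nonneg (m : ℕ) (g : Matrix R R ℂ) : 0 ≤ Jm' ν L ρ m g :=
  integral_nonneg fun X => mul_nonneg (ch_nonneg _ _) (ww_pow_nonneg _ _ _)

end

end Pool.Agent.H25.HG
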