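import Pool.Agent.H25.HG.B2

/-!
# The limit of the integral
-/

set_option autoImplicit false
set_option linter.unusedSectionVars false
set_option linter.unusedDecidableInType false
set_option linter.unusedFintypeInType false

namespace Pool.Agent.H25.HG

open Matrix Finset Module MeasureTheory Filter Topology NormedSpace
open scoped Matrix.Norms.Frobenius

noncomputable section

variable {R : Type} [Fintype R] [DecidableEq R]
  {E : Type} [NormedAddCommGroup E] [NormedSpace ℝ E] [FiniteDimensional ℝ E]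
  [MeasurableSpace E] [BorelSpace E] {ν : Measure E} [ν.IsAddHaarMeasure]
  {L : E →L[ℝ] Matrix R R ℂ} (hL : ∀ X, ‖L X‖ = ‖X‖) (hsk : ∀ X, (L X)ᴴ = -L X) {ρ : ℝ}
  (hρ : 0 < ρ)
  (hlip : ∀ A B : Matrix R R ℂ, ‖A‖ ≤ ρ → ‖B‖ ≤ ρ →
    ‖A - B‖ ≤ 2 * ‖exp A - exp B‖ ∧ ‖exp A - exp B‖ ≤ 2 * ‖A - B‖)

variable (L) in
/-- The exponential map is differentiable. -/
lemma ex_diff (X : E) : ∃ D : E →L[ℝ] Matrix R R ℂ, HasFDerivAt (ex L) D X := by
  have : CompleteSpace (Matrix R R ℂ) := FiniteDimensional.complete ℝ _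
  have h1 : DifferentiableAt ℝ (exp : Matrix R R ℂ → Matrix R R ℂ) (L X) :=
    (exp_analytic (𝕂 := ℝ) (L X)).differentiableAt
  have h2 : DifferentiableAt ℝ (ex L) X := h1.comp X L.differentiableAt
  exact ⟨_, h2.hasFDerivAt⟩

lemma sqrt_tendsto : Tendsto (fun m : ℕ => Real.sqrt m) atTop atTop :=
  Real.tendsto_sqrt_atTop.comp tendsto_natCast_atTop_atTop

/-- The limit of the powers. -/
lemma pow_lim {x : ℕ → ℝ} {t : ℝ} (hx : Tendsto (fun m : ℕ => (m : ℝ) * x m) atTop (𝓝 t)) :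
    Tendsto (fun m : ℕ => (1 - x m) ^ (2 * m)) atTop (𝓝 (Real.exp (-(2 * t)))) := by
  have h0 : Tendsto x atTop (𝓝 0) := by
    have h1 : Tendsto (fun m : ℕ => ((m : ℝ))⁻¹ * ((m : ℝ) * x m)) atTop (𝓝 (0 * t)) :=
      (tendsto_inv_atTop_nhds_zero_nat (𝕜 := ℝ)).mul hx
    rw [zero_mul] at h1
    refine h1.congr' ?_
    filter_upwards [eventually_gt_atTop 0] with m hm
    have : (m : ℝ) ≠ 0 := by
      have : 0 < m := hm
      positivity
    rw [inv_mul_cancel_left₀ this]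
  have h2 : Tendsto (fun m : ℕ => (m : ℝ) * (-(2 * x m) + x m ^ 2)) atTop (𝓝 (-(2 * t))) := by
    have h3 : Tendsto (fun m : ℕ => -(2 * ((m : ℝ) * x m)) + ((m : ℝ) * x m) * x m) atTop
        (𝓝 (-(2 * t) + t * 0)) := ((hx.const_mul 2).neg).add (hx.mul h0)
    rw [mul_zero, add_zero] at h3
    refine h3.congr fun m => ?_
    ring
  refine (Real.tendsto_one_add_pow_exp_of_tendsto h2).congr fun m => ?_
  rw [pow_mul]
  congr 1
  ring

/-- The limit of the integrand. -/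
lemma lim_integrand [Nonempty R] {X₀ : E} {D : E →L[ℝ] Matrix R R ℂ}
    (hD : HasFDerivAt (ex L) D X₀) (Y : E) :
    Tendsto (fun m : ℕ => ch ρ (X₀ + (Real.sqrt m)⁻¹ • Y) *
      ww (ex L (X₀ + (Real.sqrt m)⁻¹ • Y)) (ex L X₀) ^ (2 * m)) atTop
      (𝓝 (ch ρ X₀ * Real.exp (-((Fintype.card R : ℝ)⁻¹ * ‖D Y‖ ^ 2)))) := by
  have hc := card_pos' (R := R)
  have hs := sqrt_tendsto
  have h1 : Tendsto (fun m : ℕ => X₀ + (Real.sqrt m)⁻¹ • Y) atTop (𝓝 X₀) := by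
    have h2 : Tendsto (fun m : ℕ => X₀ + (Real.sqrt m)⁻¹ • Y) atTop (𝓝 (X₀ + (0 : ℝ) • Y)) :=
      tendsto_const_nhds.add ((tendsto_inv_atTop_zero.comp hs).smul_const Y)
    rwa [zero_smul, add_zero] at h2
  refine Tendsto.mul (((ch_cont ρ).tendsto X₀).comp h1) ?_
  have h3 := hD.lim Y (c := fun m : ℕ => Real.sqrt m) (l := atTop)
    (hs.congr fun m => by rw [Real.norm_eq_abs, abs_of_nonneg (Real.sqrt_nonneg _)])
  have h4 : Tendsto (fun m : ℕ => (m : ℝ) *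
      (‖ex L (X₀ + (Real.sqrt m)⁻¹ • Y) - ex L X₀‖ ^ 2 / (2 * Fintype.card R))) atTop
      (𝓝 (‖D Y‖ ^ 2 / (2 * Fintype.card R))) := by
    refine ((h3.norm.pow 2).div_const (2 * (Fintype.card R : ℝ))).congr fun m => ?_
    rw [norm_smul, mul_pow, Real.norm_eq_abs, sq_abs, Real.sq_sqrt (Nat.cast_nonneg m),
      mul_div_assoc]
  have h5 := pow_lim h4
  have h6 : -(2 * (‖D Y‖ ^ 2 / (2 * Fintype.card R))) = -((Fintype.card R : ℝ)⁻¹ * ‖D Y‖ ^ 2) := by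
    field_simp
  rw [h6] at h5
  exact h5

include hL hsk hρ hlip in
/-- The domination of the integrand. -/
lemma dom_integrand [Nonempty R] (hρ1 : 4 * ρ ≤ 1) {X₀ : E} (hX₀ : ‖X₀‖ ≤ ρ) {m : ℕ}
    (hm : 0 < m) (Y : E) :
    ch ρ (X₀ + (Real.sqrt m)⁻¹ • Y) *
      ww (ex L (X₀ + (Real.sqrt m)⁻¹ • Y)) (ex L X₀) ^ (2 * m) ≤
      ρ * Real.exp (-((4 * Fintype.card R : ℝ)⁻¹ * ‖Y‖ ^ 2)) := by
  have hc := card_pos' (R := R)
  have hc1 := one_le_card (R := R)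
  have hm' : (0 : ℝ) < m := by exact_mod_cast hm
  set X := X₀ + (Real.sqrt m)⁻¹ • Y with hX
  by_cases hXρ : ‖X‖ ≤ ρ
  · refine mul_le_mul (ch_le hρ X) ?_ (ww_pow_nonneg _ _ _) hρ.le
    obtain ⟨h1, h2⟩ := lip hL hlip hXρ hX₀
    have h3 : ‖X - X₀‖ ≤ 2 * ρ := (norm_sub_le _ _).trans (by linarith)
    have h4 : 0 ≤ ww (ex L X) (ex L X₀) := by
      rw [ww]
      have h5 : ‖ex L X - ex L X₀‖ ≤ 1 := by linarith
      have h6 : ‖ex L X - ex L X₀‖ ^ 2 ≤ 1 := by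
        have := pow_le_pow_left₀ (norm_nonneg _) h5 2
        simpa using this
      have h7 : ‖ex L X - ex L X₀‖ ^ 2 / (2 * Fintype.card R) ≤ 1 := by
        rw [div_le_one (by positivity)]
        linarith
      linarith
    refine (ww_near h4 m).trans (Real.exp_le_exp.2 (neg_le_neg ?_))
    have h5 : ‖X - X₀‖ ^ 2 = (m : ℝ)⁻¹ * ‖Y‖ ^ 2 := by
      rw [hX, add_sub_cancel_left, norm_smul, mul_pow, norm_inv, Real.norm_eq_abs, inv_pow, sq_abs,
        Real.sq_sqrt hm'.le]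
    have h6 : ‖X - X₀‖ ^ 2 ≤ 4 * ‖ex L X - ex L X₀‖ ^ 2 := by
      have := pow_le_pow_left₀ (norm_nonneg (X - X₀)) h1 2
      nlinarith
    rw [h5] at h6
    calc (4 * Fintype.card R : ℝ)⁻¹ * ‖Y‖ ^ 2 = m / (4 * Fintype.card R) * ((m : ℝ)⁻¹ * ‖Y‖ ^ 2) := by
          field_simp
      _ ≤ m / (4 * Fintype.card R) * (4 * ‖ex L X - ex L X₀‖ ^ 2) :=
          mul_le_mul_of_nonneg_left h6 (by positivity)
      _ = m / Fintype.card R * ‖ex L X - ex L X₀‖ ^ 2 := by field_simp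
  · push Not at hXρ
    rw [ch_zero hXρ.le, zero_mul]
    positivity

/-- The integral after the change of variables. -/
lemma J_scale (X₀ : E) (g : Matrix R R ℂ) {m : ℕ} (hm : 0 < m) :
    Real.sqrt m ^ finrank ℝ E * Jm' ν L ρ m g =
      ∫ Y, ch ρ (X₀ + (Real.sqrt m)⁻¹ • Y) *
        ww (ex L (X₀ + (Real.sqrt m)⁻¹ • Y)) g ^ (2 * m) ∂ν := by
  rw [← scale ν (fun Y : E => ch ρ (X₀ + Y) * ww (ex L (X₀ + Y)) g ^ (2 * m)) hm]
  congr 1
  exact (integral_add_left_eq_self (fun Y : E => ch ρ Y * ww (ex L Y) g ^ (2 * m)) X₀).symm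

include hL hsk hρ hlip in
/-- The limit at a point near to one. -/
lemma J_lim_near [Nonempty R] (hρ1 : 4 * ρ ≤ 1) {X₀ : E} (hX₀ : ‖X₀‖ ≤ ρ) :
    ∃ l : ℝ, Tendsto (fun m : ℕ => Real.sqrt m ^ finrank ℝ E * Jm' ν L ρ m (ex L X₀)) atTop (𝓝 l) ∧
      (‖X₀‖ ≤ ρ / 2 →
        ρ / 2 * ∫ Y : E, Real.exp (-((4 * (Fintype.card R : ℝ)⁻¹) * ‖Y‖ ^ 2)) ∂ν ≤ l) := by
  have hc := card_pos' (R := R)
  obtain ⟨D, hD⟩ := ex_diff L X₀
  have hdom : Integrable (fun Y : E => ρ * Real.exp (-((4 * Fintype.card R : ℝ)⁻¹ * ‖Y‖ ^ 2))) ν :=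
    (gauss_int ν (by positivity)).const_mul ρ
  have hcont : ∀ m : ℕ, Continuous (fun Y : E => ch ρ (X₀ + (Real.sqrt m)⁻¹ • Y) *
        ww (ex L (X₀ + (Real.sqrt m)⁻¹ • Y)) (ex L X₀) ^ (2 * m)) := by
    intro m
    have h1 : Continuous fun Y : E => X₀ + (Real.sqrt m)⁻¹ • Y :=
      continuous_const.add (continuous_const.smul continuous_id)
    exact ((ch_cont ρ).comp h1).mul ((ww_cont.comp (((ex_cont L).comp h1).prodMk
      continuous_const)).pow _)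
  have hnn : ∀ (m : ℕ) (Y : E), 0 ≤ ch ρ (X₀ + (Real.sqrt m)⁻¹ • Y) *
        ww (ex L (X₀ + (Real.sqrt m)⁻¹ • Y)) (ex L X₀) ^ (2 * m) := fun m Y =>
    mul_nonneg (ch_nonneg _ _) (ww_pow_nonneg _ _ _)
  have hlim := tendsto_integral_of_dominated_convergence (μ := ν)
    (F := fun (m : ℕ) (Y : E) => ch ρ (X₀ + (Real.sqrt ((m + 1 : ℕ) : ℝ))⁻¹ • Y) *
        ww (ex L (X₀ + (Real.sqrt ((m + 1 : ℕ) : ℝ))⁻¹ • Y)) (ex L X₀) ^ (2 * (m + 1)))
    (fun Y : E => ρ * Real.exp (-((4 * Fintype.card R : ℝ)⁻¹ * ‖Y‖ ^ 2)))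
    (fun m => (hcont (m + 1)).aestronglyMeasurable) hdom
    (fun m => Eventually.of_forall fun Y => by
      rw [Real.norm_eq_abs, abs_of_nonneg (hnn (m + 1) Y)]
      exact dom_integrand hL hsk hρ hlip hρ1 hX₀ (Nat.succ_pos m) Y)
    (Eventually.of_forall fun Y => (tendsto_add_atTop_iff_nat 1).2 (lim_integrand hD Y))
  refine ⟨_, (tendsto_add_atTop_iff_nat 1).1 (hlim.congr fun m => ?_), fun hX₀' => ?_⟩
  · exact (J_scale X₀ (ex L X₀) (Nat.succ_pos m)).symm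
  · -- the estimates of the derivative
    have hs := sqrt_tendsto
    have hin : ∀ Y : E, ∀ᶠ m : ℕ in atTop, ‖X₀ + (Real.sqrt m)⁻¹ • Y‖ ≤ ρ := by
      intro Y
      have h2 : Tendsto (fun m : ℕ => X₀ + (Real.sqrt m)⁻¹ • Y) atTop (𝓝 (X₀ + (0 : ℝ) • Y)) :=
        tendsto_const_nhds.add ((tendsto_inv_atTop_zero.comp hs).smul_const Y)
      rw [zero_smul, add_zero] at h2
      have h3 := h2.norm.eventually_le_const (u := ρ) (by linarith)
      exact h3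
    have hup : ∀ Y : E, ‖D Y‖ ≤ 2 * ‖Y‖ := by
      intro Y
      have h3 := hD.lim Y (c := fun m : ℕ => Real.sqrt m) (l := atTop)
        (hs.congr fun m => by rw [Real.norm_eq_abs, abs_of_nonneg (Real.sqrt_nonneg _)])
      refine le_of_tendsto h3.norm ?_
      filter_upwards [hin Y, eventually_gt_atTop 0] with m hm hm0
      have hm' : (0 : ℝ) < m := by exact_mod_cast hm0
      have hsq : 0 < Real.sqrt m := Real.sqrt_pos.2 hm'
      have h4 := (lip hL hlip hm hX₀).2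
      rw [add_sub_cancel_left, norm_smul, norm_inv, Real.norm_eq_abs, abs_of_pos hsq] at h4
      rw [norm_smul, Real.norm_eq_abs, abs_of_pos hsq]
      calc Real.sqrt m * _ ≤ Real.sqrt m * (2 * ((Real.sqrt m)⁻¹ * ‖Y‖)) :=
            mul_le_mul_of_nonneg_left h4 hsq.le
        _ = 2 * ‖Y‖ := by field_simp
    have hlow : ∀ Y : E, ‖Y‖ ≤ 2 * ‖D Y‖ := by
      intro Y
      have h3 := hD.lim Y (c := fun m : ℕ => Real.sqrt m) (l := atTop)
        (hs.congr fun m => by rw [Real.norm_eq_abs, abs_of_nonneg (Real.sqrt_nonneg _)])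
      refine ge_of_tendsto (h3.norm.const_mul 2) ?_
      filter_upwards [hin Y, eventually_gt_atTop 0] with m hm hm0
      have hm' : (0 : ℝ) < m := by exact_mod_cast hm0
      have hsq : 0 < Real.sqrt m := Real.sqrt_pos.2 hm'
      have h4 := (lip hL hlip hm hX₀).1
      rw [add_sub_cancel_left, norm_smul, norm_inv, Real.norm_eq_abs, abs_of_pos hsq] at h4
      rw [norm_smul, Real.norm_eq_abs, abs_of_pos hsq]
      calc ‖Y‖ = Real.sqrt m * ((Real.sqrt m)⁻¹ * ‖Y‖) := by field_simp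
        _ ≤ Real.sqrt m * (2 * ‖ex L (X₀ + (Real.sqrt m)⁻¹ • Y) - ex L X₀‖) :=
            mul_le_mul_of_nonneg_left h4 hsq.le
        _ = _ := by ring
    have hDc : Continuous fun Y : E => ch ρ X₀ * Real.exp (-((Fintype.card R : ℝ)⁻¹ * ‖D Y‖ ^ 2)) :=
      continuous_const.mul (Real.continuous_exp.comp
        (continuous_const.mul ((D.continuous.norm).pow 2)).neg)
    have hDi : Integrable (fun Y : E =>
        ch ρ X₀ * Real.exp (-((Fintype.card R : ℝ)⁻¹ * ‖D Y‖ ^ 2))) ν := by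
      refine hdom.mono' hDc.aestronglyMeasurable (Eventually.of_forall fun Y => ?_)
      rw [Real.norm_eq_abs, abs_of_nonneg (mul_nonneg (ch_nonneg _ _) (Real.exp_pos _).le)]
      refine mul_le_mul (ch_le hρ X₀) ?_ (Real.exp_pos _).le hρ.le
      refine Real.exp_le_exp.2 (neg_le_neg ?_)
      have h5 : ‖Y‖ ^ 2 ≤ 4 * ‖D Y‖ ^ 2 := by
        have := pow_le_pow_left₀ (norm_nonneg Y) (hlow Y) 2
        nlinarith
      calc (4 * Fintype.card R : ℝ)⁻¹ * ‖Y‖ ^ 2 ≤ (4 * Fintype.card R : ℝ)⁻¹ * (4 * ‖D Y‖ ^ 2) :=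
            mul_le_mul_of_nonneg_left h5 (by positivity)
        _ = (Fintype.card R : ℝ)⁻¹ * ‖D Y‖ ^ 2 := by field_simp
    rw [← integral_const_mul]
    refine integral_mono ((gauss_int ν (by positivity)).const_mul (ρ / 2)) hDi fun Y => ?_
    refine mul_le_mul (ch_ge hX₀') ?_ (Real.exp_pos _).le (ch_nonneg _ _)
    refine Real.exp_le_exp.2 (neg_le_neg ?_)
    have h5 : ‖D Y‖ ^ 2 ≤ 4 * ‖Y‖ ^ 2 := by
      have := pow_le_pow_left₀ (norm_nonneg (D Y)) (hup Y) 2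
      nlinarith
    calc (Fintype.card R : ℝ)⁻¹ * ‖D Y‖ ^ 2 ≤ (Fintype.card R : ℝ)⁻¹ * (4 * ‖Y‖ ^ 2) :=
          mul_le_mul_of_nonneg_left h5 (by positivity)
      _ = 4 * (Fintype.card R : ℝ)⁻¹ * ‖Y‖ ^ 2 := by ring

include hL hsk hρ hlip in
/-- The limit at a point far from one. -/
lemma J_lim_far [Nonempty R] {g : Matrix R R ℂ} (hg : gᴴ * g = 1)
    (h1 : ∀ X : E, ‖X‖ ≤ ρ → ex L X ≠ g) (h2 : ∀ X : E, ‖X‖ ≤ ρ → ex L X ≠ -g) :
    Tendsto (fun m : ℕ => Real.sqrt m ^ finrank ℝ E * Jm' ν L ρ m g) atTop (𝓝 0) := by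
  have hc := card_pos' (R := R)
  have hcw : Continuous fun X : E => |ww (ex L X) g| :=
    (ww_cont.comp ((ex_cont L).prodMk continuous_const)).abs
  obtain ⟨Y, hY, hmax⟩ := (isCompact_closedBall (0 : E) ρ).exists_isMaxOn
    ⟨0, by rw [mem_closedBall_zero_iff, norm_zero]; exact hρ.le⟩ hcw.continuousOn
  rw [mem_closedBall_zero_iff] at hY
  set q := |ww (ex L Y) g| with hq
  have hq1 : q < 1 := by
    have h3 : ww (ex L Y) g < 1 := by
      have h4 : 0 < ‖ex L Y - g‖ := norm_pos_iff.2 (sub_ne_zero.2 (h1 Y hY))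
      rw [ww]
      have h5 : 0 < ‖ex L Y - g‖ ^ 2 / (2 * Fintype.card R) := by positivity
      linarith
    have h4 : ww (ex L Y) (-g) < 1 := by
      have h4 : 0 < ‖ex L Y - -g‖ := norm_pos_iff.2 (sub_ne_zero.2 (h2 Y hY))
      rw [ww]
      have h5 : 0 < ‖ex L Y - -g‖ ^ 2 / (2 * Fintype.card R) := by positivity
      linarith
    rw [ww_neg (ex_unitary hsk Y) hg] at h4
    rw [hq, abs_lt]
    constructor <;> linarith
  have hq0 : 0 ≤ q := abs_nonneg _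
  have hb : ∀ m : ℕ, Jm' ν L ρ m g ≤ (∫ X, ch (E := E) ρ X ∂ν) * (q ^ 2) ^ m := by
    intro m
    rw [Jm', ← integral_mul_const]
    refine integral_mono (integrable_cont ?_) ((ch_int ν ρ).mul_const _) fun X => ?_
    · exact (ww_cont.comp ((ex_cont L).prodMk continuous_const)).pow _
    · by_cases hX : ‖X‖ ≤ ρ
      · refine mul_le_mul_of_nonneg_left ?_ (ch_nonneg _ _)
        have h3 : |ww (ex L X) g| ≤ q := hmax (by rwa [mem_closedBall_zero_iff])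
        rw [pow_mul, ← sq_abs]
        exact pow_le_pow_left₀ (by positivity) (pow_le_pow_left₀ (abs_nonneg _) h3 2) m
      · push Not at hX
        simp only
        rw [ch_zero hX.le, zero_mul, zero_mul]
  have h3 : Tendsto (fun m : ℕ => (∫ X, ch (E := E) ρ X ∂ν) *
      ((m : ℝ) ^ finrank ℝ E * (q ^ 2) ^ m)) atTop (𝓝 0) := by
    have h4 := tendsto_pow_const_mul_const_pow_of_lt_one (finrank ℝ E) (r := q ^ 2) (by positivity)
      (by nlinarith)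
    have h5 := h4.const_mul (∫ X, ch (E := E) ρ X ∂ν)
    rwa [mul_zero] at h5
  refine squeeze_zero' (Eventually.of_forall fun m => mul_nonneg (by positivity) (J_nonneg _ _)) ?_
    h3
  filter_upwards [eventually_gt_atTop 0] with m hm
  have hm1 : (1 : ℝ) ≤ m := by exact_mod_cast hm
  have h4 : Real.sqrt m ^ finrank ℝ E ≤ (m : ℝ) ^ finrank ℝ E := by
    refine pow_le_pow_left₀ (Real.sqrt_nonneg _) ?_ _
    rw [Real.sqrt_le_left (by positivity)]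
    nlinarith
  have h5 : 0 ≤ ∫ X, ch (E := E) ρ X ∂ν := integral_nonneg (ch_nonneg ρ)
  calc _ ≤ (m : ℝ) ^ finrank ℝ E * ((∫ X, ch (E := E) ρ X ∂ν) * (q ^ 2) ^ m) :=
        mul_le_mul h4 (hb m) (J_nonneg _ _) (by positivity)
    _ = _ := by ring

lemma J_neg [Nonempty R] (hsk : ∀ X, (L X)ᴴ = -L X) {g : Matrix R R ℂ} (hg : gᴴ * g = 1) (m : ℕ) :
    Jm' ν L ρ m (-g) = Jm' ν L ρ m g := by
  rw [Jm', Jm']
  congr 1
  funext X
  rw [ww_neg (ex_unitary hsk X) hg, pow_mul, neg_sq, ← pow_mul]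

include hL hsk hρ hlip in
/-- **The limit.** -/
theorem J_lim [Nonempty R] (hρ1 : 4 * ρ ≤ 1) {g : Matrix R R ℂ} (hg : gᴴ * g = 1) :
    ∃ l : ℝ, Tendsto (fun m : ℕ => Real.sqrt m ^ finrank ℝ E * Jm' ν L ρ m g) atTop (𝓝 l) ∧
      ((∃ X₀ : E, ‖X₀‖ ≤ ρ / 2 ∧ ex L X₀ = g) →
        ρ / 2 * ∫ Y : E, Real.exp (-((4 * (Fintype.card R : ℝ)⁻¹) * ‖Y‖ ^ 2)) ∂ν ≤ l) := by
  by_cases h1 : ∃ X : E, ‖X‖ ≤ ρ ∧ ex L X = g
  · obtain ⟨X, hX, rfl⟩ := h1
    obtain ⟨l, hl, _⟩ := J_lim_near (ν := ν) hL hsk hρ hlip hρ1 hX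
    refine ⟨l, hl, fun h => ?_⟩
    obtain ⟨X₀, hX₀, he⟩ := h
    obtain ⟨l', hl', hl2⟩ := J_lim_near (ν := ν) hL hsk hρ hlip hρ1 (X₀ := X₀) (by linarith)
    rw [he] at hl'
    rw [tendsto_nhds_unique hl hl']
    exact hl2 hX₀
  · have h1' : ∀ X : E, ‖X‖ ≤ ρ → ex L X ≠ g := fun X hX he => h1 ⟨X, hX, he⟩
    by_cases h2 : ∃ X : E, ‖X‖ ≤ ρ ∧ ex L X = -g
    · obtain ⟨X, hX, he⟩ := h2
      obtain ⟨l, hl, _⟩ := J_lim_near (ν := ν) hL hsk hρ hlip hρ1 hX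
      rw [he] at hl
      simp only [J_neg hsk hg] at hl
      refine ⟨l, hl, fun h => ?_⟩
      obtain ⟨X₀, hX₀, he'⟩ := h
      exact absurd he' (h1' X₀ (by linarith))
    · have h2' : ∀ X : E, ‖X‖ ≤ ρ → ex L X ≠ -g := fun X hX he => h2 ⟨X, hX, he⟩
      refine ⟨0, J_lim_far hL hsk hρ hlip hg h1' h2', fun h => ?_⟩
      obtain ⟨X₀, hX₀, he'⟩ := h
      exact absurd he' (h1' X₀ (by linarith))

end

end Pool.Agent.H25.HG
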