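import Pool.Agent.H25.HG.B3

/-!
# The asymptotic behaviour of the moments of the trace
-/

set_option autoImplicit false
set_option linter.unusedSectionVars false
set_option linter.unusedDecidableInType false
set_option linter.unusedFintypeInType false

namespace Pool.Agent.H25.HG

open Matrix Finset Module MeasureTheory Filter Topology NormedSpace
open scoped Matrix.Norms.Frobenius

noncomputable section

variable {R : Type} [Fintype R] [DecidableEq R]
  {E : Type} [NormedAddCommGroup E] [NormedSpace ℝ E] [FiniteDimensional ℝ E]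
  [MeasurableSpace E] [BorelSpace E] (ν : Measure E) [ν.IsAddHaarMeasure]
  {L : E →L[ℝ] Matrix R R ℂ} (hL : ∀ X, ‖L X‖ = ‖X‖) (hsk : ∀ X, (L X)ᴴ = -L X) {ρ : ℝ}
  (hρ : 0 < ρ)
  (hlip : ∀ A B : Matrix R R ℂ, ‖A‖ ≤ ρ → ‖B‖ ≤ ρ →
    ‖A - B‖ ≤ 2 * ‖exp A - exp B‖ ∧ ‖exp A - exp B‖ ≤ 2 * ‖A - B‖)
  {G : Type} [Group G] [TopologicalSpace G] [IsTopologicalGroup G]
  [MeasurableSpace G] [BorelSpace G] {μ : Measure G} [IsFiniteMeasure μ] [μ.IsMulLeftInvariant]
  [μ.IsOpenPosMeasure] {a : G →* Matrix R R ℂ} (ha : Continuous a) (hu : ∀ g, (a g)ᴴ * a g = 1)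
  {e : E → G} (hae : ∀ X, a (e X) = ex L X)

include hu in
lemma ww_one [Nonempty R] (g : G) : ww 1 (a g) = ((a g).trace).re / Fintype.card R := by
  have hc := card_pos' (R := R)
  have h1 := trace_eq (g := (1 : Matrix R R ℂ)) (h := a g)
    (by rw [Matrix.conjTranspose_one, one_mul]) (hu g)
  rw [Matrix.conjTranspose_one, one_mul] at h1
  rw [h1, ww]
  field_simp

include ha in
lemma F_cont (ρ : ℝ) (m : ℕ) : Continuous (Function.uncurry fun (X : E) (g : G) =>
    ch ρ X * ww (ex L X) (a g) ^ (2 * m)) :=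
  ((ch_cont ρ).comp continuous_fst).mul ((ww_cont.comp (((ex_cont L).comp continuous_fst).prodMk
    (ha.comp continuous_snd))).pow _)

include ha hu hsk in
lemma F_int [Nonempty R] (ρ : ℝ) (m : ℕ) : Integrable (Function.uncurry fun (X : E) (g : G) =>
    ch ρ X * ww (ex L X) (a g) ^ (2 * m)) (ν.prod μ) := by
  refine ((ch_int ν ρ).comp_fst μ).mono' (F_cont ha ρ m).aestronglyMeasurable
    (Eventually.of_forall fun p => ?_)
  simp only [Function.uncurry]
  rw [Real.norm_eq_abs, abs_of_nonneg (mul_nonneg (ch_nonneg _ _) (ww_pow_nonneg _ _ _))]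
  exact mul_le_of_le_one_right (ch_nonneg _ _) (ww_pow_le_one (ex_unitary hsk _) (hu _) m)

include ha hu hsk hae in
/-- The change of the order of the integrations. -/
lemma swap [Nonempty R] (ρ : ℝ) (m : ℕ) :
    (∫ X, ch (E := E) ρ X ∂ν) * ∫ g, (((a g).trace).re / Fintype.card R) ^ (2 * m) ∂μ =
      ∫ g, Jm' ν L ρ m (a g) ∂μ := by
  have h1 := integral_integral_swap (F_int ν hsk ha hu (μ := μ) ρ m)
  have h2 : ∀ X : E, (∫ g, ch ρ X * ww (ex L X) (a g) ^ (2 * m) ∂μ) =
      ch ρ X * ∫ g, (((a g).trace).re / Fintype.card R) ^ (2 * m) ∂μ := by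
    intro X
    rw [integral_const_mul]
    congr 1
    rw [← integral_mul_left_eq_self (fun g => ww (ex L X) (a g) ^ (2 * m)) (e X)]
    refine integral_congr_ae (Eventually.of_forall fun g => ?_)
    simp only
    rw [← ww_one hu g]
    congr 1
    rw [ww, ww, map_mul, hae]
    have h3 : ex L X - ex L X * a g = ex L X * (1 - a g) := by rw [mul_sub, mul_one]
    rw [h3, frob_unitary (ex_unitary hsk X)]
  simp only [h2] at h1
  rw [integral_mul_const] at h1
  exact h1

include ν hL hsk hρ hlip ha hu hae in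
/-- **The asymptotic behaviour of the moments of the trace.** -/
theorem asym [Nonempty R] (hρ1 : 4 * ρ ≤ 1) {δ : ℝ} (hδ : 0 < δ)
    (hloc : ∀ g, ‖a g - 1‖ < δ → ∃ X : E, ‖X‖ ≤ ρ / 2 ∧ ex L X = a g) :
    ∃ Λ : ℝ, 0 < Λ ∧ Tendsto (fun m : ℕ => Real.sqrt m ^ finrank ℝ E *
      ∫ g, (((a g).trace).re / Fintype.card R) ^ (2 * m) ∂μ) atTop (𝓝 Λ) := by
  have hc := card_pos' (R := R)
  choose l hl hl2 using fun g : G => J_lim (ν := ν) hL hsk hρ hlip hρ1 (hu g)
  set C := 2 * (ρ * ∫ X : E, Real.exp (-((16 * Fintype.card R : ℝ)⁻¹ * ‖X‖ ^ 2)) ∂ν) with hC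
  set c₀ := ρ / 2 * ∫ Y : E, Real.exp (-((4 * (Fintype.card R : ℝ)⁻¹) * ‖Y‖ ^ 2)) ∂ν with hc₀
  have hc₀pos : 0 < c₀ := mul_pos (by linarith) (gauss_pos ν (by positivity))
  have hJi : ∀ m : ℕ, Integrable (fun g => Jm' ν L ρ m (a g)) μ := fun m =>
    (F_int ν hsk ha hu (μ := μ) ρ m).integral_prod_right
  have hJn : ∀ (m : ℕ) (g : G), 0 ≤ Real.sqrt m ^ finrank ℝ E * Jm' ν L ρ m (a g) := fun m g =>
    mul_nonneg (by positivity) (J_nonneg _ _)
  have hlim := tendsto_integral_of_dominated_convergence (μ := μ)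
    (F := fun (m : ℕ) (g : G) => Real.sqrt ((m + 1 : ℕ) : ℝ) ^ finrank ℝ E *
      Jm' ν L ρ (m + 1) (a g)) (fun _ => C)
    (fun m => ((hJi (m + 1)).const_mul _).aestronglyMeasurable) (integrable_const C)
    (fun m => Eventually.of_forall fun g => by
      rw [Real.norm_eq_abs, abs_of_nonneg (hJn (m + 1) g)]
      exact J_bound hL hsk hρ hlip (hu g) (Nat.succ_pos m))
    (Eventually.of_forall fun g => (tendsto_add_atTop_iff_nat 1).2 (hl g))
  have hlim' := (tendsto_add_atTop_iff_nat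
    (f := fun m : ℕ => ∫ g, Real.sqrt (m : ℝ) ^ finrank ℝ E * Jm' ν L ρ m (a g) ∂μ) 1).1 hlim
  have hl0 : ∀ g, 0 ≤ l g := fun g => ge_of_tendsto' (hl g) fun m => hJn m g
  have hlC : ∀ g, l g ≤ C := fun g => by
    refine le_of_tendsto (hl g) ?_
    filter_upwards [eventually_gt_atTop 0] with m hm
    exact J_bound hL hsk hρ hlip (hu g) hm
  have hli : Integrable l μ := by
    refine (integrable_const C).mono' (aestronglyMeasurable_of_tendsto_ae atTop
      (fun m => ((hJi m).const_mul (Real.sqrt m ^ finrank ℝ E)).aestronglyMeasurable)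
      (Eventually.of_forall hl)) (Eventually.of_forall fun g => ?_)
    rw [Real.norm_eq_abs, abs_of_nonneg (hl0 g)]
    exact hlC g
  -- the neighbourhood of one
  let U : Set G := {g | ‖a g - 1‖ < δ}
  have hUo : IsOpen U := isOpen_lt ((ha.sub continuous_const).norm) continuous_const
  have hU1 : (1 : G) ∈ U := by
    change ‖a 1 - 1‖ < δ
    rw [map_one, sub_self, norm_zero]
    exact hδ
  have hUpos : 0 < μ.real U := by
    rw [Measure.real, ENNReal.toReal_pos_iff]
    exact ⟨hUo.measure_pos μ ⟨1, hU1⟩, measure_lt_top _ _⟩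
  have hpos : 0 < ∫ g, l g ∂μ := by
    have h1 : (∫ g, U.indicator (fun _ => c₀) g ∂μ) = μ.real U * c₀ := by
      rw [integral_indicator_const c₀ hUo.measurableSet, smul_eq_mul]
    have h2 : (∫ g, U.indicator (fun _ => c₀) g ∂μ) ≤ ∫ g, l g ∂μ := by
      refine integral_mono ((integrable_const c₀).indicator hUo.measurableSet) hli fun g => ?_
      by_cases hg : g ∈ U
      · rw [Set.indicator_of_mem hg]
        exact hl2 g (hloc g hg)
      · rw [Set.indicator_of_notMem hg]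
        exact hl0 g
    rw [h1] at h2
    exact lt_of_lt_of_le (mul_pos hUpos hc₀pos) h2
  have hchp := ch_int_pos ν (E := E) hρ
  refine ⟨(∫ g, l g ∂μ) / ∫ X, ch (E := E) ρ X ∂ν, div_pos hpos hchp, ?_⟩
  refine (hlim'.div_const _).congr fun m => ?_
  rw [integral_const_mul, ← swap ν hsk ha hu hae]
  field_simp

end

end Pool.Agent.H25.HG
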