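import Pool.Agent.H25.HG.A7
import Pool.Agent.H25.HG.B4

/-!
# The asymptotic behaviour of the number of tensors
-/

set_option autoImplicit false
set_option linter.unusedSectionVars false
set_option linter.unusedDecidableInType false
set_option linter.unusedFintypeInType false

namespace Pool.Agent.H25.HG

open Matrix Finset Module MeasureTheory Filter Topology Pool.Agent.H204R3.SP
  Pool.Agent.H204R3.GP Pool.Agent.W516 Pool.Agent.X259.T Pool.Agent.X259.U
open scoped ComplexOrder Matrix.Norms.Frobenius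

noncomputable section

variable {R : Type} [Fintype R] [DecidableEq R] {Q : Type} [DecidableEq Q]
  {cls : R → Q} {inv : R → R} {jj : R → ℂ} {B C : ∀ κ : Type, Submodule ℂ ((κ → R) → ℂ)}

/-- The real Lie algebra of the compact group. -/
def kk (B : ∀ κ : Type, Submodule ℂ ((κ → R) → ℂ)) : Submodule ℝ (Matrix R R ℂ) where
  carrier := {A | A ∈ LL B ∧ Aᴴ = -A}
  zero_mem' := ⟨Submodule.zero_mem _, by simp⟩
  add_mem' := fun {a b} ha hb => ⟨Submodule.add_mem _ ha.1 hb.1, by
    rw [Matrix.conjTranspose_add, ha.2, hb.2, neg_add]⟩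
  smul_mem' := fun c a ha => by
    have h1 : c • a = (c : ℂ) • a := by
      ext i j
      rw [Matrix.smul_apply, Matrix.smul_apply, Complex.real_smul, smul_eq_mul]
    refine ⟨?_, ?_⟩
    · rw [h1]
      exact Submodule.smul_mem _ _ ha.1
    · rw [Matrix.conjTranspose_smul, ha.2, smul_neg]
      simp

/-- Tensors of bounded degree determine the Lie algebra. -/
lemma exists_lieDet (B : ∀ κ : Type, Submodule ℂ ((κ → R) → ℂ)) : ∃ N : ℕ, ∀ M, N ≤ M →
    LieDetC B B M := by
  let f : ℕ →o (Submodule ℂ (Matrix R R ℂ))ᵒᵈ :=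
    { toFun := fun N => OrderDual.toDual
        { carrier := {A | ∀ n ≤ N, ∀ F ∈ B (Fin n), dk (Fin n) A *ᵥ F = 0}
          zero_mem' := fun n _ F _ => by
            funext I
            rw [dk_mulVec]
            simp
          add_mem' := fun {a b} ha hb n hn F hF => by
            have h1 := dk_smul_add (κ := Fin n) a b 1 F
            rw [one_smul, ha n hn F hF, hb n hn F hF, smul_zero, add_zero] at h1
            exact h1
          smul_mem' := fun c a ha n hn F hF => by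
            have h1 := dk_smul_add (κ := Fin n) 0 a c F
            rw [zero_add, ha n hn F hF, smul_zero, add_zero] at h1
            rw [h1]
            funext I
            rw [dk_mulVec]
            simp }
      monotone' := fun N M hNM A hA n hn F hF => hA n (hn.trans hNM) F hF }
  obtain ⟨N, hN⟩ := IsArtinian.monotone_stabilizes f
  refine ⟨N, fun M hM A hA n F hF => ?_⟩
  have h1 : A ∈ OrderDual.ofDual (f N) := fun n' hn' F' hF' => hA n' (hn'.trans hM) F' hF'
  have h2 : f N = f (max N n) := hN _ (le_max_left _ _)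
  rw [h2] at h1
  exact h1 n (le_max_right _ _) F hF

/-- The exponential of a skew-hermitian matrix. -/
lemma exp_eu (U : Matrix.unitaryGroup R ℂ) (θ : R → ℝ) :
    NormedSpace.exp ((U : Matrix R R ℂ) * Matrix.diagonal (fun x => Complex.I * (θ x : ℂ)) *
      (U : Matrix R R ℂ)ᴴ) = (U : Matrix R R ℂ) * ed θ 1 * (U : Matrix R R ℂ)ᴴ := by
  have hU2 : (U : Matrix R R ℂ) * (U : Matrix R R ℂ)ᴴ = 1 := Matrix.mem_unitaryGroup_iff.1 U.2
  have hU1 : (U : Matrix R R ℂ)ᴴ * (U : Matrix R R ℂ) = 1 := Matrix.mem_unitaryGroup_iff'.1 U.2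
  have hinv : (U : Matrix R R ℂ)⁻¹ = (U : Matrix R R ℂ)ᴴ := Matrix.inv_eq_right_inv hU2
  have hun : IsUnit (U : Matrix R R ℂ) := ⟨⟨_, _, hU2, hU1⟩, rfl⟩
  rw [← hinv, Matrix.exp_conj _ _ hun, Matrix.exp_diagonal]
  congr 2
  rw [ed]
  congr 1
  funext x
  rw [Pi.coe_exp, ← Complex.exp_eq_exp_ℂ, one_mul]

/-- The exponentials of the elements of the Lie algebra. -/
lemma exp_mem {A : Matrix R R ℂ} (hA : A ∈ kk B) :
    ∃ g ∈ stabG (tens B), (g : Matrix R R ℂ) = NormedSpace.exp A := by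
  obtain ⟨U, θ, hU⟩ := exists_diag_skew' hA.2
  have hU1 : (U : Matrix R R ℂ)ᴴ * (U : Matrix R R ℂ) = 1 := Matrix.mem_unitaryGroup_iff'.1 U.2
  have hU2 : (U : Matrix R R ℂ) * (U : Matrix R R ℂ)ᴴ = 1 := Matrix.mem_unitaryGroup_iff.1 U.2
  refine ⟨eu U θ 1, fun s hs => ?_, ?_⟩
  · rw [eu_coe]
    refine ed_fix hU1 hU2 ?_ 1
    rw [← hU]
    exact hA.1 s.1 s.2 hs
  · rw [eu_coe, hU, exp_eu]

/-- The logarithm kills the tensors. -/
lemma kill_of_fix {N : ℕ} (hN : 0 < N) {P P' : Matrix R R ℂ} (h1 : P' * P = 1) (h2 : P * P' = 1)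
    {θ : R → ℝ} (hθ : ∀ x, |θ x| < 2 * Real.pi / N) {n : ℕ} (hn : n ≤ N) {F : (Fin n → R) → ℂ}
    (hF : kr (Fin n) (P * ed θ 1 * P') *ᵥ F = F) :
    dk (Fin n) (P * Matrix.diagonal (fun x => Complex.I * (θ x : ℂ)) * P') *ᵥ F = 0 := by
  rw [dk_conj_diag h1 h2]
  have h4 : dk (Fin n) (Matrix.diagonal fun x => Complex.I * (θ x : ℂ)) *ᵥ
      (kr (Fin n) P' *ᵥ F) = 0 := by
    funext I
    rw [dk_diagonal_mulVec, Pi.zero_apply]
    by_cases h6 : (kr (Fin n) P' *ᵥ F) I = 0
    · rw [h6, mul_zero]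
    · have h5 := congrFun (congrArg (fun x => kr (Fin n) P' *ᵥ x) hF) I
      rw [kr_conj_diag h1, ed, kr_diagonal_mulVec, ed_prod, one_mul] at h5
      have h7 : Complex.exp (Complex.I * (∑ k, θ (I k) : ℝ)) = 1 :=
        mul_right_cancel₀ h6 (by rw [h5, one_mul])
      rw [Complex.exp_eq_one_iff] at h7
      obtain ⟨z, hz⟩ := h7
      have h9 : (∑ k, θ (I k)) = z * (2 * Real.pi) := by
        have h10 : (((∑ k, θ (I k) : ℝ) : ℂ)) = ((z * (2 * Real.pi) : ℝ) : ℂ) := by
          apply mul_left_cancel₀ Complex.I_ne_zero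
          rw [hz]
          push_cast
          ring
        exact_mod_cast h10
      have h11 : |∑ k, θ (I k)| < 2 * Real.pi := by
        rcases Nat.eq_zero_or_pos n with h0 | h0
        · subst h0
          rw [Finset.univ_eq_empty, Finset.sum_empty, abs_zero]
          positivity
        · have h12 : (∑ k : Fin n, |θ (I k)|) < ∑ _k : Fin n, 2 * Real.pi / N := by
            refine Finset.sum_lt_sum_of_nonempty ?_ fun k _ => hθ _
            exact ⟨⟨0, h0⟩, Finset.mem_univ _⟩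
          rw [Finset.sum_const, Finset.card_univ, Fintype.card_fin, nsmul_eq_mul] at h12
          refine (Finset.abs_sum_le_sum_abs _ _).trans_lt (h12.trans_le ?_)
          have hN' : (0 : ℝ) < N := by exact_mod_cast hN
          have hn' : (n : ℝ) ≤ N := by exact_mod_cast hn
          rw [mul_div_assoc', div_le_iff₀ hN']
          have := Real.pi_pos
          nlinarith
      have h13 : z = 0 := by
        rw [h9, abs_mul, abs_of_pos (by positivity : (0 : ℝ) < 2 * Real.pi)] at h11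
        have h14 : |(z : ℝ)| < 1 := by
          have : (0 : ℝ) < 2 * Real.pi := by positivity
          by_contra hcon
          push Not at hcon
          nlinarith
        have h15 : |z| < 1 := by exact_mod_cast h14
        exact Int.abs_lt_one_iff.1 h15
      rw [h13, Int.cast_zero, zero_mul] at h9
      rw [← Finset.mul_sum]
      have h16 : (∑ k, (θ (I k) : ℂ)) = 0 := by exact_mod_cast h9
      rw [h16, mul_zero, zero_mul]
  rw [h4, Matrix.mulVec_zero]

/-- The eigenvalues are bounded by the norm. -/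
lemma theta_le (U : Matrix.unitaryGroup R ℂ) (θ : R → ℝ) (x : R) :
    |θ x| ≤ ‖(U : Matrix R R ℂ) * Matrix.diagonal (fun x => Complex.I * (θ x : ℂ)) *
      (U : Matrix R R ℂ)ᴴ‖ := by
  have hU1 : (U : Matrix R R ℂ)ᴴ * (U : Matrix R R ℂ) = 1 := Matrix.mem_unitaryGroup_iff'.1 U.2
  refine abs_le_of_sq_le_sq ?_ (norm_nonneg _)
  rw [frob_sq, Matrix.conjTranspose_mul, Matrix.conjTranspose_mul,
    Matrix.conjTranspose_conjTranspose]
  have h1 : (U : Matrix R R ℂ) * ((Matrix.diagonal fun x => Complex.I * (θ x : ℂ))ᴴ *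
      (U : Matrix R R ℂ)ᴴ) * ((U : Matrix R R ℂ) *
      Matrix.diagonal (fun x => Complex.I * (θ x : ℂ)) * (U : Matrix R R ℂ)ᴴ) =
      (U : Matrix R R ℂ) * ((Matrix.diagonal fun x => Complex.I * (θ x : ℂ))ᴴ *
      Matrix.diagonal (fun x => Complex.I * (θ x : ℂ))) * (U : Matrix R R ℂ)ᴴ := by
    simp only [mul_assoc]
    rw [← mul_assoc (U : Matrix R R ℂ)ᴴ (U : Matrix R R ℂ), hU1, one_mul]
  rw [h1, Matrix.trace_mul_comm, ← mul_assoc, hU1, one_mul, Matrix.diagonal_conjTranspose,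
    Matrix.diagonal_mul_diagonal, Matrix.trace_diagonal, Complex.re_sum]
  have h2 : ∀ y, (star (fun x => Complex.I * (θ x : ℂ)) y * (Complex.I * (θ y : ℂ))).re =
      θ y ^ 2 := by
    intro y
    rw [Pi.star_apply]
    change ((starRingEnd ℂ) (Complex.I * (θ y : ℂ)) * (Complex.I * (θ y : ℂ))).re = _
    rw [map_mul, Complex.conj_I, Complex.conj_ofReal]
    have h3 : -Complex.I * (θ y : ℂ) * (Complex.I * (θ y : ℂ)) = ((θ y ^ 2 : ℝ) : ℂ) := by
      push_cast
      linear_combination (-(θ y : ℂ) ^ 2) * Complex.I_sq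
    rw [h3, Complex.ofReal_re]
  simp only [h2]
  exact Finset.single_le_sum (f := fun y => θ y ^ 2) (fun y _ => sq_nonneg _) (Finset.mem_univ x)

/-- An element near to one is the exponential of an element of the Lie algebra. -/
lemma log_mem {N : ℕ} (hN : 0 < N) (hL : LieDetC B B N) {g : Matrix.unitaryGroup R ℂ}
    (hg : g ∈ stabG (tens B)) {A : Matrix R R ℂ} (hA : Aᴴ = -A) (hAg : NormedSpace.exp A = g)
    (hAN : ‖A‖ < 2 * Real.pi / N) : A ∈ kk B := by
  refine ⟨?_, hA⟩
  obtain ⟨U, θ, hU⟩ := exists_diag_skew' hA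
  have hU1 : (U : Matrix R R ℂ)ᴴ * (U : Matrix R R ℂ) = 1 := Matrix.mem_unitaryGroup_iff'.1 U.2
  have hU2 : (U : Matrix R R ℂ) * (U : Matrix R R ℂ)ᴴ = 1 := Matrix.mem_unitaryGroup_iff.1 U.2
  refine hL A fun n hn F hF => ?_
  rw [hU]
  refine kill_of_fix hN hU1 hU2 (fun x => ?_) hn ?_
  · refine (theta_le U θ x).trans_lt ?_
    rwa [← hU]
  · rw [← exp_eu, ← hU, hAg]
    exact hg ⟨n, F⟩ hF

/-- The dimension of the real Lie algebra. -/
lemma finrank_kk (hB : Bas cls inv jj) (hBf : Fam cls inv jj B) :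
    finrank ℝ (kk B) = finrank ℂ (LL B) := by
  have hr : ∀ (c : ℝ) (M : Matrix R R ℂ), c • M = (c : ℂ) • M := by
    intro c M
    ext i j
    rw [Matrix.smul_apply, Matrix.smul_apply, Complex.real_smul, smul_eq_mul]
  let f : (kk B × kk B) →ₗ[ℝ] LL B :=
    { toFun := fun p => ⟨(p.1 : Matrix R R ℂ) + Complex.I • (p.2 : Matrix R R ℂ),
        Submodule.add_mem _ p.1.2.1 (Submodule.smul_mem _ _ p.2.2.1)⟩
      map_add' := fun p q => by
        apply Subtype.ext
        change (p.1 + q.1 : Matrix R R ℂ) + Complex.I • (p.2 + q.2 : Matrix R R ℂ) =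
          ((p.1 : Matrix R R ℂ) + Complex.I • (p.2 : Matrix R R ℂ)) +
            ((q.1 : Matrix R R ℂ) + Complex.I • (q.2 : Matrix R R ℂ))
        rw [smul_add]
        abel
      map_smul' := fun c p => by
        apply Subtype.ext
        change c • (p.1 : Matrix R R ℂ) + Complex.I • (c • (p.2 : Matrix R R ℂ)) =
          c • ((p.1 : Matrix R R ℂ) + Complex.I • (p.2 : Matrix R R ℂ))
        rw [smul_add, smul_comm] }
  have hf : Function.Bijective f := by
    constructor
    · rw [← LinearMap.ker_eq_bot, LinearMap.ker_eq_bot']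
      rintro ⟨⟨a, ha⟩, ⟨b, hb⟩⟩ h
      have h1 : a + Complex.I • b = 0 := congrArg Subtype.val h
      have h2 : -a + Complex.I • b = 0 := by
        have h3 := congrArg Matrix.conjTranspose h1
        rw [Matrix.conjTranspose_add, Matrix.conjTranspose_smul, ha.2, hb.2,
          Matrix.conjTranspose_zero] at h3
        rw [← h3]
        congr 1
        simp
      have h4 : a = 0 := by
        have h5 : (2 : ℂ) • a = 0 := by
          have h6 : (2 : ℂ) • a = (a + Complex.I • b) - (-a + Complex.I • b) := by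
            rw [two_smul]
            abel
          rw [h6, h1, h2, sub_zero]
        exact (smul_eq_zero.1 h5).resolve_left two_ne_zero
      have h5 : b = 0 := by
        rw [h4, zero_add] at h1
        exact (smul_eq_zero.1 h1).resolve_left Complex.I_ne_zero
      subst h4
      subst h5
      rfl
    · rintro ⟨A, hA⟩
      have hAs := LL_star hB hBf hA
      refine ⟨(⟨(1 / 2 : ℂ) • (A - Aᴴ), Submodule.smul_mem _ _ (Submodule.sub_mem _ hA hAs), by
        rw [Matrix.conjTranspose_smul, Matrix.conjTranspose_sub, Matrix.conjTranspose_conjTranspose,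
          ← smul_neg, neg_sub]
        simp⟩, ⟨(-Complex.I / 2 : ℂ) • (A + Aᴴ),
        Submodule.smul_mem _ _ (Submodule.add_mem _ hA hAs), by
        rw [Matrix.conjTranspose_smul, Matrix.conjTranspose_add, Matrix.conjTranspose_conjTranspose,
          add_comm, ← neg_smul]
        congr 1
        simp [neg_div]⟩), ?_⟩
      apply Subtype.ext
      change (1 / 2 : ℂ) • (A - Aᴴ) + Complex.I • ((-Complex.I / 2 : ℂ) • (A + Aᴴ)) = A
      rw [smul_smul]
      have h5 : Complex.I * (-Complex.I / 2) = 1 / 2 := by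
        rw [mul_div_assoc', mul_neg, Complex.I_mul_I, neg_neg]
      rw [h5, ← smul_add, sub_add_add_cancel, ← two_smul ℂ, smul_smul]
      norm_num
  have h1 := (LinearEquiv.ofBijective f hf).finrank_eq
  rw [Module.finrank_prod] at h1
  have h2 := Module.finrank_mul_finrank ℝ ℂ (LL B)
  rw [Complex.finrank_real_complex] at h2
  omega

/-- The moments of the trace. -/
lemma moment_eq (hB : Bas cls inv jj) (hBf : Fam cls inv jj B) (m : ℕ)
    [MeasurableSpace (stabG (tens B))] [BorelSpace (stabG (tens B))] :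
    (∫ g, (((inc (stabG (tens B)) g).trace).re / Fintype.card R) ^ (2 * m)
      ∂(hm (stabG (tens B)))) = finrank ℂ (B (Fin (2 * m))) / (Fintype.card R : ℝ) ^ (2 * m) := by
  have hr : Continuous (inc (stabG (tens B))) := inc_cont _
  have h1 := av_trace (κ := Fin (2 * m)) hr 1
  simp only [one_mul, Fintype.card_fin] at h1
  rw [trace_av hB hBf] at h1
  have h2 : (((∫ g, ((inc (stabG (tens B)) g).trace).re ^ (2 * m) ∂(hm (stabG (tens B))) : ℝ)) : ℂ) =
      (finrank ℂ (B (Fin (2 * m))) : ℂ) := by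
    rw [← h1, ← integral_complex_ofReal]
    refine integral_congr_ae (Filter.Eventually.of_forall fun g => ?_)
    simp only
    have h2 := trace_real hB (stab_le hBf g.2)
    have h3 : (((inc (stabG (tens B)) g).trace).re : ℂ) = (inc (stabG (tens B)) g).trace := h2
    rw [Complex.ofReal_pow, h3]
  have h3 : (∫ g, ((inc (stabG (tens B)) g).trace).re ^ (2 * m) ∂(hm (stabG (tens B)))) =
      (finrank ℂ (B (Fin (2 * m))) : ℝ) := by exact_mod_cast h2
  simp only [div_pow]
  rw [integral_div, h3]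

/-- The asymptotic behaviour of the moments of the trace, without measures on the Lie algebra. -/
theorem asym' [Nonempty R] {E : Type} [NormedAddCommGroup E] [NormedSpace ℝ E]
    [FiniteDimensional ℝ E] {L : E →L[ℝ] Matrix R R ℂ} (hL : ∀ X, ‖L X‖ = ‖X‖)
    (hsk : ∀ X, (L X)ᴴ = -L X) {ρ : ℝ} (hρ : 0 < ρ)
    (hlip : ∀ A B : Matrix R R ℂ, ‖A‖ ≤ ρ → ‖B‖ ≤ ρ →
      ‖A - B‖ ≤ 2 * ‖NormedSpace.exp A - NormedSpace.exp B‖ ∧
        ‖NormedSpace.exp A - NormedSpace.exp B‖ ≤ 2 * ‖A - B‖)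
    {G : Type} [Group G] [TopologicalSpace G] [IsTopologicalGroup G] [CompactSpace G]
    [MeasurableSpace G] [BorelSpace G] {a : G →* Matrix R R ℂ} (ha : Continuous a)
    (hu : ∀ g, (a g)ᴴ * a g = 1) {e : E → G} (hae : ∀ X, a (e X) = ex L X) (hρ1 : 4 * ρ ≤ 1)
    {δ : ℝ} (hδ : 0 < δ) (hloc : ∀ g, ‖a g - 1‖ < δ → ∃ X : E, ‖X‖ ≤ ρ / 2 ∧ ex L X = a g) :
    ∃ Λ : ℝ, 0 < Λ ∧ Tendsto (fun m : ℕ => Real.sqrt m ^ finrank ℝ E *
      ∫ g, (((a g).trace).re / Fintype.card R) ^ (2 * m) ∂(hm G)) atTop (𝓝 Λ) := by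
  let _ : MeasurableSpace E := borel E
  have _ : BorelSpace E := ⟨rfl⟩
  have _ : ProperSpace E := FiniteDimensional.proper ℝ E
  exact asym (Measure.addHaar : Measure E) hL hsk hρ hlip ha hu hae hρ1 hδ hloc

/-- **The asymptotic behaviour of the number of tensors.** -/
theorem asym_stab [Nonempty R] (hB : Bas cls inv jj) (hBf : Fam cls inv jj B) :
    ∃ Λ : ℝ, 0 < Λ ∧ Tendsto (fun m : ℕ => Real.sqrt m ^ finrank ℂ (LL B) *
      (finrank ℂ (B (Fin (2 * m))) / (Fintype.card R : ℝ) ^ (2 * m))) atTop (𝓝 Λ) := by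
  let _ : MeasurableSpace (stabG (tens B)) := borel _
  have _ : BorelSpace (stabG (tens B)) := ⟨rfl⟩
  obtain ⟨N, hN⟩ := exists_lieDet B
  have hL := hN (N + 1) (Nat.le_succ N)
  obtain ⟨r, hr0, hr⟩ := exp_lip R
  have hNpos : (0 : ℝ) < 2 * Real.pi / ((N + 1 : ℕ) : ℝ) := by positivity
  set ρ : ℝ := min r (min (1 / 4) (2 * Real.pi / ((N + 1 : ℕ) : ℝ))) with hρdef
  have hρ : 0 < ρ := lt_min hr0 (lt_min (by norm_num) hNpos)
  have hρr : ρ ≤ r := min_le_left _ _
  have hρ1 : 4 * ρ ≤ 1 := by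
    have : ρ ≤ 1 / 4 := (min_le_right _ _).trans (min_le_left _ _)
    linarith
  have hρN : ρ ≤ 2 * Real.pi / ((N + 1 : ℕ) : ℝ) := (min_le_right _ _).trans (min_le_right _ _)
  obtain ⟨δ, hδ, hsurj⟩ := exp_surj (R := R) (r := ρ / 2) (by linarith)
  have hlip : ∀ A B : Matrix R R ℂ, ‖A‖ ≤ ρ → ‖B‖ ≤ ρ →
    ‖A - B‖ ≤ 2 * ‖NormedSpace.exp A - NormedSpace.exp B‖ ∧
      ‖NormedSpace.exp A - NormedSpace.exp B‖ ≤ 2 * ‖A - B‖ := fun A B hA hB =>
    hr A B (hA.trans hρr) (hB.trans hρr)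
  choose e he1 he2 using fun X : kk B => exp_mem X.2
  have h1 := asym' (R := R) (E := kk B) (G := stabG (tens B))
    (L := (kk B).subtypeL) (fun X => rfl) (fun X => X.2.2) hρ hlip
    (a := inc (stabG (tens B))) (inc_cont _)
    (fun g => Matrix.mem_unitaryGroup_iff'.1 g.1.2) (e := fun X => ⟨e X, he1 X⟩) (fun X => he2 X)
    hρ1 hδ (fun g hg => by
      obtain ⟨A, hA, hAg⟩ := hsurj _ hg
      have hu : (inc (stabG (tens B)) g)ᴴ * inc (stabG (tens B)) g = 1 :=
        Matrix.mem_unitaryGroup_iff'.1 g.1.2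
      have hsk : Aᴴ = -A := by
        have h2 : NormedSpace.exp Aᴴ = NormedSpace.exp (-A) := by
          rw [Matrix.exp_conjTranspose, Matrix.exp_neg, hAg]
          exact (Matrix.inv_eq_left_inv hu).symm
        have h3 := (hlip Aᴴ (-A) (by
          rw [Matrix.frobenius_norm_conjTranspose]
          linarith) (by
          rw [norm_neg]
          linarith)).1
        rw [h2, sub_self, norm_zero, mul_zero] at h3
        exact sub_eq_zero.1 (norm_le_zero_iff.1 h3)
      have hmem := log_mem (Nat.succ_pos N) hL g.2 hsk hAg (by linarith)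
      exact ⟨⟨A, hmem⟩, hA.le, hAg⟩)
  obtain ⟨Λ, hΛ, hlim⟩ := h1
  refine ⟨Λ, hΛ, hlim.congr fun m => ?_⟩
  rw [finrank_kk hB hBf, moment_eq hB hBf]

end

end Pool.Agent.H25.HG
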