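import Pool.Agent.H25.HG.A14
import Pool.Agent.H25.HG.B5

/-!
# The dimension of the Lie algebra
-/

set_option autoImplicit false
set_option linter.unusedSectionVars false
set_option linter.unusedDecidableInType false
set_option linter.unusedFintypeInType false

namespace Pool.Agent.H25.HG

open Matrix Finset Module MeasureTheory Filter Topology Pool.Agent.H204R3.SP
  Pool.Agent.H204R3.GP Pool.Agent.W516 Pool.Agent.X259.T Pool.Agent.X259.U
open scoped ComplexOrder

noncomputable section

section one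

variable {W : Type} [AddCommGroup W] [Module ℚ W] {R : Type} [Fintype R] [DecidableEq R]
  {T : Type} [AddCommGroup T] [Module ℂ T] {Q : Type} [DecidableEq Q]
  {per : W →+ T} {ω₀ : W →ₗ[ℚ] W →ₗ[ℚ] ℚ} {b : Basis R ℚ W} {b' : Basis R ℝ T} {cls : R → Q}
  {inv : R → R} {jj : R → ℂ} {S S' : Matrix R R ℂ} (hf : Frame per ω₀ b b' cls inv jj S S')

lemma mW_sum_smul (b : Basis R ℚ W) {ι : Type} (s : Finset ι) (c : ι → ℚ)
    (Z : ι → Module.End ℚ W) :
    mW b (∑ i ∈ s, c i • Z i) = ∑ i ∈ s, (c i : ℂ) • mW b (Z i) := by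
  ext x y
  rw [Matrix.sum_apply]
  simp only [mW, LinearMap.sum_apply, map_sum, Finsupp.coe_finsetSum, Finset.sum_apply,
    LinearMap.smul_apply, map_smul, Finsupp.smul_apply, Matrix.smul_apply, smul_eq_mul,
    Rat.cast_sum, Rat.cast_mul]

variable [FiniteDimensional ℚ W]

include hf in
/-- The dimension of the complex Lie algebra is the dimension of the rational Lie algebra. -/
theorem finrank_LL {C : ∀ m : ℕ, Submodule ℚ (RF W m)} (hCf : Fam cls inv jj (Fm S b C)) :
    finrank ℂ (LL (Fm S b C)) = finrank ℚ (LB C) := by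
  let β := Module.finBasis ℚ (LB C)
  let u : Fin (finrank ℚ (LB C)) → LL (Fm S b C) := fun i =>
    ⟨S * mW b (β i : Module.End ℚ W) * S', conj_mem_LL' hf (β i).2⟩
  have hSS : ∀ X : Matrix R R ℂ, S' * (S * X * S') * S = X := by
    intro X
    calc _ = (S' * S) * X * (S' * S) := by simp only [mul_assoc]
      _ = _ := by rw [hf.one', one_mul, mul_one]
  have hSS' : ∀ X : Matrix R R ℂ, S * (S' * X * S) * S' = X := by
    intro X
    calc _ = (S * S') * X * (S * S') := by simp only [mul_assoc]
      _ = _ := by rw [hf.one, one_mul, mul_one]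
  have hli : LinearIndependent ℂ u := by
    rw [Fintype.linearIndependent_iff]
    intro c hc i
    have h1 : ∑ i, c i • (S * mW b (β i : Module.End ℚ W) * S') = 0 := by
      have h2 := congrArg (fun x : LL (Fm S b C) => (x : Matrix R R ℂ)) hc
      simp only [Submodule.coe_sum, Submodule.coe_smul] at h2
      exact h2
    have h2 : ∑ i, c i • mW b (β i : Module.End ℚ W) = 0 := by
      have h3 := congrArg (fun X => S' * X * S) h1
      simp only [Finset.mul_sum, Finset.sum_mul, Matrix.mul_smul, Matrix.smul_mul, hSS, mul_zero,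
        zero_mul] at h3
      exact h3
    refine eq_zero_of_comp fun lam => ?_
    have h3 : mW b (∑ i, lam (c i) • (β i : Module.End ℚ W)) = mW b 0 := by
      rw [mW_sum_smul]
      ext x y
      have h4 := congrArg lam (congrFun (congrFun h2 x) y)
      rw [Matrix.sum_apply] at h4
      simp only [Matrix.smul_apply, smul_eq_mul, map_sum, Matrix.zero_apply, map_zero] at h4
      have h5 : ∀ j, lam (c j * mW b (β j : Module.End ℚ W) x y) =
          lam (c j) * b.repr ((β j : Module.End ℚ W) (b x)) y := fun j => lam_mul_rat lam _ _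
      simp only [h5] at h4
      have h6 := congrArg (fun q : ℚ => (q : ℂ)) h4
      simp only [Rat.cast_sum, Rat.cast_mul, Rat.cast_zero] at h6
      rw [Matrix.sum_apply]
      simp only [Matrix.smul_apply, smul_eq_mul, mW, LinearMap.zero_apply, map_zero,
        Finsupp.coe_zero, Pi.zero_apply, Rat.cast_zero]
      exact h6
    have h4 := mW_inj b h3
    have h5 : ∑ i, lam (c i) • β i = 0 := by
      apply Subtype.ext
      simp only [Submodule.coe_sum, Submodule.coe_smul]
      exact h4
    exact Fintype.linearIndependent_iff.1 β.linearIndependent _ h5 i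
  have hsp : ⊤ ≤ Submodule.span ℂ (Set.range u) := by
    rintro ⟨A, hA⟩ -
    -- the submodule of functions
    let P : Submodule ℂ (Matrix R R ℂ) :=
      Submodule.span ℂ (Set.range fun i => mW b (β i : Module.End ℚ W))
    let fl : ((R × R) → ℂ) →ₗ[ℂ] Matrix R R ℂ :=
      { toFun := fun F => Matrix.of fun i j => F (i, j)
        map_add' := fun _ _ => rfl
        map_smul' := fun _ _ => rfl }
    let P' : Submodule ℂ ((R × R) → ℂ) := P.comap fl
    have h1 : (fun x : R × R => (S' * A * S) x.1 x.2) ∈ P' := by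
      refine mem_of_comp P' _ fun lam => ?_
      have h2 : cmE b lam (S' * A * S) ∈ LB C := fun m ψ hψ => kills_of_LL hf hCf hA lam m ψ hψ
      have h3 : fl (fun x : R × R => ((lam ((S' * A * S) x.1 x.2) : ℚ) : ℂ)) =
          mW b (cmE b lam (S' * A * S)) := (mW_cmE b lam (S' * A * S)).symm
      refine Submodule.mem_comap.2 ?_
      rw [h3]
      have h4 := congrArg (fun x : LB C => (x : Module.End ℚ W))
        (β.sum_repr ⟨cmE b lam (S' * A * S), h2⟩)
      simp only [Submodule.coe_sum, Submodule.coe_smul] at h4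
      rw [← h4, mW_sum_smul]
      exact Submodule.sum_mem _ fun i _ => Submodule.smul_mem _ _
        (Submodule.subset_span ⟨i, rfl⟩)
    have h2 : S' * A * S ∈ P := h1
    have h3 : ∀ X ∈ P, ∀ hX : S * X * S' ∈ LL (Fm S b C),
        (⟨S * X * S', hX⟩ : LL (Fm S b C)) ∈ Submodule.span ℂ (Set.range u) := by
      intro X hXP hX
      obtain ⟨c, hc⟩ := (Submodule.mem_span_range_iff_exists_fun ℂ).1 hXP
      refine (Submodule.mem_span_range_iff_exists_fun ℂ).2 ⟨c, ?_⟩
      apply Subtype.ext
      simp only [Submodule.coe_sum, Submodule.coe_smul]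
      change ∑ i, c i • (S * mW b (β i : Module.End ℚ W) * S') = S * X * S'
      rw [← hc]
      simp only [Finset.mul_sum, Finset.sum_mul, Matrix.mul_smul, Matrix.smul_mul]
    have h4 := h3 _ h2 (by rw [hSS']; exact hA)
    have h5 : (⟨S * (S' * A * S) * S', by rw [hSS']; exact hA⟩ : LL (Fm S b C)) = ⟨A, hA⟩ :=
      Subtype.ext (hSS' A)
    rwa [h5] at h4
  have h1 := finrank_eq_card_basis (Basis.mk hli hsp)
  rw [h1, Fintype.card_fin]

end one

section two

variable {V : Type} [AddCommGroup V] [Module ℚ V] {n : ℕ}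
  {e : Basis (Fin n) ℚ V} {Q : V →ₗ[ℚ] V →ₗ[ℚ] ℚ}
  {ι : Type} [Fintype ι] [DecidableEq ι] {γ γ' : ι → V}
  {C : ∀ m : ℕ, Submodule ℚ (RF V m)}

lemma mW_dg (f : Module.End ℚ V) : mW (e2 e) (dg f) = bd (mW e f) := by
  ext i j
  rw [mW]
  rcases i with i | i
  · rw [e2_inl]
    rcases j with j | j
    · simp [e2, dg, mW]
    · simp [e2, dg]
  · rw [e2_inr]
    rcases j with j | j
    · simp [e2, dg]
    · simp [e2, dg, mW]

include e in
lemma dg_mem {f : Module.End ℚ V} (hf : f ∈ LB C) : dg f ∈ LB (Lift C) := by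
  intro m F hF
  rw [kills_iff (e2 e), mW_dg]
  funext J
  rw [dk_mix, (kills_iff e f _).1 (hf m _ (hF (pat J)))]
  rfl

/-- The elements of the Lie algebra commute with the endomorphisms whose form is in the family. -/
lemma LB_comm (hC : Closed Q γ γ' C) (hnd : ∀ x : V × V, (∀ y, dbl Q x y = 0) → x = 0)
    {Y : Module.End ℚ (V × V)} (hY : DR.one2 ((dbl Q).comp Y) ∈ Lift C 1)
    {Z : Module.End ℚ (V × V)} (hZ : Z ∈ LB (Lift C)) : Z * Y = Y * Z := by
  have hcl := lift_closed hC
  have hsk := LB_skew (ω₀ := dbl Q) hcl.pol hZ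
  have h1 := (DR.kills_one2 ((dbl Q).comp Y) Z).1 (hZ 1 _ hY)
  refine LinearMap.ext fun x => ?_
  rw [← sub_eq_zero]
  refine hnd _ fun y => ?_
  have h2 := h1 x y
  simp only [LinearMap.comp_apply] at h2
  have h3 := hsk (Y x) y
  rw [Module.End.mul_apply, Module.End.mul_apply, map_sub, LinearMap.sub_apply]
  linarith

lemma eq_dg {Z : Module.End ℚ (V × V)} (h1 : Z * p1 = p1 * Z) (h2 : Z * sw = sw * Z) :
    Z = dg ((LinearMap.fst ℚ V V).comp (Z.comp (LinearMap.inl ℚ V V))) := by
  have e1 : ∀ u, Z (u, 0) = ((Z (u, 0)).1, 0) := by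
    intro u
    have h3 : Z (u, 0) = p1 (Z (u, 0)) := congrArg (fun f : Module.End ℚ (V × V) => f (u, 0)) h1
    conv_lhs => rw [h3]
    rfl
  have e2' : ∀ u, Z (0, u) = (0, (Z (u, 0)).1) := by
    intro u
    have h4 : Z (0, u) = sw (Z (u, 0)) := congrArg (fun f : Module.End ℚ (V × V) => f (u, 0)) h2
    rw [h4, e1]
    rfl
  refine LinearMap.ext fun x => ?_
  have h4 : x = (x.1, 0) + (0, x.2) := by simp
  conv_lhs => rw [h4]
  rw [map_add, e1, e2']
  simp [dg]

lemma kills_fst {f : Module.End ℚ V} {m : ℕ} {ψ : RF V m}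
    (h : Kills (dg f) (ψ.compLinearMap (fun _ => LinearMap.fst ℚ V V))) : Kills f ψ := by
  intro v
  have h1 := h (fun k => (v k, 0))
  rw [← h1]
  refine Finset.sum_congr rfl fun k _ => ?_
  rw [MultilinearMap.compLinearMap_apply]
  congr 1
  funext l
  by_cases hl : l = k
  · subst hl
    rw [Function.update_self, Function.update_self]
    rfl
  · rw [Function.update_of_ne hl, Function.update_of_ne hl]
    rfl

lemma dg_inj {f g : Module.End ℚ V} (h : dg f = dg g) : f = g := by
  refine LinearMap.ext fun u => ?_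
  have h1 := congrArg (fun F : Module.End ℚ (V × V) => (F (u, 0)).1) h
  exact h1

/-- The linear map `f ↦ f ⊕ f`. -/
def dgl : Module.End ℚ V →ₗ[ℚ] Module.End ℚ (V × V) where
  toFun f := dg f
  map_add' f g := by
    refine LinearMap.ext fun x => ?_
    simp [dg]
  map_smul' c f := by
    refine LinearMap.ext fun x => ?_
    simp [dg]

include e in
lemma LB_lift (hC : Closed Q γ γ' C) (hnd : ∀ x : V × V, (∀ y, dbl Q x y = 0) → x = 0) :
    LB (Lift C) = (LB C).map dgl := by
  ext Z
  constructor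
  · intro hZ
    have h1 := LB_comm hC hnd (form_p1 hC) hZ
    have h2 := LB_comm hC hnd (form_sw hC) hZ
    refine ⟨_, ?_, (eq_dg h1 h2).symm⟩
    intro m ψ hψ
    refine kills_fst ?_
    rw [← eq_dg h1 h2]
    exact hZ m _ (lift_fst hψ)
  · rintro ⟨f, hf, rfl⟩
    exact dg_mem (e := e) hf

include e in
lemma finrank_LB_lift (hC : Closed Q γ γ' C)
    (hnd : ∀ x : V × V, (∀ y, dbl Q x y = 0) → x = 0) :
    finrank ℚ (LB (Lift C)) = finrank ℚ (LB C) := by
  rw [LB_lift (e := e) hC hnd]
  exact (Submodule.equivMapOfInjective dgl (fun f g h => dg_inj h) _).finrank_eq.symm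

end two

end

end Pool.Agent.H25.HG
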