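import Pool.Agent.H25.HG.B6

/-!
# The growth law, with the frame
-/

set_option autoImplicit false
set_option linter.unusedSectionVars false
set_option linter.unusedDecidableInType false
set_option linter.unusedFintypeInType false

namespace Pool.Agent.H25.HG

open Matrix Finset Module MeasureTheory Filter Topology Pool.Agent.H204R3.SP
  Pool.Agent.H204R3.GP Pool.Agent.W516 Pool.Agent.X259.T Pool.Agent.X259.U
open scoped ComplexOrder

noncomputable section

section one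

variable {W : Type} [AddCommGroup W] [Module ℚ W] [FiniteDimensional ℚ W]

/-- Forms of bounded degree determine the rational Lie algebra. -/
lemma exists_det (C : ∀ m : ℕ, Submodule ℚ (RF W m)) : ∃ N : ℕ, ∀ M, N ≤ M →
    ∀ Z : Module.End ℚ W, (∀ m, 2 * m ≤ M → ∀ ψ ∈ C m, Kills Z ψ) → Z ∈ LB C := by
  let f : ℕ →o (Submodule ℚ (Module.End ℚ W))ᵒᵈ :=
    { toFun := fun N => OrderDual.toDual
        { carrier := {Z | ∀ m, 2 * m ≤ N → ∀ ψ ∈ C m, Kills Z ψ}
          zero_mem' := fun m _ ψ hψ => (Submodule.zero_mem (LB C)) m ψ hψ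
          add_mem' := fun {a b} ha hb m hm ψ hψ v => by
            have h1 := ha m hm ψ hψ v
            have h2 := hb m hm ψ hψ v
            simp only [LinearMap.add_apply, MultilinearMap.map_update_add, Finset.sum_add_distrib]
            rw [h1, h2, add_zero]
          smul_mem' := fun c a ha m hm ψ hψ v => by
            have h1 := ha m hm ψ hψ v
            simp only [LinearMap.smul_apply, MultilinearMap.map_update_smul]
            rw [← Finset.smul_sum, h1, smul_zero] }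
      monotone' := fun N M hNM Z hZ m hm ψ hψ => hZ m (hm.trans hNM) ψ hψ }
  obtain ⟨N, hN⟩ := IsArtinian.monotone_stabilizes f
  refine ⟨N, fun M hM Z hZ m ψ hψ => ?_⟩
  have h1 : Z ∈ OrderDual.ofDual (f N) := fun m' hm' ψ' hψ' => hZ m' (hm'.trans hM) ψ' hψ'
  have h2 : f N = f (max N (2 * m)) := hN _ (le_max_left _ _)
  rw [h2] at h1
  exact h1 m (le_max_right _ _) ψ hψ

end one

section frame

variable {V : Type} [AddCommGroup V] [Module ℚ V] [FiniteDimensional ℚ V] {n : ℕ}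
  {e : Basis (Fin n) ℚ V} {Q : V →ₗ[ℚ] V →ₗ[ℚ] ℚ}
  {ι : Type} [Fintype ι] [DecidableEq ι] {γ γ' : ι → V}
  {A C : ∀ m : ℕ, Submodule ℚ (RF V m)}
  {T : Type} [AddCommGroup T] [Module ℂ T] {Q' : Type} [DecidableEq Q']
  {per : V × V →+ T} {b' : Basis (Fin n ⊕ Fin n) ℝ T} {cls : Fin n ⊕ Fin n → Q'}
  {inv : Fin n ⊕ Fin n → Fin n ⊕ Fin n} {jj : Fin n ⊕ Fin n → ℂ}
  {S S' : Matrix (Fin n ⊕ Fin n) (Fin n ⊕ Fin n) ℂ}
  (hf : Frame per (dbl Q) (e2 e) b' cls inv jj S S')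

include hf in
lemma dbl_nd (x : V × V) (hx : ∀ y, dbl Q x y = 0) : x = 0 := om_nd hf hx

include hf in
/-- **The growth law**, with the frame. -/
theorem growth_frame (hn : 1 ≤ n) (hC : Closed Q γ γ' C)
    (hCf : Fam cls inv jj (Fm S (e2 e) (Lift C))) :
    ∃ Λ : ℝ, 0 < Λ ∧ Tendsto (fun m : ℕ => Real.sqrt m ^ finrank ℚ (LB C) *
      ((finrank ℚ (C m) : ℝ) / (n : ℝ) ^ (2 * m))) atTop (𝓝 Λ) := by
  have hne : Nonempty (Fin n ⊕ Fin n) := ⟨Sum.inl ⟨0, by omega⟩⟩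
  obtain ⟨Λ, hΛ, hlim⟩ := asym_stab hf.bas hCf
  refine ⟨Λ, hΛ, hlim.congr fun m => ?_⟩
  rw [finrank_LL hf hCf, finrank_LB_lift (e := e) hC (dbl_nd hf),
    dim_eq hf.one' (lift_closed hC).perm]
  congr 1
  have hcard : Fintype.card (Fin n ⊕ Fin n) = 2 * n := by
    rw [Fintype.card_sum, Fintype.card_fin]
    ring
  rw [hcard]
  have h8 : (((2 * n : ℕ) : ℝ)) ^ (2 * m) = 4 ^ m * (n : ℝ) ^ (2 * m) := by
    push_cast
    rw [mul_pow, pow_mul]
    norm_num
  rw [h8, mul_div_mul_left]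
  positivity

include hf in
/-- If the Lie algebras have the same dimension then the index is finite. -/
theorem finite_frame {ι : Type} [Fintype ι] [DecidableEq ι] {γ γ' : ι → V}
    (hA : Closed Q γ γ' A) (hC : Closed Q γ γ' C) (hn : 1 ≤ n)
    (hAf : Fam cls inv jj (Fm S (e2 e) (Lift A)))
    (hCf : Fam cls inv jj (Fm S (e2 e) (Lift C))) (hCA : ∀ m, C m ≤ A m)
    (heq : finrank ℚ (LB C) ≤ finrank ℚ (LB A)) :
    ind (Fm S (e2 e) (Lift A)) (Fm S (e2 e) (Lift C)) ≠ 0 ∧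
    ∃ θ : ℝ, 0 ≤ θ ∧ θ < n ∧ ∀ m : ℕ, (finrank ℚ (A m) : ℝ) ≤
        (ind (Fm S (e2 e) (Lift A)) (Fm S (e2 e) (Lift C)) : ℝ) * finrank ℚ (C m) ∧
      (ind (Fm S (e2 e) (Lift A)) (Fm S (e2 e) (Lift C)) : ℝ) * finrank ℚ (C m) ≤
        finrank ℚ (A m) + ((ind (Fm S (e2 e) (Lift A)) (Fm S (e2 e) (Lift C)) : ℝ) - 1) *
          θ ^ (2 * m) := by
  have hle : LB A ≤ LB C := fun Z hZ m ψ hψ => hZ m ψ (hCA m hψ)
  have hLL : LB A = LB C := Submodule.eq_of_le_of_finrank_le hle heq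
  obtain ⟨N₀, hN₀⟩ := exists_det (Lift C)
  set N := max N₀ 4 with hNdef
  have hN4 : 4 ≤ N := le_max_right _ _
  have hdet := hN₀ N (le_max_left _ _)
  have hL : LieDetC (Fm S (e2 e) (Lift A)) (Fm S (e2 e) (Lift C)) N := by
    refine lieDetC_of hf fun Z hZ => ?_
    have h1 := hdet Z hZ
    rw [LB_lift (e := e) hC (dbl_nd hf), ← hLL, ← LB_lift (e := e) hA (dbl_nd hf)] at h1
    exact h1
  have hNR : (4 : ℝ) ≤ N := by exact_mod_cast hN4
  have hN0 : (0 : ℝ) < N := by linarith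
  have hx0 : 0 < 2 * Real.pi / N := by positivity
  have hx1 : 2 * Real.pi / N ≤ Real.pi / 2 := by
    rw [div_le_div_iff₀ hN0 (by norm_num)]
    have := Real.pi_pos
    nlinarith
  have hcos : Real.cos (2 * Real.pi / N) < 1 := by
    rw [← Real.cos_zero]
    refine Real.cos_lt_cos_of_nonneg_of_le_pi le_rfl ?_ hx0
    linarith [Real.pi_pos]
  have hcos0 : 0 ≤ Real.cos (2 * Real.pi / N) := by
    refine Real.cos_nonneg_of_neg_pi_div_two_le_of_le ?_ hx1
    linarith [Real.pi_pos]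
  set η : ℝ := Real.sqrt (2 * (1 - Real.cos (2 * Real.pi / N))) with hη
  have hηpos : 0 < η := Real.sqrt_pos.2 (by linarith)
  have hη2 : η ^ 2 ≤ 2 * (1 - Real.cos (2 * Real.pi / N)) :=
    (Real.sq_sqrt (by linarith)).le
  obtain ⟨M, hM⟩ := exists_nat_ge (1 + 2 / η)
  obtain ⟨h1, _, h3⟩ := formula_frame hf hC hn (lift_closed hA).perm hAf hCf hCA
    (N := N) (by omega) hL hηpos hη2 hM
  have hn1 : (1 : ℝ) ≤ n := by exact_mod_cast hn
  refine ⟨h1, (n : ℝ) - (1 - Real.cos (2 * Real.pi / N)), by linarith, by linarith, h3⟩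

end frame

section split

variable {W : Type} [AddCommGroup W] [Module ℚ W] {R : Type} [Fintype R] [DecidableEq R]
  {T : Type} [AddCommGroup T] [Module ℂ T] {Q : Type} [DecidableEq Q]
  {per : W →+ T} {ω₀ : W →ₗ[ℚ] W →ₗ[ℚ] ℚ} {b : Basis R ℚ W} {b' : Basis R ℝ T} {cls : R → Q}
  {inv : R → R} {jj : R → ℂ} {S S' : Matrix R R ℂ} (hf : Frame per ω₀ b b' cls inv jj S S')
  {B C : ∀ m : ℕ, Submodule ℚ (RF W m)}

include hf in
/-- The decomposition of the elements which kill the Casimir form and the forms of degree two. -/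
theorem split_LB [FiniteDimensional ℚ W] {N : Matrix R R ℂ} (hBN : DefBy b B N)
    (hBf : Fam cls inv jj (Fm S b B))
    (hpol : ∀ ψ : RF W 1, (∀ v, ψ v = ω₀ (v (0, 0)) (v (0, 1))) → ψ ∈ B 1)
    {Z : Module.End ℚ W} (h1 : ∀ ψ ∈ B 1, Kills Z ψ)
    (h2 : Kills Z (KC2.casimir (LB B) (LB_traceNondeg hf hBf) ω₀)) :
    ∃ Y ∈ LB B, InComm B (Z - Y) ∧ (∀ P', InComm B P' → (Z - Y) * P' = P' * (Z - Y)) ∧
      (∀ u v, ω₀ ((Z - Y) u) v = -ω₀ u ((Z - Y) v)) := by
  have hsk : ∀ u v, ω₀ (Z u) v = -ω₀ u (Z v) := by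
    intro u v
    have h3 := (DR.kills_one2 ω₀ Z).1 (h1 _ (hpol (DR.one2 ω₀) fun v => DR.one2_apply ω₀ v)) u v
    linarith [h3]
  obtain ⟨Y, hY, hcom⟩ := KC2.mem_of_kills_casimir (LB B) (LB_traceNondeg hf hBf) ω₀
    (fun X hX Y hY => LB_bracket (b := b) hX hY) (fun u hu => om_nd hf hu)
    (fun u v => by rw [hsk]; exact neg_add_cancel _) h2
  have hskY : ∀ u v, ω₀ (Y u) v = -ω₀ u (Y v) := LB_skew hpol hY
  refine ⟨Y, hY, fun X hX => hcom X hX, fun P' hP' => ?_, fun u v => ?_⟩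
  · have h4 : (DR.one2 (ω₀.comp P') : RF W 1) ∈ B 1 := by
      refine mem_B_of_kills hBN fun X hX => ?_
      refine (DR.kills_one2 _ _).2 fun u v => ?_
      have h5 := LB_skew hpol hX (P' u) v
      have h6 : P' (X u) = X (P' u) := congrArg (fun f : Module.End ℚ W => f u) (hP' X hX).symm
      rw [LinearMap.comp_apply, LinearMap.comp_apply, h6, h5]
      exact neg_add_cancel _
    have h5 := (DR.kills_one2 (ω₀.comp P') Z).1 (h1 _ h4)
    have h6 := hP' Y hY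
    have h7 : Z * P' = P' * Z := by
      refine LinearMap.ext fun u => ?_
      rw [← sub_eq_zero]
      refine om_nd hf fun v => ?_
      have h8 := h5 u v
      simp only [LinearMap.comp_apply] at h8
      have h9 := hsk (P' u) v
      rw [Module.End.mul_apply, Module.End.mul_apply, map_sub, LinearMap.sub_apply]
      linarith
    rw [sub_mul, mul_sub, h6, h7]
  · rw [LinearMap.sub_apply, LinearMap.sub_apply, map_sub, map_sub, LinearMap.sub_apply, hsk,
      hskY]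
    ring

end split

section coordinates

variable {V : Type} [AddCommGroup V] [Module ℚ V] [FiniteDimensional ℚ V] {n : ℕ}
  {e : Basis (Fin n) ℚ V} {Q : V →ₗ[ℚ] V →ₗ[ℚ] ℚ} {ε : Module.End ℚ V}
  {P P' : Matrix (Fin n) (Fin n) ℂ} {k : Fin n → ℤ} (hd : HD e Q ε P P' k)
  {ι : Type} [Fintype ι] [DecidableEq ι] {γ γ' : ι → V}
  (hγ : ∀ v : V, v = ∑ i, Q v (γ' i) • γ i)

/-- The skew elements of the centre. -/
def IsZm (e : Basis (Fin n) ℚ V) (Q : V →ₗ[ℚ] V →ₗ[ℚ] ℚ) (N : Matrix (Fin n) (Fin n) ℂ)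
    (p : Module.End ℚ V) : Prop :=
  N * mW e p = mW e p * N ∧
    (∀ p' : Module.End ℚ V, N * mW e p' = mW e p' * N → p * p' = p' * p) ∧
    (∀ u v, Q (p u) v = -Q u (p v))

include hd hγ in
/-- The skew elements of the centre of the commutant. -/
lemma center_dg {p : Module.End ℚ V} (hX : InComm (Lift (Ann e (wt P P' k))) (dg p))
    (hXz : ∀ Y, InComm (Lift (Ann e (wt P P' k))) Y → dg p * Y = Y * dg p)
    (hsk : ∀ u v, dbl Q (dg p u) v = -dbl Q u (dg p v)) : IsZm e Q (wt P P' k) p := by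
  refine ⟨?_, ?_, ?_⟩
  · have h5 : bd (wt P P' k) * mW (e2 e) (dg p) = mW (e2 e) (dg p) * bd (wt P P' k) :=
      (comm_iff (e2 e) _ (dg p)).2 fun lam =>
        (hX _ (cmE_mem_LB (defBy_lift e (wt P P' k)) lam)).symm
    rw [mW_dg, bd_mul, bd_mul] at h5
    exact (Matrix.fromBlocks_inj.1 h5).1
  · intro p' hp'
    have h5 := hXz _ (dg_incomm hd hγ hp')
    refine LinearMap.ext fun u => ?_
    exact congrArg (fun f : Module.End ℚ (V × V) => (f (u, 0)).1) h5
  · intro u v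
    have h5 := hsk (u, 0) (0, v)
    rw [dbl_apply, dbl_apply] at h5
    simpa [dg] using h5

include hd hγ in
/-- The decomposition, in coordinates. -/
theorem split_hd {C : ∀ m : ℕ, Submodule ℚ (RF V m)} (hC : Closed Q γ γ' C)
    (h1 : Ann e (wt P P' k) 1 ≤ C 1) (h2 : casV hd ∈ C 2)
    {f : Module.End ℚ V} (hfC : f ∈ LB C) :
    ∃ g ∈ LB (Ann e (wt P P' k)), IsZm e Q (wt P P' k) (f - g) := by
  obtain ⟨S, S', hf⟩ := exists_frame_hd hd
  have hβ := dual_dbl hγ hd.nd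
  have hB := ann_closed' hd hγ
  have hB2 := lift_closed hB
  have hsB := star_lift hd hγ hB fun m => le_refl _
  have hBN := defBy_lift e (wt P P' k)
  have hBf := fam' hf (fun _ _ => rfl) hβ hB2 hsB
  have hcas : casW (hnt_hd hd) Q ∈ Lift C 2 := cas_lift hd hγ (hnt_hd hd) hC.perm h2
  have hZ : dg f ∈ LB (Lift C) := dg_mem (e := e) hfC
  obtain ⟨Y, hY, h3, h4, h5⟩ := split_LB hf hBN hBf hB2.pol (Z := dg f)
    (fun ψ hψ => hZ 1 ψ fun t => h1 (hψ t)) (hZ 2 _ hcas)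
  rw [LB_lift (e := e) hB (dbl_nd hf)] at hY
  obtain ⟨g, hg, rfl⟩ := hY
  have h6 : dg f - dgl g = dg (f - g) := (map_sub dgl f g).symm
  rw [h6] at h3 h4 h5
  exact ⟨g, hg, center_dg hd hγ h3 h4 h5⟩

end coordinates

end

end Pool.Agent.H25.HG
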