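import Pool.Agent.H25.HG.B7
import Pool.Agent.H25.HG.A15

/-!
# The growth law, for the powers of a variety
-/

set_option autoImplicit false
set_option linter.unusedSectionVars false
set_option linter.unusedDecidableInType false
set_option linter.unusedFintypeInType false

namespace Pool.Agent.H25.HG

open Matrix Finset Module MeasureTheory Filter Topology Pool.Agent.H204R3.SP
  Pool.Agent.H204R3.GP Pool.Agent.W516 Pool.Agent.X259.T Pool.Agent.X259.U Pool.Agent.X259
open scoped ComplexOrder TensorProduct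

noncomputable section

section coordinates

variable {V : Type} [AddCommGroup V] [Module ℚ V] [FiniteDimensional ℚ V] {n : ℕ}
  {e : Basis (Fin n) ℚ V} {Q : V →ₗ[ℚ] V →ₗ[ℚ] ℚ} {ε : Module.End ℚ V}
  {P P' : Matrix (Fin n) (Fin n) ℂ} {k : Fin n → ℤ} (hd : HD e Q ε P P' k)

include hd in
/-- **The growth law**, in coordinates. -/
theorem growth_hd {ι : Type} [Fintype ι] [DecidableEq ι] {γ γ' : ι → V}
    (hγ : ∀ v : V, v = ∑ i, Q v (γ' i) • γ i) (hn : 1 ≤ n)
    {C : ∀ m : ℕ, Submodule ℚ (RF V m)} (hC : Closed Q γ γ' C)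
    (hCB : ∀ m, C m ≤ Ann e (wt P P' k) m) :
    ∃ Λ : ℝ, 0 < Λ ∧ Tendsto (fun m : ℕ => Real.sqrt m ^ finrank ℚ (LB C) *
      ((finrank ℚ (C m) : ℝ) / (n : ℝ) ^ (2 * m))) atTop (𝓝 Λ) := by
  obtain ⟨S, S', hf⟩ := exists_frame_hd hd
  have hβ := dual_dbl hγ hd.nd
  exact growth_frame hf hn hC (fam' hf (fun _ _ => rfl) hβ (lift_closed hC)
    (star_lift hd hγ hC hCB))

include hd in
/-- If the dimensions of the Lie algebras are equal then the index is finite. -/
theorem finite_hd {ι : Type} [Fintype ι] [DecidableEq ι] {γ γ' : ι → V}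
    (hγ : ∀ v : V, v = ∑ i, Q v (γ' i) • γ i) (hn : 1 ≤ n)
    {C : ∀ m : ℕ, Submodule ℚ (RF V m)} (hC : Closed Q γ γ' C)
    (hCB : ∀ m, C m ≤ Ann e (wt P P' k) m) {K : ℕ}
    (hK : Tendsto (fun m : ℕ => (finrank ℚ (C m) : ℝ) / finrank ℚ (Ann e (wt P P' k) m)) atTop
        (𝓝 (K : ℝ)⁻¹)) (heq : finrank ℚ (LB C) ≤ finrank ℚ (LB (Ann e (wt P P' k)))) :
    K ≠ 0 ∧ ∃ θ : ℝ, 0 ≤ θ ∧ θ < n ∧ ∀ m : ℕ,
      (finrank ℚ (Ann e (wt P P' k) m) : ℝ) ≤ K * finrank ℚ (C m) ∧
      (K : ℝ) * finrank ℚ (C m) ≤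
        finrank ℚ (Ann e (wt P P' k) m) + ((K : ℝ) - 1) * θ ^ (2 * m) := by
  obtain ⟨S, S', hf⟩ := exists_frame_hd hd
  have hβ := dual_dbl hγ hd.nd
  have hB := ann_closed' hd hγ
  have hC2 := lift_closed hC
  have hB2 := lift_closed hB
  have hsC := star_lift hd hγ hC hCB
  have hsB := star_lift hd hγ hB fun m => le_refl _
  have hBf := fam' hf (fun _ _ => rfl) hβ hB2 hsB
  have hCf := fam' hf (fun _ _ => rfl) hβ hC2 hsC
  obtain ⟨h1, h2⟩ := finite_frame hf hB hC hn hBf hCf hCB heq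
  have h3 := tendsto_nhds_unique hK (tendsto_frame hf hn hB2.perm hC2.perm hBf hCf hCB)
  have h4 : (K : ℝ) = (ind (Fm S (e2 e) (Lift (Ann e (wt P P' k)))) (Fm S (e2 e) (Lift C)) : ℕ) :=
    inv_injective h3
  have h5 : K = ind (Fm S (e2 e) (Lift (Ann e (wt P P' k)))) (Fm S (e2 e) (Lift C)) := by
    exact_mod_cast h4
  rw [h5]
  exact ⟨h1, h2⟩

end coordinates

section killing

variable {V : Type} [AddCommGroup V] [Module ℚ V]

/-- The Lie algebra which annihilates all classes of the family. -/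
def KA (A : ∀ N : ℕ, Submodule ℚ (HS.Cls V N)) : Submodule ℚ (Module.End ℚ V) where
  carrier := {f | ∀ N, ∀ ψ ∈ A N, ∀ v : Fin N → V, ∑ k, ψ (Function.update v k (f (v k))) = 0}
  add_mem' := by
    intro Z Z' hZ hZ' m ψ hψ v
    have h1 := hZ m ψ hψ v
    have h2 := hZ' m ψ hψ v
    simp only [LinearMap.add_apply, MultilinearMap.map_update_add, Finset.sum_add_distrib]
    rw [h1, h2, add_zero]
  zero_mem' := by
    intro m ψ hψ v
    refine Finset.sum_eq_zero fun k _ => ?_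
    rw [LinearMap.zero_apply]
    exact ψ.map_update_zero v k
  smul_mem' := by
    intro c Z hZ m ψ hψ v
    have h1 := hZ m ψ hψ v
    simp only [LinearMap.smul_apply, MultilinearMap.map_update_smul]
    rw [← Finset.smul_sum, h1, smul_zero]

lemma kills_dom {κ μ : Type} [Fintype κ] [DecidableEq κ] [Fintype μ] [DecidableEq μ] (e : κ ≃ μ)
    (f : Module.End ℚ V) (ψ : MultilinearMap ℚ (fun _ : κ => V) ℚ) :
    Kills f (ψ.domDomCongr e) ↔ Kills f ψ := by
  have h1 : ∀ v : μ → V, (∑ k, ψ.domDomCongr e (Function.update v k (f (v k)))) =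
      ∑ l, ψ (Function.update (fun i => v (e i)) l (f (v (e l)))) := by
    intro v
    rw [← e.sum_comp]
    refine Finset.sum_congr rfl fun l _ => ?_
    rw [MultilinearMap.domDomCongr_apply]
    congr 1
    funext i
    by_cases hi : i = l
    · subst hi
      rw [Function.update_self, Function.update_self]
    · rw [Function.update_of_ne hi, Function.update_of_ne (fun h => hi (e.injective h))]
  constructor
  · intro h v
    have h2 := h fun k => v (e.symm k)
    rw [h1] at h2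
    simp only [Equiv.symm_apply_apply] at h2
    exact h2
  · intro h v
    rw [h1]
    exact h _

/-- A class whose exterior square is annihilated is annihilated. -/
lemma kills_sq {N : ℕ} {ψ : HS.Cls V N} {φ : HS.Cls V (N + N)} (h : HS.IsExterior ψ ψ φ)
    {f : Module.End ℚ V} (hk : Kills f φ) : Kills f ψ := by
  have key : ∀ u v : Fin N → V, (∑ k, ψ (Function.update u k (f (u k)))) * ψ v +
      ψ u * (∑ k, ψ (Function.update v k (f (v k)))) = 0 := by
    intro u v
    have h1 := hk (Fin.append u v)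
    rw [Fin.sum_univ_add] at h1
    rw [Finset.sum_mul, Finset.mul_sum, ← h1]
    congr 1
    · refine Finset.sum_congr rfl fun k _ => ?_
      rw [h]
      congr 1
      · congr 1
        funext i
        by_cases hi : i = k
        · subst hi
          rw [Function.update_self, Function.update_self, Fin.append_left]
        · rw [Function.update_of_ne hi, Function.update_of_ne
            (fun h => hi (Fin.castAdd_injective _ _ h)), Fin.append_left]
      · congr 1
        funext i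
        rw [Function.update_of_ne, Fin.append_right]
        intro h2
        have h3 := congrArg Fin.val h2
        rw [Fin.val_natAdd, Fin.val_castAdd] at h3
        omega
    · refine Finset.sum_congr rfl fun k _ => ?_
      rw [h]
      congr 1
      · congr 1
        funext i
        rw [Function.update_of_ne, Fin.append_left]
        intro h2
        have h3 := congrArg Fin.val h2
        rw [Fin.val_natAdd, Fin.val_castAdd] at h3
        omega
      · congr 1
        funext i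
        by_cases hi : i = k
        · subst hi
          rw [Function.update_self, Function.update_self, Fin.append_right]
        · rw [Function.update_of_ne hi, Function.update_of_ne
            (fun h => hi (Fin.natAdd_injective _ _ h)), Fin.append_right]
  intro u
  by_cases h0 : ∀ v, ψ v = 0
  · exact Finset.sum_eq_zero fun k _ => h0 _
  · obtain ⟨v, hv⟩ := not_forall.1 h0
    have h1 := key v v
    have h2 : (∑ k, ψ (Function.update v k (f (v k)))) = 0 := by
      have h3 : 2 * ((∑ k, ψ (Function.update v k (f (v k)))) * ψ v) = 0 := by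
        rw [← h1]
        ring
      have h4 := (mul_eq_zero.1 h3).resolve_left two_ne_zero
      exact (mul_eq_zero.1 h4).resolve_right hv
    have h3 := key u v
    rw [h2, mul_zero, add_zero] at h3
    exact (mul_eq_zero.1 h3).resolve_right hv

/-- The Lie algebra is determined by the even powers. -/
lemma KA_eq {A : ∀ N : ℕ, Submodule ℚ (HS.Cls V N)} {C : ∀ m : ℕ, Submodule ℚ (RF V m)}
    (hC : ∀ (m : ℕ) (ψ : RF V m), ψ ∈ C m ↔ rein V m ψ ∈ A (2 * m))
    (hA : ∀ (N : ℕ), ∀ ψ ∈ A N, ∀ φ : HS.Cls V (N + N), HS.IsExterior ψ ψ φ → φ ∈ A (N + N)) :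
    KA A = LB C := by
  ext f
  constructor
  · intro hf m ψ hψ
    exact (kills_dom (eqv m) f ψ).1 (hf (2 * m) _ ((hC m ψ).1 hψ))
  · intro hf N ψ hψ
    -- the exterior square
    let φ : HS.Cls V (N + N) :=
      ((LinearMap.mul' ℚ ℚ).compMultilinearMap (ψ.domCoprod ψ)).domDomCongr finSumFinEquiv
    have hφ : HS.IsExterior ψ ψ φ := by
      intro v
      rw [MultilinearMap.domDomCongr_apply, LinearMap.compMultilinearMap_apply,
        MultilinearMap.domCoprod_apply, LinearMap.mul'_apply]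
      simp only [finSumFinEquiv_apply_left, finSumFinEquiv_apply_right]
    have hφA := hA N ψ hψ φ hφ
    have h2 : N + N = 2 * N := (two_mul N).symm
    let φ' : HS.Cls V (2 * N) := φ.domDomCongr (finCongr h2)
    have hφ' : φ' ∈ A (2 * N) := by
      refine cast_mem (A := A) h2.symm ?_
      have h3 : (φ'.domDomCongr (finCongr h2.symm) : HS.Cls V (N + N)) = φ := by
        ext v
        rfl
      rw [h3]
      exact hφA
    have h4 : (rein V N).symm φ' ∈ C N := by
      rw [hC, LinearEquiv.apply_symm_apply]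
      exact hφ'
    have h5 : Kills f φ' := (kills_dom (eqv N).symm f φ').1 (hf N _ h4)
    exact kills_sq hφ ((kills_dom (finCongr h2) f φ).1 h5)

end killing

section hodge

variable {V : Type} [AddCommGroup V] [Module ℚ V] [FiniteDimensional ℚ V]
  {H : ℤ → ℤ → Submodule ℂ (ℂ ⊗[ℚ] V)}
  {ε : Module.End ℚ V} {P Q : LinearMap.BilinForm ℚ V} {one point : V}

/-- The skew elements of the centre. -/
def ZM (H : ℤ → ℤ → Submodule ℂ (ℂ ⊗[ℚ] V)) (Q : LinearMap.BilinForm ℚ V)
    (f : Module.End ℚ V) : Prop :=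
  HS.IsHodgeEndo H f ∧ (∀ f' : Module.End ℚ V, HS.IsHodgeEndo H f' → f * f' = f' * f) ∧
    (∀ u v, Q (f u) v = -Q u (f v))

/-- **The growth law**, for the powers of a variety. -/
theorem law_hs (hH : HS.IsHodgeStructure H ε) (hQ : HS.IsPolarization H ε Q)
    (hn : 1 ≤ finrank ℚ V)
    (D : ∀ N : ℕ, Submodule ℚ (HS.Cls V N)) (hD : ∀ N ψ, ψ ∈ D N ↔ HS.IsHodgeClass H ψ) :
    (∃ Λ : ℝ, 0 < Λ ∧ Tendsto (fun m : ℕ => Real.sqrt m ^ finrank ℚ (KA D) *
        ((finrank ℚ (D (2 * m)) : ℝ) / (finrank ℚ V : ℝ) ^ (2 * m))) atTop (𝓝 Λ)) ∧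
    ∃ c : HS.Cls V 4, HS.IsHodgeClass H c ∧
      ∀ A : ∀ N : ℕ, Submodule ℚ (HS.Cls V N), HS.IsCycleFamily H ε P one point A →
        HS.IsPoincare ε P one point →
        bil (LinearMap.comp P ε) ∈ A 2 → bil Q ∈ A 2 →
      (∃ Λ : ℝ, 0 < Λ ∧ Tendsto (fun m : ℕ => Real.sqrt m ^ finrank ℚ (KA A) *
        ((finrank ℚ (A (2 * m)) : ℝ) / (finrank ℚ V : ℝ) ^ (2 * m))) atTop (𝓝 Λ)) ∧
      ∃ K : ℕ, Tendsto (fun m : ℕ => (finrank ℚ (A (2 * m)) : ℝ) / finrank ℚ (D (2 * m))) atTop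
          (𝓝 (K : ℝ)⁻¹) ∧ (K = 1 ↔ ∀ N, HIn H A N) ∧
        (K ≠ 0 → c ∈ A 4) ∧
        (finrank ℚ (KA A) ≤ finrank ℚ (KA D) → K ≠ 0 ∧
          ∃ θ : ℝ, 0 ≤ θ ∧ θ < finrank ℚ V ∧ ∀ m : ℕ,
            (finrank ℚ (D (2 * m)) : ℝ) ≤ K * finrank ℚ (A (2 * m)) ∧
            (K : ℝ) * finrank ℚ (A (2 * m)) ≤
              finrank ℚ (D (2 * m)) + ((K : ℝ) - 1) * θ ^ (2 * m)) ∧
        (HIn H A 2 → c ∈ A 4 →
          (∀ f ∈ KA A, ∃ g ∈ KA D, ZM H Q (f - g)) ∧
          ((∀ f, ZM H Q f → f = 0) →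
            K ≠ 0 ∧ K ≤ 3 ^ (finrank ℚ V ^ 2) ∧ ∀ m : ℕ,
              (finrank ℚ (D (2 * m)) : ℝ) ≤ K * finrank ℚ (A (2 * m)) ∧
              (K : ℝ) * finrank ℚ (A (2 * m)) ≤
                finrank ℚ (D (2 * m)) + ((K : ℝ) - 1) * ((finrank ℚ V : ℝ) - 1) ^ (2 * m))) := by
  obtain ⟨vB, kk, hmem, hr⟩ := exists_adapted hH.internal
  have hd := hd_of (Module.finBasis ℚ V) hmem hr hH hQ
  have hAnn : ∀ (m : ℕ) (ψ : RF V m), ψ ∈ Ann (Module.finBasis ℚ V)
      (wt (PM (Module.finBasis ℚ V) vB) (PM' (Module.finBasis ℚ V) vB) (kd kk)) m ↔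
      rein V m ψ ∈ D (2 * m) := fun m ψ => by
    rw [hD, ← hodge_iff_ann _ hmem hr ψ, hform_iff (Module.finBasis ℚ V) hmem hr ψ]
    rfl
  have hKD : KA D = LB (Ann (Module.finBasis ℚ V)
      (wt (PM (Module.finBasis ℚ V) vB) (PM' (Module.finBasis ℚ V) vB) (kd kk))) :=
    KA_eq hAnn fun N ψ hψ φ hφ => (hD _ _).2
      (ext_hodge (Module.finBasis ℚ V) hmem hr hφ ((hD _ _).1 hψ) ((hD _ _).1 hψ))
  have hdD : ∀ m, finrank ℚ (Ann (Module.finBasis ℚ V)
      (wt (PM (Module.finBasis ℚ V) vB) (PM' (Module.finBasis ℚ V) vB) (kd kk)) m) =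
      finrank ℚ (D (2 * m)) := fun m => finrank_rein fun ψ => hAnn m ψ
  have hc := (hAnn 2 _).1 (casV_mem hd)
  obtain ⟨γ₀, γ₀', hγ₀⟩ := exists_dual_hd hd
  have hgD := growth_hd hd hγ₀ hn (ann_closed' hd hγ₀) fun m => le_refl _
  simp only [hdD] at hgD
  rw [← hKD] at hgD
  refine ⟨hgD, rein V 2 (casV hd), (hD 4 _).1 hc, fun A hA hP hεA hQA => ?_⟩
  obtain ⟨γ, γ', hγ, hC⟩ := closed_of_star hA hP hH hQ hεA hQA
  have hKA : KA A = LB (CC A) := KA_eq (fun m ψ => Iff.rfl)
    fun N ψ hψ φ hφ => hA.exterior N N ψ hψ ψ hψ φ hφ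
  have hsub : ∀ m, CC A m ≤ Ann (Module.finBasis ℚ V)
      (wt (PM (Module.finBasis ℚ V) vB) (PM' (Module.finBasis ℚ V) vB) (kd kk)) m :=
    fun m ψ hψ => (hAnn m ψ).2 ((hD _ _).2 (hA.hodge _ _ hψ))
  have hup : ∀ m, HIn H A (2 * m) → Ann (Module.finBasis ℚ V)
      (wt (PM (Module.finBasis ℚ V) vB) (PM' (Module.finBasis ℚ V) vB) (kd kk)) m ≤ CC A m :=
    fun m h ψ hψ => h _ ((hD _ _).1 ((hAnn m ψ).1 hψ))
  have hdA : ∀ m, finrank ℚ (CC A m) = finrank ℚ (A (2 * m)) := fun m =>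
    finrank_rein (B := A (2 * m)) (B' := CC A m) fun ψ => Iff.rfl
  have hgA := growth_hd hd hγ hn hC hsub
  simp only [hdA] at hgA
  rw [← hKA] at hgA
  refine ⟨hgA, ?_⟩
  obtain ⟨K, hK1, hK0, hK2, hK3, hK4, hK5⟩ := index_hd hd hγ hn hC hsub
  have hfin := finite_hd hd hγ hn hC hsub hK1
  rw [← hKA, ← hKD] at hfin
  simp only [hdA, hdD] at hK1 hK4 hK0 hfin
  refine ⟨K, hK1, ⟨fun h => ?_, fun h => ?_⟩, hK3, hfin, fun h2 hcA => ⟨fun f hf => ?_,
    fun hns => ?_⟩⟩
  · have hall : ∀ m' : ℕ, HIn H A (2 * m') := by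
      intro m' ψ hψ
      have h6 : rein V m' ((rein V m').symm ψ) = ψ := (rein V m').apply_symm_apply ψ
      have h7 : (rein V m').symm ψ ∈ CC A m' := hK2 h m' ((hAnn m' _).2 ((hD _ _).2 (by
        rw [h6]
        exact hψ)))
      have h8 : rein V m' ((rein V m').symm ψ) ∈ A (2 * m') := h7
      rwa [h6] at h8
    exact fun N => down_le hA hP hH (by omega : N ≤ 2 * N) (hall N)
  · have h1 : ∀ m : ℕ, (finrank ℚ (A (2 * m)) : ℝ) / finrank ℚ (D (2 * m)) = 1 := by
      intro m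
      have h3 : A (2 * m) = D (2 * m) := by
        refine le_antisymm (fun ψ hψ => (hD _ _).2 (hA.hodge _ _ hψ))
          fun ψ hψ => h _ ψ ((hD _ _).1 hψ)
      rw [h3]
      refine div_self ?_
      have := hK0 m
      positivity
    simp only [h1] at hK1
    have h2 := tendsto_nhds_unique hK1 tendsto_const_nhds
    have h3 : (K : ℝ) = 1 := by
      rw [← inv_inv (K : ℝ), h2, inv_one]
    exact_mod_cast h3
  · rw [hKA] at hf
    obtain ⟨g, hg, h3⟩ := split_hd hd hγ hC (hup 1 h2) hcA hf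
    rw [← hKD] at hg
    refine ⟨g, hg, (endo_iff _ hmem hr _).2 h3.1, fun f' hf' => h3.2.1 f'
      ((endo_iff _ hmem hr f').1 hf'), h3.2.2⟩
  · refine hK4 (fun p hp hpz hsk => ?_) (hup 1 h2) hcA
    exact hns p ⟨(endo_iff _ hmem hr p).2 hp,
      fun f' hf' => hpz f' ((endo_iff _ hmem hr f').1 hf'), hsk⟩

end hodge

end

end Pool.Agent.H25.HG
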